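import Pool.Agent.H80E.AlgB

/-!
Algebraic bases for two maps.
-/

set_option autoImplicit false
set_option linter.unusedSectionVars false

open Filter Topology MeasureTheory ProbabilityTheory
open scoped ENNReal ProbabilityTheory ComplexConjugate

noncomputable section

namespace Pool.Agent.H80E

open Pool.Agent.Y311.UB Pool.Agent.Y311.CX Pool.Agent.H80GE Pool.Agent.H80IE Pool.Agent.H80C

/-- algebraic factors, two maps -/
theorem alg_pair {X G : Type} [MeasurableSpace X] {ν : Measure X} [IsProbabilityMeasure ν] {T₀ T₁ : X → X}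
    (hT₀ : MeasurePreserving T₀ ν ν) (hT₁ : MeasurePreserving T₁ ν ν) [CommGroup G] [TopologicalSpace G]
    [IsTopologicalGroup G] [CompactSpace G] [T2Space G] [MeasurableSpace G] [BorelSpace G] {R₀ R₁ : Equiv.Perm G}
    (hR₀ : ∃ (α : G →ₜ* G) (c : G), ∀ x, R₀ x = α x * c) (hR₁ : ∃ (α : G →ₜ* G) (c : G), ∀ x, R₁ x = α x * c)
    (hc : ∀ x, R₀ (R₁ x) = R₁ (R₀ x)) {p : X → G} (hp : Measurable p) (hpH : (ν.map p).IsHaarMeasure)
    (hpT : ∀ᵐ x ∂ν, p (T₀ x) = R₀ (p x) ∧ p (T₁ x) = R₁ (p x)) :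
    CvF ν ![T₀, T₁] (MeasurableSpace.comap p inferInstance) := by
  have hν : IsProbabilityMeasure (ν.map p) := Measure.isProbabilityMeasure_map hp.aemeasurable
  have hcom : Commute R₀ R₁ := Equiv.ext fun x => hc x
  refine cvf_fac (R := fun j => (((![R₀, R₁] : Fin 2 → Equiv.Perm G) j : Equiv.Perm G) : G → G)) (fun j => ?_) hp
    (fun j => ?_) fun g hg hgb => aff_conv (R := ![R₀, R₁]) (fun i => ?_) (fun i j => ?_) g hg hgb
  · fin_cases j
    · exact hT₀
    · exact hT₁
  · fin_cases j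
    · exact hpT.mono fun x hx => hx.1
    · exact hpT.mono fun x hx => hx.2
  · fin_cases i
    · exact hR₀
    · exact hR₁
  · fin_cases i <;> fin_cases j
    · exact Commute.refl _
    · exact hcom
    · exact hcom.symm
    · exact Commute.refl _

end Pool.Agent.H80E
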