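import Pool.Agent.H80E.StmM

/-!
Project E3, stub ALGS: from the sets of an algebra to the σ-algebra generated by it.
-/

set_option autoImplicit false
set_option linter.unusedSectionVars false

open Filter Topology MeasureTheory ProbabilityTheory
open scoped ENNReal ComplexConjugate

noncomputable section

namespace Pool.Agent.H80E.ALGS

open Pool.Agent.Y311.UB Pool.Agent.Y311.CX Pool.Agent.H80GE Pool.Agent.H80IE Pool.Agent.H80C Pool.Agent.H80E

theorem kap_mem {X : Type} {𝒢 : Set (Set X)} (h : IsSetAlgebra 𝒢) {G : Finset (Set X)} (hG : ∀ A ∈ G, A ∈ 𝒢)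
    (t : Finset (Set X)) : {x : X | kap G x = t} ∈ 𝒢 := by
  classical
  by_cases ht : t ⊆ G
  · have e : {x : X | kap G x = t} = ⋂ A ∈ G, {x | x ∈ A ↔ A ∈ t} := by
      ext x
      simp only [Set.mem_ofPred_eq, Set.mem_iInter]
      constructor
      · rintro rfl A hA
        rw [mem_kap]
        exact ⟨fun h => ⟨hA, h⟩, fun h => h.2⟩
      · intro h
        ext A
        rw [mem_kap]
        constructor
        · rintro ⟨h1, h2⟩
          exact (h A h1).1 h2
        · intro h1
          exact ⟨ht h1, (h A (ht h1)).2 h1⟩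
    rw [e]
    refine h.biInter_mem G fun A hA => ?_
    by_cases hAt : A ∈ t
    · have e2 : {x : X | x ∈ A ↔ A ∈ t} = A := by
        ext x
        simp [hAt]
      rw [e2]
      exact hG A hA
    · have e2 : {x : X | x ∈ A ↔ A ∈ t} = Aᶜ := by
        ext x
        simp [hAt]
      rw [e2]
      exact h.compl_mem (hG A hA)
  · have e : {x : X | kap G x = t} = ∅ := by
      ext x
      simp only [Set.mem_ofPred_eq, Set.mem_empty_iff_false, iff_false]
      rintro rfl
      exact ht fun A hA => (mem_kap.1 hA).1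
    rw [e]
    exact h.empty_mem

theorem t : ALGS := by
  classical
  intro X _ μ _ m T hT 𝒢 hSA h𝒢 hconv
  have hAlg := At_alg h𝒢
  refine cvf_of_alg _ hAlg hT (fun f hf => ?_) fun s hs => ?_
  · choose G hG hGf using hf
    set U : Finset (Set X) := Finset.univ.biUnion G with hU
    have hUG : ∀ j, G j ⊆ U := fun j => Finset.subset_biUnion_of_mem G (Finset.mem_univ j)
    have hU𝒢 : ∀ A ∈ U, A ∈ 𝒢 := by
      intro A hA'
      rw [hU, Finset.mem_biUnion] at hA'
      obtain ⟨j, _, hj⟩ := hA'
      exact hG j A hj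
    choose F hF using fun j => fac_kap (G := U) (f := f j) fun x y h => hGf j x y (kap_mono (hUG j) h)
    have hall : ∀ᵐ x ∂μ, ∀ τ ∈ Fintype.piFinset (fun _ : Fin m => U.powerset), ∃ L,
        Tendsto (fun N => AVF T (fun j x => ((({y : X | kap U y = τ j}).indicator (fun _ => (1 : ℝ)) x : ℝ) : ℂ)) N x)
          atTop (𝓝 L) := by
      rw [Finset.eventually_all]
      intro τ _
      exact hconv (fun j => {y : X | kap U y = τ j}) fun j => kap_mem hSA hU𝒢 (τ j)
    filter_upwards [hall] with x hx
    choose! L hL using hx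
    refine ⟨∑ τ ∈ Fintype.piFinset (fun _ : Fin m => U.powerset), (∏ j, ((F j (τ j) : ℝ) : ℂ)) * L τ, ?_⟩
    have h5 := tendsto_finsetSum (Fintype.piFinset (fun _ : Fin m => U.powerset)) fun τ hτ =>
      (hL τ hτ).const_mul (∏ j, ((F j (τ j) : ℝ) : ℂ))
    refine h5.congr fun N => ?_
    unfold AVF av
    simp only [← mul_assoc, mul_comm _ ((N : ℂ)⁻¹)]
    simp only [mul_assoc, ← Finset.mul_sum]
    congr 1
    simp only [Finset.mul_sum]
    rw [Finset.sum_comm]
    refine Finset.sum_congr rfl fun n _ => ?_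
    have e1 : ∀ j, ((f j ((T j)^[n + 1] x) : ℝ) : ℂ) = ∑ t ∈ U.powerset,
        ((F j t : ℝ) : ℂ) * ((({y : X | kap U y = t}).indicator (fun _ => (1 : ℝ)) ((T j)^[n + 1] x) : ℝ) : ℂ) := by
      intro j
      set y := (T j)^[n + 1] x
      rw [Finset.sum_eq_single (kap U y)]
      · rw [Set.indicator_of_mem (show y ∈ {z : X | kap U z = kap U y} from rfl), hF j]
        simp
      · intro t _ ht
        rw [Set.indicator_of_notMem (show y ∉ {z : X | kap U z = t} from fun h => ht (Eq.symm h))]
        simp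
      · exact fun h => absurd (Finset.mem_powerset.2 fun A hA => (mem_kap.1 hA).1) h
    simp only [e1]
    rw [Finset.prod_univ_sum]
    refine Finset.sum_congr rfl fun τ _ => ?_
    rw [Finset.prod_mul_distrib]
  · have h1 : MeasurableSpace.generateFrom 𝒢 ≤ Gs (cl_calg (μ := μ) hAlg) := by
      refine MeasurableSpace.generateFrom_le fun t ht => ⟨h𝒢 t ht, cl.of hAlg ⟨{t}, ?_, ?_⟩⟩
      · intro A hA'
        rw [Finset.mem_singleton] at hA'
        rw [hA']
        exact ht
      · intro x y hxy
        have h2 := kap_iff.1 hxy t (Finset.mem_singleton_self t)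
        by_cases h3 : x ∈ t
        · rw [Set.indicator_of_mem h3, Set.indicator_of_mem (h2.1 h3)]
        · rw [Set.indicator_of_notMem h3, Set.indicator_of_notMem fun h4 => h3 (h2.2 h4)]
    exact h1 s hs

end Pool.Agent.H80E.ALGS
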