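import Pool.Agent.H80E.Two
import Pool.Agent.TH784.AA.Fin

/-!
Bases: factors which are algebraic actions (commuting affine maps of a compact abelian group).
-/

set_option autoImplicit false
set_option linter.unusedSectionVars false

open Filter Topology MeasureTheory ProbabilityTheory
open scoped ENNReal ProbabilityTheory ComplexConjugate

noncomputable section

namespace Pool.Agent.H80E

open Pool.Agent.Y311.UB Pool.Agent.Y311.CX Pool.Agent.H80GE Pool.Agent.H80IE Pool.Agent.H80C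

/-- convergence for the functions of a factor -/
theorem cvf_fac {X Z : Type} [MeasurableSpace X] [MeasurableSpace Z] {μ : Measure X} [IsProbabilityMeasure μ]
    {m : ℕ} {T : Fin m → X → X} (hT : ∀ j, MeasurePreserving (T j) μ μ) {R : Fin m → Z → Z} {p : X → Z}
    (hp : Measurable p) (hpT : ∀ j, ∀ᵐ x ∂μ, p (T j x) = R j (p x))
    (hc : ∀ g : Fin m → Z → ℂ, (∀ j, Measurable (g j)) → (∃ C, ∀ j z, ‖g j z‖ ≤ C) →
      ∀ᵐ z ∂(μ.map p), ∃ L, Tendsto (fun N => AVF R g N z) atTop (𝓝 L)) :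
    CvF μ T (MeasurableSpace.comap p inferInstance) := by
  have hmp : MeasurePreserving p μ (μ.map p) := ⟨hp, rfl⟩
  have hiter : ∀ᵐ x ∂μ, ∀ j : Fin m, ∀ n : ℕ, p ((T j)^[n] x) = (R j)^[n] (p x) :=
    ae_all_iff.2 fun j => equiv_iter (p := p) (R := R j) (hT j) (hpT j)
  set A : (X → ℝ) → Prop := fun f => ∃ g : Z → ℝ, BMr g ∧ f = fun x => g (p x) with hA
  have hAlg : Alg0 A := by
    refine ⟨?_, ?_, ?_, ?_, ?_, ?_⟩
    · rintro f ⟨g, hg, rfl⟩
      exact hg.comp hp
    · rintro f f' ⟨g, hg, rfl⟩ ⟨g', hg', rfl⟩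
      exact ⟨_, BMr.add' hg hg', rfl⟩
    · rintro f f' ⟨g, hg, rfl⟩ ⟨g', hg', rfl⟩
      exact ⟨_, hg.mul hg', rfl⟩
    · rintro c f ⟨g, hg, rfl⟩
      exact ⟨_, BMr.smul' hg c, rfl⟩
    · intro c
      exact ⟨fun _ => c, ⟨measurable_const, |c|, fun _ => le_rfl⟩, rfl⟩
    · rintro c f ⟨g, hg, rfl⟩
      refine ⟨fun z => max (-c) (min c (g z)), ⟨measurable_const.max (measurable_const.min hg.1), |c|, fun x => ?_⟩, rfl⟩
      have h3 : -|c| ≤ -c := by linarith [le_abs_self c]
      have h4 : -c ≤ |c| := neg_le_abs c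
      rw [abs_le]
      exact ⟨h3.trans (le_max_left _ _), max_le h4 ((min_le_left _ _).trans (le_abs_self c))⟩
  refine cvf_of_alg _ hAlg hT (fun f hf => ?_) fun s hs => ?_
  · choose g hg1 hg2 using hf
    choose D hD using fun j => (hg1 j).2
    have h7 := hc (fun j z => ((g j z : ℝ) : ℂ))
      (fun j => Complex.measurable_ofReal.comp (hg1 j).1) ⟨∑ j, |D j|, fun j x => by
        rw [Complex.norm_real]
        exact (hD j x).trans ((le_abs_self _).trans
          (Finset.single_le_sum (f := fun j => |D j|) (fun _ _ => abs_nonneg _) (Finset.mem_univ j)))⟩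
    filter_upwards [hmp.quasiMeasurePreserving.ae h7, hiter] with x hx1 hx2
    obtain ⟨L, hL⟩ := hx1
    refine ⟨L, hL.congr fun N => ?_⟩
    rw [← AVF_equiv (T := T) (R := R) (p := p) hx2 (fun j z => ((g j z : ℝ) : ℂ)) N]
    congr 1
    funext j x
    rw [hg2 j]
  · obtain ⟨C, hC, rfl⟩ := hs
    refine ⟨hp hC, BMr.indicator (hp hC), fun ε hε => ⟨_, ⟨C.indicator fun _ => (1 : ℝ), BMr.indicator hC, rfl⟩, ?_⟩⟩
    have h9 := ind_sub_zero (μ := μ) (s := p ⁻¹' C) (t := p ⁻¹' C) (ae_eq_refl _)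
    have e : ∀ x, (p ⁻¹' C).indicator (fun _ => (1 : ℝ)) x =
        C.indicator (fun _ => (1 : ℝ)) (p x) := fun x => rfl
    simp only [e] at h9
    simp only [e]
    rw [h9]
    exact hε.le

theorem prod_single {G : Type} [Monoid G] {d : ℕ} (g : Fin d → G) (j : Fin d) (h : ∀ i, i ≠ j → g i = 1) :
    (List.ofFn g).prod = g j := by
  induction d with
  | zero => exact j.elim0
  | succ d ih =>
    rw [List.ofFn_succ, List.prod_cons]
    refine Fin.cases ?_ ?_ j (motive := fun j => (∀ i, i ≠ j → g i = 1) →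
      g 0 * (List.ofFn fun i => g i.succ).prod = g j) h
    · intro h
      rw [List.prod_eq_one, mul_one]
      intro x hx
      rw [List.mem_ofFn] at hx
      obtain ⟨i, rfl⟩ := hx
      exact h _ (Fin.succ_ne_zero i)
    · intro j h
      rw [h 0 (Fin.succ_ne_zero j).symm, one_mul]
      exact ih (fun i => g i.succ) j fun i hi => h _ fun h1 => hi (Fin.succ_injective _ h1)

section

variable {G : Type} [CommGroup G] [TopologicalSpace G] [IsTopologicalGroup G] [CompactSpace G] [T2Space G]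
  [MeasurableSpace G] [BorelSpace G] {μ : Measure G} [μ.IsHaarMeasure] [IsProbabilityMeasure μ]

theorem aff_conv {m : ℕ} {R : Fin m → Equiv.Perm G} (hR : ∀ i, Pool.Agent.TH784.AA.IsAff (R i : G → G))
    (hc : ∀ i j, Commute (R i) (R j)) (f : Fin m → G → ℂ) (hf : ∀ j, Measurable (f j)) (hfb : ∃ C, ∀ j x, ‖f j x‖ ≤ C) :
    ∀ᵐ x ∂μ, ∃ L, Tendsto (fun N => AVF (fun j => (R j : G → G)) f N x) atTop (𝓝 L) := by
  obtain ⟨C, hC⟩ := hfb
  have h1 := Pool.Agent.TH784.AA.affine_conv (μ := μ) (k := 1) hR hc (fun i j => if i = j then 1 else 0)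
    (fun i j _ => if i = j then 1 else 0) (f := f) (fun j => ⟨hf j, C, fun x => hC j x⟩)
  filter_upwards [h1] with x hx
  obtain ⟨L, hL⟩ := hx
  refine ⟨L, ?_⟩
  have h2 : Tendsto (fun (N : ℕ) (_ : Fin 1) => N) atTop atTop :=
    tendsto_atTop_atTop.2 fun b => ⟨b 0, fun N hN j => by
      rw [Subsingleton.elim j 0]
      exact hN⟩
  refine (hL.comp h2).congr fun N => ?_
  simp only [Function.comp_apply]
  unfold AVF av Pool.Agent.W761.Box.bxc
  rw [Fin.prod_univ_one]
  congr 1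
  refine Finset.sum_nbij' (fun m => m 0) (fun n _ => n) ?_ ?_ ?_ ?_ ?_
  · intro m hm
    exact Fintype.mem_piFinset.1 hm 0
  · intro n hn
    exact Fintype.mem_piFinset.2 fun _ => hn
  · intro m _
    funext j
    rw [Subsingleton.elim j 0]
  · intro n _
    rfl
  · intro m _
    refine Finset.prod_congr rfl fun j _ => ?_
    congr 1
    have e1 : (List.ofFn fun i : Fin _ => R i ^ ((if i = j then (1 : ℤ) else 0) +
        ∑ _l : Fin 1, ((m 0 : ℕ) : ℤ) * (if i = j then (1 : ℤ) else 0))).prod = R j ^ (m 0 + 1) := by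
      rw [prod_single _ j (fun i hi => by simp [hi])]
      rw [if_pos rfl, Fin.sum_univ_one, mul_one, add_comm (1 : ℤ), ← zpow_natCast]
      push_cast
      rfl
    have e2 : (List.ofFn fun i : Fin _ => R i ^ ((if i = j then (1 : ℤ) else 0) +
        ∑ l : Fin 1, ((m l : ℕ) : ℤ) * (if i = j then (1 : ℤ) else 0))).prod = R j ^ (m 0 + 1) := by
      rw [← e1]
      congr 2
    rw [e2]
    exact (congrFun (Equiv.Perm.iterate_eq_pow (R j) (m 0 + 1)) x).symm

/-- algebraic factors -/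
theorem alg_base {X : Type} [MeasurableSpace X] {ν : Measure X} [IsProbabilityMeasure ν] {m : ℕ} {T : Fin m → X ≃ᵐ X}
    (hT : ∀ j, MeasurePreserving (T j) ν ν) {R : Fin m → Equiv.Perm G}
    (hR : ∀ i, ∃ (α : G →ₜ* G) (c : G), ∀ x, R i x = α x * c)
    (hc : ∀ i j, Commute (R i) (R j)) {p : X → G} (hp : Measurable p) (hpH : (ν.map p).IsHaarMeasure)
    (hpT : ∀ j, ∀ᵐ x ∂ν, p (T j x) = R j (p x)) :
    CvF ν (fun j => (T j : X → X)) (MeasurableSpace.comap p inferInstance) ∧
      CvF ν (fun j => ((T j).symm : X → X)) (MeasurableSpace.comap p inferInstance) := by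
  have hν : IsProbabilityMeasure (ν.map p) := Measure.isProbabilityMeasure_map hp.aemeasurable
  have hA : ∀ i, Pool.Agent.TH784.AA.IsAff (R i : G → G) := hR
  have hAi : ∀ i, Pool.Agent.TH784.AA.IsAff (((R i)⁻¹ : Equiv.Perm G) : G → G) := fun i => (hA i).symm
  refine ⟨cvf_fac hT hp hpT fun g hg hgb => aff_conv hA hc g hg hgb,
    cvf_fac (R := fun j => ((R j)⁻¹ : Equiv.Perm G)) (fun j => mp_symm (hT j)) hp (fun j => ?_)
      fun g hg hgb => aff_conv hAi (fun i j => (hc i j).inv_inv) g hg hgb⟩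
  filter_upwards [(mp_symm (hT j)).quasiMeasurePreserving.ae (hpT j)] with x hx
  rw [MeasurableEquiv.apply_symm_apply] at hx
  show p ((T j).symm x) = (R j).symm (p x)
  rw [hx, Equiv.symm_apply_apply]

end

end Pool.Agent.H80E
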