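import Pool.Agent.H80E.AlgB
import Pool.Agent.W761.Tail.Main

/-!
Algebraic and Gaussian bases for the powers of one map.
-/

set_option autoImplicit false
set_option linter.unusedSectionVars false

open Filter Topology MeasureTheory ProbabilityTheory
open scoped ENNReal ProbabilityTheory ComplexConjugate

noncomputable section

namespace Pool.Agent.H80E

open Pool.Agent.Y311.UB Pool.Agent.Y311.CX Pool.Agent.H80GE Pool.Agent.H80IE Pool.Agent.H80C

theorem cva_iff_cvf {X : Type} (𝓐 : MeasurableSpace X) [mX : MeasurableSpace X] (μ : Measure X) (T : X → X) {m : ℕ}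
    (a : Fin m → ℕ) : CvA μ T a 𝓐 ↔ CvF μ (fun j => T^[a j]) 𝓐 := by
  unfold CvA CvF AV AVF
  simp only [Function.iterate_mul]

/-- algebraic factors, powers of one map -/
theorem cva_alg {X G : Type} [MeasurableSpace X] {ν : Measure X} [IsProbabilityMeasure ν] {T : X → X}
    (hT : MeasurePreserving T ν ν) [CommGroup G] [TopologicalSpace G]
    [IsTopologicalGroup G] [CompactSpace G] [T2Space G] [MeasurableSpace G] [BorelSpace G] {R : Equiv.Perm G}
    (hR : ∃ (α : G →ₜ* G) (c : G), ∀ x, R x = α x * c) {p : X → G} (hp : Measurable p)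
    (hpH : (ν.map p).IsHaarMeasure) (hpT : ∀ᵐ x ∂ν, p (T x) = R (p x)) {m : ℕ} (a : Fin m → ℕ) :
    CvA ν T a (MeasurableSpace.comap p inferInstance) := by
  have hν : IsProbabilityMeasure (ν.map p) := Measure.isProbabilityMeasure_map hp.aemeasurable
  have hA : Pool.Agent.TH784.AA.IsAff (R : G → G) := hR
  rw [cva_iff_cvf]
  refine cvf_fac (R := fun j => ((R ^ a j : Equiv.Perm G) : G → G)) (fun j => hT.iterate _) hp
    (fun j => ?_) fun g hg hgb => aff_conv (R := fun j => R ^ a j) (fun j => hA.pow (a j))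
      (fun i j => Commute.pow_pow_self R _ _) g hg hgb
  filter_upwards [equiv_iter hT hpT] with x hx
  rw [hx (a j)]
  exact congrFun (Equiv.Perm.iterate_eq_pow R (a j)) (p x)

/-- Gaussian factors, powers of one map -/
theorem cva_gauss {X Z : Type} [MeasurableSpace X] [MeasurableSpace Z] {ν : Measure X} [IsProbabilityMeasure ν]
    {T : X → X} (hT : MeasurePreserving T ν ν) {S : Equiv.Perm Z} {p : X → Z} (hp : Measurable p)
    (hG : Pool.Agent.W761.Tail.IsGaussian (ν.map p) S) (hpT : ∀ᵐ x ∂ν, p (T x) = S (p x)) {m : ℕ} (a : Fin m → ℕ)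
    (ha0 : ∀ j, 0 < a j) : CvA ν T a (MeasurableSpace.comap p inferInstance) := by
  classical
  have hν : IsProbabilityMeasure (ν.map p) := Measure.isProbabilityMeasure_map hp.aemeasurable
  rw [cva_iff_cvf]
  refine cvf_fac (R := fun j => (S : Z → Z)^[a j]) (fun j => hT.iterate _) hp (fun j => ?_) fun g hg hgb => ?_
  · filter_upwards [equiv_iter hT hpT] with x hx
    exact hx (a j)
  · obtain ⟨C, hC⟩ := hgb
    have hle : ∀ j, a j ≤ ∑ i, a i := fun j =>
      Finset.single_le_sum (f := a) (fun _ _ => Nat.zero_le _) (Finset.mem_univ j)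
    set φ : Fin m → Fin (∑ i, a i) := fun j => ⟨a j - 1, by have := ha0 j; have := hle j; omega⟩ with hφ
    set F : Fin (∑ i, a i) → Z → ℂ := fun l z => ∏ j ∈ Finset.univ.filter (fun j => φ j = l), g j z with hF
    have hFB : ∀ l, Pool.Agent.W761.Gauss.BM (F l) := by
      intro l
      refine ⟨Finset.measurable_fun_prod _ fun j _ => hg j,
        ∏ _j ∈ Finset.univ.filter (fun j => φ j = l), C, fun z => ?_⟩
      rw [hF, norm_prod]
      exact Finset.prod_le_prod (fun j _ => norm_nonneg _) fun j _ => hC j z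
    have h2 : ∀ᵐ z ∂(ν.map p), ∃ L, Tendsto (fun N => av N (fun n => ∏ l : Fin (∑ i, a i),
        F l ((S : Z → Z)^[((l : ℕ) + 1) * (n + 1)] z))) atTop (𝓝 L) := hG.conv hFB
    filter_upwards [h2] with z hz
    obtain ⟨L, hL⟩ := hz
    refine ⟨L, hL.congr fun N => ?_⟩
    unfold AVF
    congr 1
    funext n
    rw [hF]
    have e : ∀ l : Fin (∑ i, a i), (∏ j ∈ Finset.univ.filter (fun j => φ j = l),
        g j ((S : Z → Z)^[((l : ℕ) + 1) * (n + 1)] z)) =
        ∏ j ∈ Finset.univ.filter (fun j => φ j = l), g j (((S : Z → Z)^[a j])^[n + 1] z) := by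
      intro l
      refine Finset.prod_congr rfl fun j hj => ?_
      have h3 : φ j = l := (Finset.mem_filter.1 hj).2
      have h4 : (l : ℕ) + 1 = a j := by
        rw [← h3, hφ]
        have := ha0 j
        show a j - 1 + 1 = a j
        omega
      rw [h4, Function.iterate_mul]
    simp only [e]
    exact Finset.prod_fiberwise Finset.univ φ fun j => g j (((S : Z → Z)^[a j])^[n + 1] z)

end Pool.Agent.H80E
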