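import Pool.Agent.H80E.Stm
import Pool.Agent.H80IE.COR
import Pool.Agent.H80GE.Box
import Pool.Agent.H80GE.WM1

/-! B3: the correlation bound. -/

set_option autoImplicit false

open Filter Topology MeasureTheory ProbabilityTheory
open scoped ENNReal ComplexConjugate

namespace Pool.Agent.H80E

open Pool.Agent.Y311.UB Pool.Agent.Y311.CX Pool.Agent.H80GE Pool.Agent.H80IE Pool.Agent.H80C

lemma B3.int_mp {X E : Type} [MeasurableSpace X] {μ : Measure X} [NormedAddCommGroup E] [NormedSpace ℝ E] {T : X → X}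
    (hT : MeasurePreserving T μ μ) {F : X → E} (hF : AEStronglyMeasurable F μ) :
    ∫ x, F (T x) ∂μ = ∫ x, F x ∂μ := by
  have h3 := integral_map (μ := μ) hT.measurable.aemeasurable (f := F) (by rw [hT.map_eq]; exact hF)
  rw [hT.map_eq] at h3
  exact h3.symm

lemma B3.av_int {X : Type} [MeasurableSpace X] (μ : Measure X) {P : X → ℂ} {v : ℕ → X → ℂ}
    (hi : ∀ n, Integrable (fun y => P y * v n y) μ) (N : ℕ) :
    av N (fun n => ∫ y, P y * v n y ∂μ) = ∫ y, P y * av N (fun n => v n y) ∂μ := by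
  unfold av
  rw [← integral_finsetSum _ fun n _ => hi n, ← integral_const_mul]
  refine integral_congr_ae (Eventually.of_forall fun y => ?_)
  simp only
  rw [← Finset.mul_sum]
  ring

theorem B3.t : B3 := by
  intro Y _ _ μ _ Θ₀ Θ₁ Θ₂ A B h0 h1 h2 hA hB e1 e2 cAB cA0 cB0 herg ψ hψ hψ1 P₁ P₂ hP1 hP2 hP1b hP2b ε hε
  -- the functions
  set u : ℕ → Y → ℂ := fun n y => ((ψ (A (-((n:ℤ) + 1)) y) : ℝ) : ℂ) * P₂ (B ((n:ℤ) + 1) (A (-((n:ℤ) + 1)) y)) with hu
  set Q : ℕ → Y → ℂ := fun d x => P₂ (B (d:ℤ) (A (-(d:ℤ)) x)) * conj (P₂ x) with hQ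
  set c : ℕ → ℕ → ℂ := fun d n => ∫ z, ((ψ (A (-(d:ℤ)) z) * ψ z : ℝ) : ℂ) * Q d (B ((n:ℤ) + 1) z) ∂μ with hc
  set r : ℕ → ℝ := fun d => ∫ z, ψ (A (-(d:ℤ)) z) * ψ z ∂μ with hr
  have hum : ∀ n, Measurable (u n) := by
    intro n
    exact (Complex.measurable_ofReal.comp (hψ.comp (hA.measurable _))).mul
      (hP2.comp ((hB.measurable _).comp (hA.measurable _)))
  have hψc : ∀ y, ‖((ψ y : ℝ) : ℂ)‖ ≤ 1 := by
    intro y
    rw [Complex.norm_real, Real.norm_eq_abs]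
    exact hψ1 y
  have hu1 : ∀ n y, ‖u n y‖ ≤ 1 := by
    intro n y
    simp only [hu, norm_mul]
    exact mul_le_one₀ (hψc _) (norm_nonneg _) (hP2b _)
  have hQm : ∀ d, Measurable (Q d) := by
    intro d
    exact (hP2.comp ((hB.measurable _).comp (hA.measurable _))).mul (Complex.continuous_conj.measurable.comp hP2)
  have hQ1 : ∀ d x, ‖Q d x‖ ≤ 1 := by
    intro d x
    simp only [hQ, norm_mul, RCLike.norm_conj]
    exact mul_le_one₀ (hP2b _) (norm_nonneg _) (hP2b _)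
  have hψψm : ∀ d : ℕ, Measurable fun z => ψ (A (-(d:ℤ)) z) * ψ z := fun d =>
    (hψ.comp (hA.measurable _)).mul hψ
  have hψψ1 : ∀ (d : ℕ) z, |ψ (A (-(d:ℤ)) z) * ψ z| ≤ 1 := by
    intro d z
    rw [abs_mul]
    exact mul_le_one₀ (hψ1 _) (abs_nonneg _) (hψ1 _)
  have hψψ1c : ∀ (d : ℕ) z, ‖((ψ (A (-(d:ℤ)) z) * ψ z : ℝ) : ℂ)‖ ≤ 1 := by
    intro d z
    rw [Complex.norm_real, Real.norm_eq_abs]
    exact hψψ1 d z
  -- the correlations
  have hcor : ∀ d n, ∫ y, u (n + d) y * conj (u n y) ∂μ = c d n := by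
    intro d n
    rw [← B3.int_mp (hA.mp ((n:ℤ) + 1)) (F := fun y => u (n + d) y * conj (u n y))
      ((hum _).mul (Complex.continuous_conj.measurable.comp (hum _))).aestronglyMeasurable]
    refine integral_congr_ae (Eventually.of_forall fun z => ?_)
    have k1 : A (-((n:ℤ) + 1)) (A ((n:ℤ) + 1) z) = z := hA.neg_apply _ _
    have k2 : A (-(((n + d : ℕ):ℤ) + 1)) (A ((n:ℤ) + 1) z) = A (-(d:ℤ)) z := by
      rw [← hA.add_apply]
      congr 2
      push_cast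
      ring
    have k3 : B (((n + d : ℕ):ℤ) + 1) (A (-(d:ℤ)) z) = B (d:ℤ) (A (-(d:ℤ)) (B ((n:ℤ) + 1) z)) := by
      rw [cAB, ← hB.add_apply]
      congr 2
      push_cast
      ring
    simp only [hu, hQ]
    rw [k1, k2, k3, map_mul, Complex.conj_ofReal]
    push_cast
    ring
  -- the ergodic theorem
  have hBit : ∀ (k : ℕ) x, B 1 ((B 1)^[k] x) = B ((k:ℤ) + 1) x := by
    intro k x
    rw [hB.iterate, ← hB.add_apply]
    congr 2
    simp
    ring
  have hcint : ∀ d n : ℕ, Integrable (fun z => ((ψ (A (-(d:ℤ)) z) * ψ z : ℝ) : ℂ) * Q d (B ((n:ℤ) + 1) z)) μ := by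
    intro d n
    refine Integrable.of_bound (((Complex.measurable_ofReal.comp (hψψm d)).mul
      ((hQm d).comp (hB.measurable _))).aestronglyMeasurable) 1 (Eventually.of_forall fun z => ?_)
    rw [norm_mul]
    exact mul_le_one₀ (hψψ1c d z) (norm_nonneg _) (hQ1 _ _)
  have hlim : ∀ d : ℕ, Tendsto (fun N => av N (c d)) atTop
      (𝓝 (∫ z, ((ψ (A (-(d:ℤ)) z) * ψ z : ℝ) : ℂ) * (∫ x, Q d (B 1 x) ∂μ) ∂μ)) := by
    intro d
    have hE := erg_complex herg (fun x => Q d (B 1 x)) ((hQm d).comp (hB.measurable 1)) 1 (fun x => hQ1 _ _)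
    have h3 : Tendsto (fun N : ℕ => ∫ z, ((ψ (A (-(d:ℤ)) z) * ψ z : ℝ) : ℂ) *
        av N (fun n => Q d (B ((n:ℤ) + 1) z)) ∂μ) atTop
        (𝓝 (∫ z, ((ψ (A (-(d:ℤ)) z) * ψ z : ℝ) : ℂ) * (∫ x, Q d (B 1 x) ∂μ) ∂μ)) := by
      refine tendsto_integral_of_dominated_convergence (fun _ => (1:ℝ)) ?_ (integrable_const _) ?_ ?_
      · intro N
        refine ((Complex.measurable_ofReal.comp (hψψm d)).mul ?_).aestronglyMeasurable
        unfold av
        exact (Finset.measurable_fun_sum _ fun n _ => (hQm d).comp (hB.measurable _)).const_mul _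
      · intro N
        refine Eventually.of_forall fun z => ?_
        rw [norm_mul]
        exact mul_le_one₀ (hψψ1c d z) (norm_nonneg _) (av_norm_le zero_le_one fun n => hQ1 _ _)
      · filter_upwards [hE] with z hz
        simp only [hBit] at hz
        exact hz.const_mul _
    refine h3.congr fun N => ?_
    simp only [hc]
    rw [B3.av_int μ (hcint d) N]
  have hlimn : ∀ d : ℕ, ‖∫ z, ((ψ (A (-(d:ℤ)) z) * ψ z : ℝ) : ℂ) * (∫ x, Q d (B 1 x) ∂μ) ∂μ‖ ≤ |r d| := by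
    intro d
    rw [integral_mul_const, norm_mul]
    have q1 : ‖∫ x, Q d (B 1 x) ∂μ‖ ≤ 1 := by
      refine (norm_integral_le_of_norm_le_const (C := 1) (Eventually.of_forall fun x => hQ1 _ _)).trans (by simp)
    have q2 : ∫ z, ((ψ (A (-(d:ℤ)) z) * ψ z : ℝ) : ℂ) ∂μ = ((r d : ℝ) : ℂ) := by
      simp only [hr]
      exact integral_ofReal
    rw [q2, Complex.norm_real, Real.norm_eq_abs]
    calc |r d| * ‖∫ x, Q d (B 1 x) ∂μ‖ ≤ |r d| * 1 := by gcongr
      _ = |r d| := mul_one _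
  -- the squares
  have hWm : BMr (fun z : Y × Y => ψ z.1 * ψ z.2) := by
    refine ⟨(hψ.comp measurable_fst).mul (hψ.comp measurable_snd), 1, fun z => ?_⟩
    rw [abs_mul]
    exact mul_le_one₀ (hψ1 _) (abs_nonneg _) (hψ1 _)
  have hCOR := COR.t (Y × Y) (μ.prod μ) (D2 A) (act_prod hA) (fun z : Y × Y => ψ z.1 * ψ z.2) hWm
  have hsq : ∀ d : ℕ, ∫ z, (fun z : Y × Y => ψ z.1 * ψ z.2) (D2 A (d:ℤ) z) * (fun z : Y × Y => ψ z.1 * ψ z.2) z ∂(μ.prod μ) =
      (r d) ^ 2 := by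
    intro d
    have e3 : r d = ∫ z, ψ (A (d:ℤ) z) * ψ z ∂μ := by
      simp only [hr]
      rw [← B3.int_mp (hA.mp (d:ℤ)) (F := fun z => ψ (A (-(d:ℤ)) z) * ψ z) (hψψm d).aestronglyMeasurable]
      refine integral_congr_ae (Eventually.of_forall fun z => ?_)
      simp only
      rw [hA.neg_apply, mul_comm]
    rw [e3, sq, ← integral_prod_mul]
    refine integral_congr_ae (Eventually.of_forall fun z => ?_)
    simp only [D2_apply]
    ring
  have hCOR2 : Tendsto (fun M : ℕ => (M : ℝ)⁻¹ * ∑ m ∈ Finset.range M, (r m) ^ 2) atTop (𝓝 (EnP μ A ψ)) := by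
    refine hCOR.congr fun M => ?_
    congr 1
    exact Finset.sum_congr rfl fun m _ => hsq m
  set E := EnP μ A ψ with hEdef
  have hsqrt : Tendsto (fun M : ℕ => 2 * Real.sqrt ((M : ℝ)⁻¹ * ∑ m ∈ Finset.range M, (r m) ^ 2)) atTop
      (𝓝 (2 * Real.sqrt E)) := (hCOR2.sqrt).const_mul 2
  obtain ⟨H, hH1, hHe⟩ := ((eventually_ge_atTop 1).and
    (hsqrt.eventually (gt_mem_nhds (show 2 * Real.sqrt E < 2 * Real.sqrt E + ε / 3 by linarith)))).exists
  have hHR : (0 : ℝ) < H := by exact_mod_cast hH1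
  -- eventually in N
  have hgood : ∀ᶠ N : ℕ in atTop, ∀ d ∈ Finset.range H, ‖av N (c d)‖ ≤ |r d| + ε / 6 := by
    rw [Filter.eventually_all_finset]
    intro d _
    have h4 := (hlim d).norm.eventually (gt_mem_nhds (show
      ‖∫ z, ((ψ (A (-(d:ℤ)) z) * ψ z : ℝ) : ℂ) * (∫ x, Q d (B 1 x) ∂μ) ∂μ‖ < |r d| + ε / 6 by
        have := hlimn d
        linarith))
    filter_upwards [h4] with N hN using hN.le
  obtain ⟨N1, hN1⟩ := exists_nat_gt (6 * (H : ℝ) / (ε / 3))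
  filter_upwards [hgood, eventually_gt_atTop (max N1 0)] with N hN hNN
  have hN0 : 0 < N := (le_max_right _ _).trans_lt hNN
  have hNR : (0 : ℝ) < N := by exact_mod_cast hN0
  have hN1' : 6 * (H : ℝ) / (ε / 3) < N := hN1.trans (by exact_mod_cast (le_max_left _ _).trans_lt hNN)
  have hv := vdc_cor μ (fun k => (hum k).aestronglyMeasurable) hu1 c hcor N H hN0 hH1
  have hdbl : ((H : ℝ)⁻¹) ^ 2 * ∑ h ∈ Finset.range H, ∑ h' ∈ Finset.range H, (av N (c (Nat.dist h h'))).re ≤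
      2 * Real.sqrt ((H : ℝ)⁻¹ * ∑ m ∈ Finset.range H, (r m) ^ 2) + ε / 3 := by
    have hle : ∀ h ∈ Finset.range H, ∀ h' ∈ Finset.range H, (av N (c (Nat.dist h h'))).re ≤
        |r (Nat.dist h h')| + ε / 6 := by
      intro h hh h' hh'
      rw [Finset.mem_range] at hh hh'
      have hdH : Nat.dist h h' < H := by unfold Nat.dist; omega
      exact (Complex.re_le_norm _).trans (hN _ (Finset.mem_range.2 hdH))
    have hcs : (H : ℝ)⁻¹ * ∑ d ∈ Finset.range H, |r d| ≤ Real.sqrt ((H : ℝ)⁻¹ * ∑ m ∈ Finset.range H, (r m) ^ 2) := by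
      apply Real.le_sqrt_of_sq_le
      have h5 := sq_sum_le_card_mul_sum_sq (s := Finset.range H) (f := fun d => |r d|)
      simp only [Finset.card_range, sq_abs] at h5
      calc ((H : ℝ)⁻¹ * ∑ d ∈ Finset.range H, |r d|) ^ 2 = ((H : ℝ)⁻¹) ^ 2 * (∑ d ∈ Finset.range H, |r d|) ^ 2 := by
            rw [mul_pow]
        _ ≤ ((H : ℝ)⁻¹) ^ 2 * (H * ∑ d ∈ Finset.range H, (r d) ^ 2) := by gcongr
        _ = (H : ℝ)⁻¹ * ∑ m ∈ Finset.range H, (r m) ^ 2 := by
            field_simp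
    calc ((H : ℝ)⁻¹) ^ 2 * ∑ h ∈ Finset.range H, ∑ h' ∈ Finset.range H, (av N (c (Nat.dist h h'))).re
        ≤ ((H : ℝ)⁻¹) ^ 2 * ∑ h ∈ Finset.range H, ∑ h' ∈ Finset.range H, (fun d => |r d| + ε / 6) (Nat.dist h h') := by
          gcongr with h hh h' hh'
          exact hle h hh h' hh'
      _ ≤ ((H : ℝ)⁻¹) ^ 2 * (2 * H * ∑ d ∈ Finset.range H, (fun d => |r d| + ε / 6) d) := by
          gcongr
          exact sum_dist_le H (fun d => |r d| + ε / 6) (fun d => by positivity)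
      _ = 2 * ((H : ℝ)⁻¹ * ∑ d ∈ Finset.range H, |r d|) + ε / 3 := by
          simp only [Finset.sum_add_distrib, Finset.sum_const, Finset.card_range, nsmul_eq_mul]
          field_simp
          ring
      _ ≤ _ := by linarith
  have herr : 6 * (1 : ℝ) ^ 2 * H / N ≤ ε / 3 := by
    rw [div_le_iff₀ hNR]
    rw [div_lt_iff₀ (by positivity)] at hN1'
    linarith
  have hfin : ∫ x, ‖av N (fun k => u k x)‖ ^ 2 ∂μ ≤ 2 * Real.sqrt E + ε := by linarith
  -- the correlation as an integral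
  have e3 : ∀ n : ℕ, ∫ y, ((ψ (Θ₀ (n + 1) y) : ℝ) : ℂ) * (P₁ (Θ₁ (n + 1) y) * P₂ (Θ₂ (n + 1) y)) ∂μ =
      ∫ y, P₁ y * u n y ∂μ := by
    intro n
    rw [← B3.int_mp (h1.mp ((n:ℤ) + 1)) (F := fun y => P₁ y * u n y) (hP1.mul (hum n)).aestronglyMeasurable]
    refine integral_congr_ae (Eventually.of_forall fun y => ?_)
    have k1 : A (-((n:ℤ) + 1)) (Θ₁ ((n:ℤ) + 1) y) = Θ₀ ((n:ℤ) + 1) y := by
      rw [e1, Equiv.Perm.mul_apply, hA.neg_apply]
    simp only [hu]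
    rw [k1, e2, Equiv.Perm.mul_apply]
    ring
  have e4 : av N (fun n => ∫ y, ((ψ (Θ₀ (n + 1) y) : ℝ) : ℂ) * (P₁ (Θ₁ (n + 1) y) * P₂ (Θ₂ (n + 1) y)) ∂μ) =
      ∫ y, P₁ y * av N (fun n => u n y) ∂μ := by
    simp_rw [e3]
    refine B3.av_int μ (fun n => ?_) N
    refine Integrable.of_bound (hP1.mul (hum n)).aestronglyMeasurable 1 (Eventually.of_forall fun z => ?_)
    rw [norm_mul]
    exact mul_le_one₀ (hP1b z) (norm_nonneg _) (hu1 _ _)
  rw [e4]
  refine (norm_int_sq_le μ hP1b (g := fun y => av N (fun n => u n y)) ?_ (D := 1) ?_).trans hfin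
  · unfold av
    exact ((Finset.measurable_fun_sum _ fun n _ => hum n).const_mul _).aestronglyMeasurable
  · intro y
    exact av_norm_le zero_le_one fun n => hu1 _ _

end Pool.Agent.H80E
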