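import Pool.Agent.H80E.Stm

/-! Stub EFAC of project E3: the energy and factor maps. -/

set_option autoImplicit false

open Filter Topology MeasureTheory ProbabilityTheory
open scoped ENNReal ComplexConjugate

noncomputable section

namespace Pool.Agent.H80E.EFAC

open Pool.Agent.Y311.UB Pool.Agent.Y311.CX Pool.Agent.H80GE Pool.Agent.H80IE Pool.Agent.H80C

theorem t : EFAC := by
  intro X' X _ _ μ' μ _ _ Ψ' Ψ π hΨ' hΨ hπ hcom F hF
  have hF2 : BMr (fun z : X × X => F z.1 * F z.2) :=
    (hF.comp measurable_fst).mul (hF.comp measurable_snd)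
  have hF2' : BMr (fun z : X' × X' => F (π z.1) * F (π z.2)) :=
    ((hF.comp hπ.measurable).comp measurable_fst).mul
      ((hF.comp hπ.measurable).comp measurable_snd)
  have h1 := (act_prod hΨ').mean_sq 1 hF2'
  have h2 := (act_prod hΨ).mean_sq 1 hF2
  have hit : ∀ (n : ℕ) (x : X'), π (Ψ' (n : ℤ) x) = Ψ (n : ℤ) (π x) := by
    intro n
    induction n with
    | zero =>
      intro x
      rw [Nat.cast_zero, hΨ'.zero_apply, hΨ.zero_apply]
    | succ n ih =>
      intro x
      rw [Nat.cast_succ, hΨ'.add_apply, hΨ.add_apply, ih, hcom]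
  have hp : MeasurePreserving (Prod.map π π) (μ'.prod μ') (μ.prod μ) := hπ.prod hπ
  unfold EnP
  refine tendsto_nhds_unique h1 (h2.congr fun S => ?_)
  have hm : Measurable (fun z : X × X =>
      ((S : ℝ)⁻¹ * ∑ s ∈ Finset.range S,
        F (D2 Ψ (s • (1 : ℤ)) z).1 * F (D2 Ψ (s • (1 : ℤ)) z).2) ^ 2) := by
    refine Measurable.pow_const (Measurable.const_mul ?_ _) 2
    exact Finset.measurable_fun_sum _ fun s _ => hF2.1.comp ((act_prod hΨ).measurable _)
  rw [← hp.map_eq, integral_map hp.measurable.aemeasurable hm.aestronglyMeasurable]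
  refine integral_congr_ae (Eventually.of_forall fun z => ?_)
  simp only [D2_apply, Prod.map_fst, Prod.map_snd, nsmul_eq_mul, mul_one, hit]

end Pool.Agent.H80E.EFAC
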