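import Pool.Agent.H80E.Stm

/-!
Project E3: stub ENP, energies on the base and on the extension.
-/

set_option autoImplicit false

open Filter Topology MeasureTheory ProbabilityTheory
open scoped ENNReal

noncomputable section

namespace Pool.Agent.H80E.ENP

open Pool.Agent.Y311.UB Pool.Agent.Y311.CX Pool.Agent.H80GE Pool.Agent.H80IE Pool.Agent.H80C Pool.Agent.H80E

theorem version {Z : Type} {m mZ : MeasurableSpace Z} (hm : m ≤ mZ) {ν : Measure Z}
    [IsProbabilityMeasure ν] {F : Z → ℝ} (hF : Measurable F) {D : ℝ} (hD0 : 0 ≤ D)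
    (hFD : ∀ z, |F z| ≤ D) :
    ∃ H : Z → ℝ, Measurable[m] H ∧ (∀ z, |H z| ≤ D) ∧
      ∫ z, (ν[F | m]) z ^ 2 ∂ν = ∫ z, F z * H z ∂ν ∧
      ∫ z, (ν[F | m]) z ^ 2 ∂ν = ∫ z, H z ^ 2 ∂ν := by
  have hFB : BMr F := ⟨hF, D, hFD⟩
  have hEm : Measurable[m] (ν[F | m]) := stronglyMeasurable_condExp.measurable
  have hEb : ∀ᵐ z ∂ν, |(ν[F | m]) z| ≤ D :=
    ae_bdd_abs_condExp_of_ae_bdd_abs (m := m) (R := D) (Eventually.of_forall hFD)
  have hHm : Measurable[m] fun z => max (-D) (min D ((ν[F | m]) z)) :=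
    (@measurable_const _ _ _ m (-D)).max ((@measurable_const _ _ _ m D).min hEm)
  have hH1 : ∀ z, |max (-D) (min D ((ν[F | m]) z))| ≤ D := by
    intro z
    rw [abs_le]
    exact ⟨le_max_left _ _, max_le (by linarith) (min_le_left _ _)⟩
  refine ⟨fun z => max (-D) (min D ((ν[F | m]) z)), hHm, hH1, ?_⟩
  set H : Z → ℝ := fun z => max (-D) (min D ((ν[F | m]) z)) with hH
  have hHB : BMr H := ⟨hHm.mono hm le_rfl, D, hH1⟩
  have hEH : ν[F | m] =ᵐ[ν] H := by
    filter_upwards [hEb] with z hz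
    rw [abs_le] at hz
    rw [hH]
    simp only
    rw [min_eq_right hz.2, max_eq_right hz.1]
  constructor
  · have h4 : Integrable (F * H) ν := by
      have := (hFB.mul hHB).integrable (μ := ν)
      exact this
    have h5 : ν[F * H | m] =ᵐ[ν] ν[F | m] * H :=
      condExp_mul_of_stronglyMeasurable_right hHm.stronglyMeasurable h4 hFB.integrable
    have h6 := integral_condExp (μ := ν) hm (f := F * H)
    have h7 : ∫ z, F z * H z ∂ν = ∫ z, (F * H) z ∂ν := rfl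
    rw [h7, ← h6]
    refine integral_congr_ae ?_
    filter_upwards [h5, hEH] with z hz1 hz2
    rw [hz1, Pi.mul_apply, sq]
    congr 1
  · refine integral_congr_ae ?_
    filter_upwards [hEH] with z hz
    rw [hz]

theorem fub {Y K : Type} [MeasurableSpace Y] [MeasurableSpace K] {μ : Measure Y} [IsProbabilityMeasure μ]
    {ρ : Measure K} [IsProbabilityMeasure ρ] {F : Y × K → ℝ} (hF : BMr F) {g : Y → ℝ} (hg : BMr g) :
    ∫ x, F x * g x.1 ∂(μ.prod ρ) = ∫ y, (∫ κ, F (y, κ) ∂ρ) * g y ∂μ := by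
  rw [integral_prod (fun x : Y × K => F x * g x.1) ((hF.mul (hg.comp measurable_fst)).integrable)]
  refine integral_congr_ae (Eventually.of_forall fun y => ?_)
  simp only
  rw [integral_mul_const]

theorem bmr_int {Y K : Type} [MeasurableSpace Y] [MeasurableSpace K] {ρ : Measure K} [IsProbabilityMeasure ρ]
    {F : Y × K → ℝ} (hF : BMr F) : BMr fun y => ∫ κ, F (y, κ) ∂ρ := by
  obtain ⟨hFm, C, hC⟩ := hF
  refine ⟨(hFm.stronglyMeasurable.integral_prod_right' (ν := ρ)).measurable, C, fun y => ?_⟩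
  have h1 := norm_integral_le_of_norm_le_const (μ := ρ) (f := fun κ => F (y, κ)) (C := C)
    (Eventually.of_forall fun κ => hC _)
  rw [← Real.norm_eq_abs]
  simpa using h1

theorem mp_int {X Z : Type} [MeasurableSpace X] [MeasurableSpace Z] {μ : Measure X} {ν : Measure Z} {π : X → Z}
    (hπ : MeasurePreserving π μ ν) {f : Z → ℝ} (hf : Measurable f) : ∫ x, f (π x) ∂μ = ∫ z, f z ∂ν := by
  rw [← hπ.map_eq, integral_map hπ.measurable.aemeasurable hf.aestronglyMeasurable]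

theorem t (h : LEMI) : ENP := by
  intro Y K _ _ μ _ ρ _ Φ Θ Ψ hΦ hΘ hΨ hcom herg hfac F hF
  obtain ⟨C, hC, hC1⟩ : ∃ C : ℝ, 0 ≤ C ∧ ∀ z, |F z| ≤ C := by
    obtain ⟨-, C0, hC0⟩ := hF
    exact ⟨|C0|, abs_nonneg _, fun z => (hC0 z).trans (le_abs_self _)⟩
  have hψB : BMr fun y => ∫ κ, F (y, κ) ∂ρ := bmr_int hF
  have hψb : ∀ y, |∫ κ, F (y, κ) ∂ρ| ≤ C := by
    intro y
    have h1 := norm_integral_le_of_norm_le_const (μ := ρ) (f := fun κ => F (y, κ)) (C := C)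
      (Eventually.of_forall fun κ => hC1 _)
    rw [← Real.norm_eq_abs]
    simpa using h1
  obtain ⟨ψ, hψ⟩ : ∃ ψ : Y → ℝ, ψ = fun y => ∫ κ, F (y, κ) ∂ρ := ⟨_, rfl⟩
  rw [← hψ] at hψB ⊢
  have hψb' : ∀ y, |ψ y| ≤ C := fun y => by rw [hψ]; exact hψb y
  have hVB : BMr fun z : Y × Y => ψ z.1 * ψ z.2 := (hψB.comp measurable_fst).mul (hψB.comp measurable_snd)
  have hVD : ∀ z : Y × Y, |ψ z.1 * ψ z.2| ≤ C * C := fun z => by
    rw [abs_mul]
    exact mul_le_mul (hψb' _) (hψb' _) (abs_nonneg _) hC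
  have hP := act_prod hΦ
  have hQ := act_prod hΨ
  obtain ⟨k, hkm, hkb, hkI, hkE⟩ := version (inv_le (D2 Φ) 1) (ν := μ.prod μ) hVB.1 (mul_nonneg hC hC) hVD
  have hkB : BMr k := ⟨hkm.mono (inv_le _ _) le_rfl, C * C, hkb⟩
  have hinv : ∀ z, k (D2 Φ 1 z) = k z := fun z => hP.inv_apply hkm z
  have hL := h Y μ Φ Θ hΦ hΘ hcom herg k hkB hinv
  have hπ : MeasurePreserving (Prod.map Prod.fst Prod.fst : (Y × K) × (Y × K) → Y × Y)
      ((μ.prod ρ).prod (μ.prod ρ)) (μ.prod μ) := measurePreserving_fst.prod measurePreserving_fst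
  obtain ⟨G, hGd⟩ : ∃ G : (Y × K) × (Y × K) → ℝ, G = fun z => k (z.1.1, z.2.1) := ⟨_, rfl⟩
  have hGB : BMr G := by
    rw [hGd]
    exact hkB.comp ((measurable_fst.comp measurable_fst).prodMk (measurable_fst.comp measurable_snd))
  have hG1 : (fun z => G (D2 Ψ 1 z)) =ᵐ[(μ.prod ρ).prod (μ.prod ρ)] G := by
    filter_upwards [hπ.quasiMeasurePreserving.ae hL] with z hz
    rw [hGd]
    simp only
    rw [D2_apply] at hz ⊢
    simp only [hfac]
    exact hz
  have hGn : ∀ n : ℕ, (fun z => G (D2 Ψ ((n : ℕ) • (1 : ℤ)) z)) =ᵐ[(μ.prod ρ).prod (μ.prod ρ)] G := by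
    intro n
    induction n with
    | zero =>
      refine Eventually.of_forall fun z => ?_
      simp only
      rw [zero_nsmul, hQ.zero_apply]
    | succ n ih =>
      have h1 := (hQ.mp 1).quasiMeasurePreserving.ae_eq_comp ih
      filter_upwards [h1, hG1] with z hz1 hz2
      simp only [Function.comp_apply] at hz1
      rw [succ_nsmul, hQ.add_apply, hz1]
      exact hz2
  obtain ⟨W, hWd⟩ : ∃ W : (Y × K) × (Y × K) → ℝ, W = fun z => F z.1 * F z.2 := ⟨_, rfl⟩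
  have hWB : BMr W := by
    rw [hWd]
    exact (hF.comp measurable_fst).mul (hF.comp measurable_snd)
  have hWn : ∀ n : ℕ, ∫ z, W (D2 Ψ ((n : ℕ) • (1 : ℤ)) z) * G z ∂((μ.prod ρ).prod (μ.prod ρ)) =
      ∫ z, W z * G z ∂((μ.prod ρ).prod (μ.prod ρ)) := by
    intro n
    rw [← mp_int (hQ.mp ((n : ℕ) • (1 : ℤ))) (hWB.mul hGB).1]
    refine integral_congr_ae ?_
    filter_upwards [hGn n] with z hz
    rw [hz]
  -- Fubini
  have hWG : ∫ z, W z * G z ∂((μ.prod ρ).prod (μ.prod ρ)) = ∫ z, ψ z.1 * ψ z.2 * k z ∂(μ.prod μ) := by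
    rw [integral_prod _ ((hWB.mul hGB).integrable), integral_prod _ ((hVB.mul hkB).integrable)]
    have hg2 : BMr fun y => ∫ y', ψ y' * k (y, y') ∂μ :=
      bmr_int (F := fun z : Y × Y => ψ z.2 * k z) ((hψB.comp measurable_snd).mul hkB)
    have h1 : ∀ x : Y × K, ∫ x', W (x, x') * G (x, x') ∂(μ.prod ρ) = F x * ∫ y', ψ y' * k (x.1, y') ∂μ := by
      intro x
      have h2 := fub (μ := μ) (ρ := ρ) hF (g := fun y' => k (x.1, y')) (hkB.comp measurable_prodMk_left)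
      have h3 : ∫ y', ψ y' * k (x.1, y') ∂μ = ∫ x', F x' * k (x.1, x'.1) ∂(μ.prod ρ) := by
        rw [h2, hψ]
      rw [h3, ← integral_const_mul]
      refine integral_congr_ae (Eventually.of_forall fun x' => ?_)
      simp only [hWd, hGd]
      ring
    simp only [h1]
    have h4 : ∀ y, ∫ κ, F (y, κ) ∂ρ = ψ y := fun y => by rw [hψ]
    rw [fub hF hg2]
    simp only [h4]
    refine integral_congr_ae (Eventually.of_forall fun y => ?_)
    simp only
    rw [← integral_const_mul]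
    refine integral_congr_ae (Eventually.of_forall fun y' => ?_)
    simp only
    ring
  have hG2 : ∫ z, G z ^ 2 ∂((μ.prod ρ).prod (μ.prod ρ)) = ∫ z, k z ^ 2 ∂(μ.prod μ) := by
    rw [← mp_int hπ (hkB.1.pow_const 2)]
    refine integral_congr_ae (Eventually.of_forall fun z => ?_)
    simp only [hGd]
    rfl
  have hE : EnP μ Φ ψ = ∫ z, k z ^ 2 ∂(μ.prod μ) := hkE
  have hE2 : EnP μ Φ ψ = ∫ z, W z * G z ∂((μ.prod ρ).prod (μ.prod ρ)) := by
    rw [hWG]
    exact hkI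
  have hlim := hQ.mean_sq (1 : ℤ) hWB
  have hE' : EnP (μ.prod ρ) Ψ F = ∫ z, (((μ.prod ρ).prod (μ.prod ρ))[W | inv (D2 Ψ) 1]) z ^ 2
      ∂((μ.prod ρ).prod (μ.prod ρ)) := by
    rw [hWd]
    rfl
  rw [hE']
  refine ge_of_tendsto hlim ?_
  filter_upwards [eventually_ge_atTop 1] with S hS
  have hS0 : (0 : ℝ) < S := by exact_mod_cast hS
  obtain ⟨A, hAd⟩ : ∃ A : (Y × K) × (Y × K) → ℝ,
      A = fun z => (S : ℝ)⁻¹ * ∑ s ∈ Finset.range S, W (D2 Ψ ((s : ℕ) • (1 : ℤ)) z) := ⟨_, rfl⟩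
  have hAB : BMr A := by
    obtain ⟨hWm, D, hD⟩ := hWB
    rw [hAd]
    refine ⟨(Finset.measurable_fun_sum _ fun s _ => hWm.comp (hQ.measurable _)).const_mul _, |D|, fun z => ?_⟩
    exact abs_avg_le (abs_nonneg _) (fun s => (hD _).trans (le_abs_self _)) S
  have hAG : ∫ z, A z * G z ∂((μ.prod ρ).prod (μ.prod ρ)) = EnP μ Φ ψ := by
    have h1 : (fun z => A z * G z) = fun z => (S : ℝ)⁻¹ * ∑ s ∈ Finset.range S,
        W (D2 Ψ ((s : ℕ) • (1 : ℤ)) z) * G z := by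
      funext z
      rw [hAd]
      simp only
      rw [mul_assoc, Finset.sum_mul]
    rw [h1, integral_const_mul, integral_finsetSum]
    · simp only [hWn]
      rw [Finset.sum_const, Finset.card_range, nsmul_eq_mul, ← mul_assoc, inv_mul_cancel₀ hS0.ne', one_mul, hE2]
    · intro s _
      exact ((hWB.comp (hQ.measurable _)).mul hGB).integrable
  have hA2 : Integrable (fun z => A z ^ 2) ((μ.prod ρ).prod (μ.prod ρ)) := by
    have h1 := (hAB.mul hAB).integrable (μ := (μ.prod ρ).prod (μ.prod ρ))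
    refine h1.congr (Eventually.of_forall fun z => ?_)
    simp only
    ring
  have hGI : Integrable (fun z => G z ^ 2) ((μ.prod ρ).prod (μ.prod ρ)) := by
    have h1 := (hGB.mul hGB).integrable (μ := (μ.prod ρ).prod (μ.prod ρ))
    refine h1.congr (Eventually.of_forall fun z => ?_)
    simp only
    ring
  have h1 : ∫ z, 2 * (A z * G z) ∂((μ.prod ρ).prod (μ.prod ρ)) ≤
      ∫ z, (A z ^ 2 + G z ^ 2) ∂((μ.prod ρ).prod (μ.prod ρ)) := by
    refine integral_mono (((hAB.mul hGB).integrable).const_mul 2) (hA2.add hGI) fun z => ?_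
    have := sq_nonneg (A z - G z)
    simp only
    nlinarith
  rw [integral_const_mul, hAG, integral_add hA2 hGI, hG2, ← hE] at h1
  have h2 : ∫ z, A z ^ 2 ∂((μ.prod ρ).prod (μ.prod ρ)) = ∫ z, ((S : ℝ)⁻¹ * ∑ s ∈ Finset.range S,
      W (D2 Ψ ((s : ℕ) • (1 : ℤ)) z)) ^ 2 ∂((μ.prod ρ).prod (μ.prod ρ)) := by
    rw [hAd]
  rw [h2] at h1
  linarith

end Pool.Agent.H80E.ENP
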