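import Pool.Agent.H80E.Stm

/-!
Project E3, stub EOP: zero energy on the square of the product.
-/

set_option autoImplicit false

open Filter Topology MeasureTheory ProbabilityTheory
open scoped ENNReal ProbabilityTheory

namespace Pool.Agent.H80E.EOP

open Pool.Agent.Y311.UB Pool.Agent.Y311.CX Pool.Agent.H80GE Pool.Agent.H80IE Pool.Agent.H80C

theorem t (hK : Pool.Agent.H80E.KAP) : Pool.Agent.H80E.EOP := by
  intro X _ _ μ _ Φ Ψ hΦ hΨ hc hE w hw horth
  have h2 : Act (μ.prod μ) (D2 Ψ) := act_prod hΨ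
  have hW : BMr (fun z : X × X => w z.1 * w z.2) := (hw.comp measurable_fst).mul (hw.comp measurable_snd)
  have hW' := hW
  obtain ⟨hWm, C, hC⟩ := hW
  have hC' : ∀ z : X × X, |w z.1 * w z.2| ≤ |C| := fun z => (hC z).trans (le_abs_self _)
  refine energy_zero (w := (1 : ℤ)) h2 hWm (abs_nonneg C) hC' ?_
  intro k hk
  have h4 := horth _ (hK X μ Φ Ψ hΦ hΨ hc hE k hk w hw)
  rw [← h4]
  obtain ⟨hKm, D, hD⟩ := hW'.mul hk.1
  have hint : Integrable (fun z : X × X => w z.1 * w z.2 * k z) (μ.prod μ) :=
    Integrable.of_bound hKm.aestronglyMeasurable D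
      (Eventually.of_forall fun x => by rw [Real.norm_eq_abs]; exact hD x)
  rw [integral_prod _ hint]
  refine integral_congr_ae (Eventually.of_forall fun x => ?_)
  simp only
  rw [← integral_const_mul]
  refine integral_congr_ae (Eventually.of_forall fun y => ?_)
  simp only
  ring

end Pool.Agent.H80E.EOP
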