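import Pool.Agent.H80E.Stm

/-!
Project E3, stub KAP: kernel operators of almost periodic kernels on the product.
-/

set_option autoImplicit false

open Filter Topology MeasureTheory ProbabilityTheory
open scoped ENNReal ProbabilityTheory

namespace Pool.Agent.H80E.KAP

open Pool.Agent.Y311.UB Pool.Agent.Y311.CX Pool.Agent.H80GE Pool.Agent.H80IE Pool.Agent.H80C

theorem bmr_int {X : Type} [MeasurableSpace X] {μ : Measure X} [IsProbabilityMeasure μ] {u : X × X → ℝ} (hu : BMr u) :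
    BMr (fun x => ∫ y, u (x, y) ∂μ) := by
  obtain ⟨hum, C, hC⟩ := hu
  refine ⟨(hum.stronglyMeasurable.integral_prod_right' (ν := μ)).measurable, C, fun x => ?_⟩
  have h1 := norm_integral_le_of_norm_le_const (μ := μ) (f := fun y => u (x, y)) (C := C)
    (Eventually.of_forall fun y => by rw [Real.norm_eq_abs]; exact hC _)
  rw [Real.norm_eq_abs] at h1
  simpa using h1

theorem fav {X : Type} [MeasurableSpace X] {μ : Measure X} [IsProbabilityMeasure μ] {Φ : ℤ → Equiv.Perm X}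
    (h : Act μ Φ) (hE : Ergodic (Φ 1) μ) {u : X × X → ℝ} (hu : BMr u) :
    Tendsto (fun H : ℕ => ∫ z, |(H : ℝ)⁻¹ * ∑ s ∈ Finset.range H, u (z.1, Φ (s : ℤ) z.2) - ∫ y, u (z.1, y) ∂μ|
      ∂(μ.prod μ)) atTop (𝓝 0) := by
  set L : X → ℝ := fun x => ∫ y, u (x, y) ∂μ with hL
  have hLB : BMr L := bmr_int hu
  have hterm : ∀ s : ℕ, BMr fun z : X × X => u (z.1, Φ (s : ℤ) z.2) := fun s =>
    hu.comp (measurable_fst.prodMk ((h.measurable _).comp measurable_snd))
  obtain ⟨hum, C, hC⟩ := hu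
  have hC' : ∀ z, |u z| ≤ |C| := fun z => (hC z).trans (le_abs_self _)
  set A : ℕ → X × X → ℝ := fun H z => (H : ℝ)⁻¹ * ∑ s ∈ Finset.range H, u (z.1, Φ (s : ℤ) z.2) with hA
  have hAm : ∀ H, Measurable (A H) := fun H =>
    (Finset.measurable_fun_sum _ fun s _ => (hterm s).1).const_mul _
  have hAb : ∀ H z, |A H z| ≤ |C| := fun H z =>
    abs_avg_le (f := fun s : ℕ => u (z.1, Φ (s : ℤ) z.2)) (abs_nonneg _) (fun s => hC' _) H
  have hconv : ∀ᵐ z ∂(μ.prod μ), Tendsto (fun H : ℕ => A H z - L z.1) atTop (𝓝 0) := by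
    refine (Measure.ae_prod_iff_ae_ae ?_).2 ?_
    · exact measurableSet_tendsto (𝓝 (0 : ℝ)) fun H => (hAm H).sub (hLB.1.comp measurable_fst)
    · refine Eventually.of_forall fun x => ?_
      have h2 := erg_real hE (fun y => u (x, y)) (hum.comp measurable_prodMk_left) |C| (fun y => hC' _)
      filter_upwards [h2] with y hy
      have h3 : Tendsto (fun H : ℕ => A H (x, y)) atTop (𝓝 (L x)) := by
        refine hy.congr fun n => ?_
        simp only [hA, h.iterate]
        simp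
      have h4 := h3.sub_const (L x)
      rwa [sub_self] at h4
  have h0 : (0 : ℝ) = ∫ _z, (0 : ℝ) ∂(μ.prod μ) := by simp
  rw [h0]
  obtain ⟨hLm, D, hD⟩ := hLB
  refine tendsto_integral_of_dominated_convergence (fun _ => |C| + D) ?_ (integrable_const _) ?_ ?_
  · intro H
    exact ((hAm H).sub (hLm.comp measurable_fst)).abs.aestronglyMeasurable
  · intro H
    refine Eventually.of_forall fun z => ?_
    rw [Real.norm_eq_abs, abs_abs]
    exact (abs_sub _ _).trans (add_le_add (hAb H z) (hD z.1))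
  · filter_upwards [hconv] with z hz
    have := hz.abs
    rwa [abs_zero] at this

theorem t : Pool.Agent.H80E.KAP := by
  intro X _ μ _ Φ Ψ hΦ hΨ hc hE k hk w hw
  have hu : BMr (fun z : X × X => k z * w z.2) := hk.1.mul (hw.comp measurable_snd)
  have hKB : BMr (fun x => ∫ y, k (x, y) * w y ∂μ) := bmr_int hu
  refine ⟨hKB, hKB.comp measurable_fst, fun ε hε => ?_⟩
  have h1 := fav hΦ hE hu
  obtain ⟨H, hH⟩ := ((tendsto_order.1 h1).2 ε hε).exists
  refine ⟨fun z => (H : ℝ)⁻¹ * ∑ n ∈ Finset.range H, k (z.1, Φ (n : ℤ) z.2) * w (Φ (n : ℤ) z.2), ?_, ?_⟩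
  · refine (QS.sum' (fun n => ?_) H).smul' _
    refine QS.base (fun z : X × X => k (z.1, Φ (n : ℤ) z.2)) (fun y => w (Φ (n : ℤ) y)) ⟨?_, ?_⟩
      (hw.comp (hΦ.measurable _))
    · exact hk.1.comp (measurable_fst.prodMk ((hΦ.measurable _).comp measurable_snd))
    · have hmp : MeasurePreserving (Prod.map id (Φ (n : ℤ))) (μ.prod μ) (μ.prod μ) :=
        (MeasurePreserving.id μ).prod (hΦ.mp _)
      have h2 := hmp.quasiMeasurePreserving.ae hk.2
      filter_upwards [h2] with z hz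
      have h3 : (fun m : ℤ => ((k ((D2 Ψ (m • (1 : ℤ)) z).1, Φ (n : ℤ) (D2 Ψ (m • (1 : ℤ)) z).2) : ℝ) : ℂ)) =
          fun m : ℤ => ((k (D2 Ψ (m • (1 : ℤ)) (Prod.map id (Φ (n : ℤ)) z)) : ℝ) : ℂ) := by
        funext m
        rw [D2_apply, D2_apply]
        simp only [Prod.map_fst, Prod.map_snd, id_eq, smul_eq_mul, mul_one]
        rw [hc]
      rw [h3]
      exact hz
  · refine le_trans (le_of_eq ?_) hH.le
    refine integral_congr_ae (Eventually.of_forall fun z => ?_)
    simp only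
    rw [abs_sub_comm]

end Pool.Agent.H80E.KAP
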