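import Pool.Agent.H80E.Stm

/-!
# Project E3, stub LEMI (helper21): invariant kernels
-/

set_option autoImplicit false

open Filter Topology MeasureTheory Finset
open scoped ENNReal ComplexConjugate InnerProductSpace

namespace Pool.Agent.H80E.LEMI

open Pool.Agent.Y311.UB Pool.Agent.H80GE Pool.Agent.H80IE Pool.Agent.H80C

variable {X : Type} [MeasurableSpace X] {μ : Measure X} [IsProbabilityMeasure μ]

/-- the bilinear form of the kernel -/
noncomputable def Bf (μ : Measure X) (k : X × X → ℝ) (f g : X → ℂ) : ℂ :=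
  ∫ z, (k z : ℂ) * (f z.1 * g z.2) ∂(μ.prod μ)

omit [IsProbabilityMeasure μ] in
lemma fst_ae {f f' : X → ℂ} (h : f =ᵐ[μ] f') : ∀ᵐ z : X × X ∂(μ.prod μ), f z.1 = f' z.1 :=
  (Measure.quasiMeasurePreserving_fst (μ := μ) (ν := μ)).ae h

lemma snd_ae {f f' : X → ℂ} (h : f =ᵐ[μ] f') : ∀ᵐ z : X × X ∂(μ.prod μ), f z.2 = f' z.2 :=
  (Measure.quasiMeasurePreserving_snd (μ := μ) (ν := μ)).ae h

lemma Bf_congr {k : X × X → ℝ} {f f' g g' : X → ℂ} (h1 : f =ᵐ[μ] f') (h2 : g =ᵐ[μ] g') :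
    Bf μ k f g = Bf μ k f' g' := by
  unfold Bf
  refine integral_congr_ae ?_
  filter_upwards [fst_ae h1, snd_ae h2] with z hz1 hz2
  rw [hz1, hz2]

lemma prod_memLp {f g : X → ℂ} (hf : MemLp f 2 μ) (hg : MemLp g 2 μ) :
    MemLp (fun z : X × X => f z.1 * g z.2) 2 (μ.prod μ) := by
  have h1 : AEStronglyMeasurable (fun z : X × X => f z.1 * g z.2) (μ.prod μ) :=
    hf.1.comp_fst.mul hg.1.comp_snd
  rw [memLp_two_iff_integrable_sq_norm h1]
  have h2 : Integrable (fun x => ‖f x‖ ^ 2) μ := (memLp_two_iff_integrable_sq_norm hf.1).1 hf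
  have h3 : Integrable (fun x => ‖g x‖ ^ 2) μ := (memLp_two_iff_integrable_sq_norm hg.1).1 hg
  have h4 := h2.mul_prod h3
  refine h4.congr (Eventually.of_forall fun z => ?_)
  simp only
  rw [norm_mul, mul_pow]

lemma Bint {k : X × X → ℝ} (hk : Measurable k) {C : ℝ} (hC : ∀ z, |k z| ≤ C) {S : X × X → ℂ}
    (hS : Integrable S (μ.prod μ)) : Integrable (fun z => (k z : ℂ) * S z) (μ.prod μ) := by
  refine hS.bdd_mul (c := C) (Complex.measurable_ofReal.comp hk).aestronglyMeasurable ?_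
  refine Eventually.of_forall fun z => ?_
  rw [Complex.norm_real, Real.norm_eq_abs]
  exact hC z

lemma Fint {f g : X → ℂ} (hf : MemLp f 2 μ) (hg : MemLp g 2 μ) :
    Integrable (fun z : X × X => f z.1 * g z.2) (μ.prod μ) :=
  (prod_memLp hf hg).integrable one_le_two

lemma inner_eq (f g : Lp ℂ 2 μ) : ⟪f, g⟫_ℂ = ∫ x, (g : X → ℂ) x * conj ((f : X → ℂ) x) ∂μ := by
  rw [L2.inner_def]
  refine integral_congr_ae (Eventually.of_forall fun x => ?_)
  simp [RCLike.inner_apply]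

lemma sq_int_le {Z : Type} [MeasurableSpace Z] {ν : Measure Z} [IsProbabilityMeasure ν] {F : Z → ℝ}
    (hF : Integrable F ν) (hF2 : Integrable (fun z => F z ^ 2) ν) :
    (∫ z, F z ∂ν) ^ 2 ≤ ∫ z, F z ^ 2 ∂ν := by
  obtain ⟨m, hm⟩ : ∃ m, m = ∫ z, F z ∂ν := ⟨_, rfl⟩
  have h0 : 0 ≤ ∫ z, (F z - m) ^ 2 ∂ν := integral_nonneg fun z => sq_nonneg _
  have e : ∀ z, (F z - m) ^ 2 = F z ^ 2 - 2 * m * F z + m ^ 2 := fun z => by ring
  simp_rw [e] at h0
  have e2 : ∫ z, (F z ^ 2 - 2 * m * F z + m ^ 2) ∂ν = ∫ z, F z ^ 2 ∂ν - 2 * m * ∫ z, F z ∂ν + m ^ 2 := by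
    have a1 : Integrable (fun z => F z ^ 2 - 2 * m * F z) ν := hF2.sub (hF.const_mul _)
    rw [integral_add a1 (integrable_const _), integral_sub hF2 (hF.const_mul _), integral_const_mul,
      integral_const]
    simp
  rw [e2] at h0
  rw [← hm] at h0 ⊢
  nlinarith

/-- the fundamental estimate -/
lemma key {k : X × X → ℝ} (hk : Measurable k) {C : ℝ} (hC : ∀ z, |k z| ≤ C) (N : ℕ) (a b : ℕ → Lp ℂ 2 μ) :
    ‖∑ n ∈ range N, Bf μ k (a n) (b n)‖ ^ 2 ≤
      C ^ 2 * ∑ n ∈ range N, ∑ m ∈ range N, ‖⟪a m, a n⟫_ℂ‖ * ‖⟪b m, b n⟫_ℂ‖ := by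
  have hC0 : 0 ≤ C := by
    obtain ⟨z⟩ : Nonempty (X × X) := (μ.prod μ).nonempty_of_neZero
    exact (abs_nonneg _).trans (hC z)
  obtain ⟨S, hS⟩ : ∃ S : X × X → ℂ, S = fun z => ∑ n ∈ range N, (a n : X → ℂ) z.1 * (b n : X → ℂ) z.2 := ⟨_, rfl⟩
  have hSL : MemLp S 2 (μ.prod μ) := by
    rw [hS]
    exact memLp_finsetSum _ fun n _ => prod_memLp (Lp.memLp _) (Lp.memLp _)
  have hSi : Integrable S (μ.prod μ) := hSL.integrable one_le_two
  have hS2 : Integrable (fun z => ‖S z‖ ^ 2) (μ.prod μ) := (memLp_two_iff_integrable_sq_norm hSL.1).1 hSL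
  have h1 : ∑ n ∈ range N, Bf μ k (a n) (b n) = ∫ z, (k z : ℂ) * S z ∂(μ.prod μ) := by
    unfold Bf
    rw [← integral_finsetSum _ fun n _ => Bint hk hC (Fint (Lp.memLp _) (Lp.memLp _))]
    refine integral_congr_ae (Eventually.of_forall fun z => ?_)
    simp only [hS]
    rw [Finset.mul_sum]
  have h2 : ‖∫ z, (k z : ℂ) * S z ∂(μ.prod μ)‖ ≤ C * ∫ z, ‖S z‖ ∂(μ.prod μ) := by
    refine (norm_integral_le_integral_norm _).trans ?_
    rw [← integral_const_mul]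
    refine integral_mono (Bint hk hC hSi).norm (hSi.norm.const_mul C) fun z => ?_
    simp only
    rw [norm_mul, Complex.norm_real, Real.norm_eq_abs]
    exact mul_le_mul_of_nonneg_right (hC z) (norm_nonneg _)
  have h3 : (∫ z, ‖S z‖ ∂(μ.prod μ)) ^ 2 ≤ ∫ z, ‖S z‖ ^ 2 ∂(μ.prod μ) := sq_int_le hSi.norm hS2
  have hin : ∀ f g : Lp ℂ 2 μ, Integrable (fun x => (g : X → ℂ) x * conj ((f : X → ℂ) x)) μ := by
    intro f g
    have := L2.integrable_inner (𝕜 := ℂ) f g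
    refine this.congr (Eventually.of_forall fun x => ?_)
    simp [RCLike.inner_apply]
  have h4 : ((∫ z, ‖S z‖ ^ 2 ∂(μ.prod μ) : ℝ) : ℂ) =
      ∑ n ∈ range N, ∑ m ∈ range N, ⟪a m, a n⟫_ℂ * ⟪b m, b n⟫_ℂ := by
    rw [← integral_complex_ofReal]
    have e1 : ∀ z, ((‖S z‖ ^ 2 : ℝ) : ℂ) = ∑ n ∈ range N, ∑ m ∈ range N,
        ((a n : X → ℂ) z.1 * conj ((a m : X → ℂ) z.1)) * ((b n : X → ℂ) z.2 * conj ((b m : X → ℂ) z.2)) := by
      intro z
      have : ((‖S z‖ ^ 2 : ℝ) : ℂ) = S z * conj (S z) := by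
        rw [Complex.mul_conj, Complex.normSq_eq_norm_sq]
      rw [this, hS]
      simp only
      rw [map_sum, Finset.sum_mul]
      refine Finset.sum_congr rfl fun n _ => ?_
      rw [Finset.mul_sum]
      refine Finset.sum_congr rfl fun m _ => ?_
      rw [map_mul]
      ring
    simp_rw [e1]
    rw [integral_finsetSum _ fun n _ => integrable_finsetSum _ fun m _ => (hin (a m) (a n)).mul_prod (hin (b m) (b n))]
    refine Finset.sum_congr rfl fun n _ => ?_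
    rw [integral_finsetSum _ fun m _ => (hin (a m) (a n)).mul_prod (hin (b m) (b n))]
    refine Finset.sum_congr rfl fun m _ => ?_
    rw [integral_prod_mul (μ := μ) (ν := μ) (fun x => (a n : X → ℂ) x * conj ((a m : X → ℂ) x))
      (fun y => (b n : X → ℂ) y * conj ((b m : X → ℂ) y)), inner_eq, inner_eq]
  have h5 : ∫ z, ‖S z‖ ^ 2 ∂(μ.prod μ) ≤ ∑ n ∈ range N, ∑ m ∈ range N, ‖⟪a m, a n⟫_ℂ‖ * ‖⟪b m, b n⟫_ℂ‖ := by
    have h6 : ‖((∫ z, ‖S z‖ ^ 2 ∂(μ.prod μ) : ℝ) : ℂ)‖ = ∫ z, ‖S z‖ ^ 2 ∂(μ.prod μ) := by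
      rw [Complex.norm_real, Real.norm_eq_abs, abs_of_nonneg]
      exact integral_nonneg fun z => sq_nonneg _
    rw [← h6, h4]
    refine (norm_sum_le _ _).trans (Finset.sum_le_sum fun n _ => ?_)
    refine (norm_sum_le _ _).trans (Finset.sum_le_sum fun m _ => ?_)
    rw [norm_mul]
  rw [h1]
  calc ‖∫ z, (k z : ℂ) * S z ∂(μ.prod μ)‖ ^ 2 ≤ (C * ∫ z, ‖S z‖ ∂(μ.prod μ)) ^ 2 :=
        pow_le_pow_left₀ (norm_nonneg _) h2 2
    _ = C ^ 2 * (∫ z, ‖S z‖ ∂(μ.prod μ)) ^ 2 := by ring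
    _ ≤ _ := mul_le_mul_of_nonneg_left (h3.trans h5) (sq_nonneg C)

lemma Bf_add_left {k : X × X → ℝ} (hk : Measurable k) {C : ℝ} (hC : ∀ z, |k z| ≤ C) (f f' g : Lp ℂ 2 μ) :
    Bf μ k ((f + f' : Lp ℂ 2 μ)) g = Bf μ k f g + Bf μ k f' g := by
  rw [Bf_congr (Lp.coeFn_add f f') (EventuallyEq.refl _ _)]
  unfold Bf
  rw [← integral_add (Bint hk hC (Fint (Lp.memLp f) (Lp.memLp g))) (Bint hk hC (Fint (Lp.memLp f') (Lp.memLp g)))]
  refine integral_congr_ae (Eventually.of_forall fun z => ?_)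
  simp only [Pi.add_apply]
  ring

lemma Bf_add_right {k : X × X → ℝ} (hk : Measurable k) {C : ℝ} (hC : ∀ z, |k z| ≤ C) (f g g' : Lp ℂ 2 μ) :
    Bf μ k f ((g + g' : Lp ℂ 2 μ)) = Bf μ k f g + Bf μ k f g' := by
  rw [Bf_congr (EventuallyEq.refl _ _) (Lp.coeFn_add g g')]
  unfold Bf
  rw [← integral_add (Bint hk hC (Fint (Lp.memLp f) (Lp.memLp g))) (Bint hk hC (Fint (Lp.memLp f) (Lp.memLp g')))]
  refine integral_congr_ae (Eventually.of_forall fun z => ?_)
  simp only [Pi.add_apply]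
  ring

lemma Bf_smul_left (k : X × X → ℝ) (c : ℂ) (f g : Lp ℂ 2 μ) :
    Bf μ k ((c • f : Lp ℂ 2 μ)) g = c * Bf μ k f g := by
  rw [Bf_congr (Lp.coeFn_smul c f) (EventuallyEq.refl _ _)]
  unfold Bf
  rw [← integral_const_mul]
  refine integral_congr_ae (Eventually.of_forall fun z => ?_)
  simp only [Pi.smul_apply, smul_eq_mul]
  ring

lemma Bf_smul_right (k : X × X → ℝ) (c : ℂ) (f g : Lp ℂ 2 μ) :
    Bf μ k f ((c • g : Lp ℂ 2 μ)) = c * Bf μ k f g := by
  rw [Bf_congr (EventuallyEq.refl _ _) (Lp.coeFn_smul c g)]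
  unfold Bf
  rw [← integral_const_mul]
  refine integral_congr_ae (Eventually.of_forall fun z => ?_)
  simp only [Pi.smul_apply, smul_eq_mul]
  ring

/-- the bilinear form on `L²` -/
lemma exists_B {k : X × X → ℝ} (hk : Measurable k) {C : ℝ} (hC : ∀ z, |k z| ≤ C) :
    ∃ B : Lp ℂ 2 μ →L[ℂ] Lp ℂ 2 μ →L[ℂ] ℂ, ∀ f g : Lp ℂ 2 μ, B f g = Bf μ k f g := by
  have hC0 : 0 ≤ C := by
    obtain ⟨z⟩ : Nonempty (X × X) := (μ.prod μ).nonempty_of_neZero
    exact (abs_nonneg _).trans (hC z)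
  refine ⟨LinearMap.mkContinuous₂ (LinearMap.mk₂ ℂ (fun f g : Lp ℂ 2 μ => Bf μ k f g)
    (fun f f' g => Bf_add_left hk hC f f' g) (fun c f g => Bf_smul_left k c f g)
    (fun f g g' => Bf_add_right hk hC f g g') (fun c f g => Bf_smul_right k c f g)) C ?_, fun f g => rfl⟩
  intro f g
  show ‖Bf μ k f g‖ ≤ _
  have h := key hk hC 1 (fun _ => f) (fun _ => g)
  simp only [Finset.range_one, Finset.sum_singleton] at h
  have e : ∀ x : Lp ℂ 2 μ, ‖⟪x, x⟫_ℂ‖ = ‖x‖ ^ 2 := by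
    intro x
    rw [inner_self_eq_norm_sq_to_K]
    simp
  rw [e, e] at h
  refine abs_le_of_sq_le_sq' ?_ (by positivity) |>.2
  calc ‖Bf μ k f g‖ ^ 2 ≤ C ^ 2 * (‖f‖ ^ 2 * ‖g‖ ^ 2) := h
    _ = (C * ‖f‖ * ‖g‖) ^ 2 := by ring

/-! ### the operator of the kernel and the weakly mixing vectors -/

/-- invariance -/
lemma Bf_inv {k : X × X → ℝ} {A : Equiv.Perm X} (hA : MeasurePreserving A μ μ)
    (hAi : MeasurePreserving A.symm μ μ) (hinv : ∀ z : X × X, k (A z.1, A z.2) = k z) (f g : X → ℂ) :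
    Bf μ k (fun x => f (A x)) (fun x => g (A x)) = Bf μ k f g := by
  unfold Bf
  obtain ⟨E, hE⟩ : ∃ E : X ≃ᵐ X, E = ⟨A, hA.measurable, hAi.measurable⟩ := ⟨_, rfl⟩
  have hEc : ∀ x, E x = A x := by
    intro x
    rw [hE]
    rfl
  have hEm : MeasurePreserving E μ μ := by
    have : (E : X → X) = A := funext hEc
    rw [this]
    exact hA
  have h1 : MeasurePreserving (E.prodCongr E) (μ.prod μ) (μ.prod μ) := hEm.prod hEm
  have h2 := h1.integral_comp (MeasurableEquiv.measurableEmbedding _)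
    (fun z : X × X => (k z : ℂ) * (f z.1 * g z.2))
  rw [← h2]
  refine integral_congr_ae (Eventually.of_forall fun z => ?_)
  have e : (E.prodCongr E) z = (A z.1, A z.2) := by
    rw [← hEc, ← hEc]
    rfl
  simp only [e, hinv]

lemma pow_inner (U : Lp ℂ 2 μ ≃ₗᵢ[ℂ] Lp ℂ 2 μ) (w : Lp ℂ 2 μ) (m n : ℕ) :
    ‖⟪(U ^ m) w, (U ^ n) w⟫_ℂ‖ = ‖⟪(U ^ (0 + ((Nat.dist n m : ℕ) : ℤ))) w, w⟫_ℂ‖ := by
  rw [zero_add, zpow_natCast]
  have hadd : ∀ (a b : ℕ) (v : Lp ℂ 2 μ), (U ^ (a + b)) v = (U ^ a) ((U ^ b) v) := by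
    intro a b v
    rw [pow_add]
    rfl
  rcases le_total m n with h | h
  · have hd : Nat.dist n m = n - m := by
      unfold Nat.dist
      omega
    obtain ⟨d, rfl⟩ := Nat.exists_eq_add_of_le h
    rw [hd, Nat.add_sub_cancel_left, hadd, LinearIsometryEquiv.inner_map_map, ← norm_inner_symm]
  · have hd : Nat.dist n m = m - n := by
      unfold Nat.dist
      omega
    obtain ⟨d, rfl⟩ := Nat.exists_eq_add_of_le h
    rw [hd, Nat.add_sub_cancel_left, hadd, LinearIsometryEquiv.inner_map_map]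

/-- the correlations of a weakly mixing vector -/
lemma wm_sum (U : Lp ℂ 2 μ ≃ₗᵢ[ℂ] Lp ℂ 2 μ) (w : Lp ℂ 2 μ)
    (hw : ∀ (θ : Circle) (v : Lp ℂ 2 μ), U v = (θ : ℂ) • v → ⟪v, w⟫_ℂ = 0) (ε : ℝ) (hε : 0 < ε) :
    ∃ N : ℕ, 1 ≤ N ∧ ∑ n ∈ range N, ∑ m ∈ range N, ‖⟪(U ^ m) w, (U ^ n) w⟫_ℂ‖ ≤ ε * (N : ℝ) ^ 2 := by
  obtain ⟨L0, hL0⟩ := Pool.Agent.W880.BQ.wm (Lp ℂ 2 μ) U w hw (ε / 2) (by positivity)
  refine ⟨L0 + 1, by omega, ?_⟩
  have h1 := hL0 (L0 + 1) (by omega) 0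
  have h2 := sum_dist_le (L0 + 1) (fun d => ‖⟪(U ^ (0 + (d : ℤ))) w, w⟫_ℂ‖) fun d => norm_nonneg _
  simp_rw [pow_inner]
  refine h2.trans ?_
  calc 2 * ((L0 + 1 : ℕ) : ℝ) * ∑ d ∈ range (L0 + 1), ‖⟪(U ^ (0 + (d : ℤ))) w, w⟫_ℂ‖
      ≤ 2 * ((L0 + 1 : ℕ) : ℝ) * (ε / 2 * ((L0 + 1 : ℕ) : ℝ)) :=
        mul_le_mul_of_nonneg_left h1 (by positivity)
    _ = ε * ((L0 + 1 : ℕ) : ℝ) ^ 2 := by ring

lemma pow_norm_le (U : Lp ℂ 2 μ ≃ₗᵢ[ℂ] Lp ℂ 2 μ) (w : Lp ℂ 2 μ) (m n : ℕ) :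
    ‖⟪(U ^ m) w, (U ^ n) w⟫_ℂ‖ ≤ ‖w‖ ^ 2 := by
  refine (norm_inner_le_norm _ _).trans ?_
  rw [LinearIsometryEquiv.norm_map, LinearIsometryEquiv.norm_map, sq]

lemma zero_of_sq {x : ℂ} {D : ℝ} (hD : 0 ≤ D) (h : ∀ ε : ℝ, 0 < ε → ‖x‖ ^ 2 ≤ D * ε) : x = 0 := by
  have h1 : ‖x‖ ^ 2 ≤ 0 := by
    refine le_of_forall_pos_le_add fun δ hδ => ?_
    have := h (δ / (D + 1)) (by positivity)
    refine this.trans ?_
    rw [mul_div_assoc', div_le_iff₀ (by positivity), zero_add]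
    nlinarith
  have h2 : ‖x‖ = 0 := by nlinarith [norm_nonneg x]
  exact norm_eq_zero.1 h2

section Main

variable {k : X × X → ℝ} {A : Equiv.Perm X}

lemma Bf_koop (hA : MeasurePreserving A μ μ)
    (hAi : MeasurePreserving A.symm μ μ) (hinv : ∀ z : X × X, k (A z.1, A z.2) = k z) (f g : Lp ℂ 2 μ) :
    Bf μ k (koop hA hAi f) (koop hA hAi g) = Bf μ k f g := by
  rw [Bf_congr (koop_coe hA hAi f) (koop_coe hA hAi g)]
  exact Bf_inv hA hAi hinv _ _

lemma Bf_pow (hA : MeasurePreserving A μ μ)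
    (hAi : MeasurePreserving A.symm μ μ) (hinv : ∀ z : X × X, k (A z.1, A z.2) = k z) (f g : Lp ℂ 2 μ) (n : ℕ) :
    Bf μ k (((koop hA hAi) ^ n) f) (((koop hA hAi) ^ n) g) = Bf μ k f g := by
  induction n with
  | zero => simp
  | succ n ih =>
    rw [pow_succ']
    change Bf μ k ((koop hA hAi) (((koop hA hAi) ^ n) f)) ((koop hA hAi) (((koop hA hAi) ^ n) g)) = _
    rw [Bf_koop hA hAi hinv, ih]

lemma Bf_zero_left (hk : Measurable k) {C : ℝ} (hC : ∀ z, |k z| ≤ C) (hA : MeasurePreserving A μ μ)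
    (hAi : MeasurePreserving A.symm μ μ) (hinv : ∀ z : X × X, k (A z.1, A z.2) = k z) (w g : Lp ℂ 2 μ)
    (hw : ∀ (θ : Circle) (v : Lp ℂ 2 μ), koop hA hAi v = (θ : ℂ) • v → ⟪v, w⟫_ℂ = 0) : Bf μ k w g = 0 := by
  refine zero_of_sq (D := C ^ 2 * ‖g‖ ^ 2) (by positivity) fun ε hε => ?_
  obtain ⟨N, hN1, hN⟩ := wm_sum (koop hA hAi) w hw ε hε
  have h := key hk hC N (fun n => ((koop hA hAi) ^ n) w) (fun n => ((koop hA hAi) ^ n) g)
  simp_rw [Bf_pow hA hAi hinv] at h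
  rw [Finset.sum_const, card_range, nsmul_eq_mul, norm_mul, mul_pow] at h
  have hNr : (0 : ℝ) < N := by exact_mod_cast hN1
  have hNn : ‖(N : ℂ)‖ = N := by simp
  rw [hNn] at h
  have h2 : ∑ n ∈ range N, ∑ m ∈ range N, ‖⟪((koop hA hAi) ^ m) w, ((koop hA hAi) ^ n) w⟫_ℂ‖ *
      ‖⟪((koop hA hAi) ^ m) g, ((koop hA hAi) ^ n) g⟫_ℂ‖ ≤ (ε * (N : ℝ) ^ 2) * ‖g‖ ^ 2 := by
    refine le_trans ?_ (mul_le_mul_of_nonneg_right hN (by positivity))
    rw [Finset.sum_mul]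
    refine Finset.sum_le_sum fun n _ => ?_
    rw [Finset.sum_mul]
    refine Finset.sum_le_sum fun m _ => ?_
    exact mul_le_mul_of_nonneg_left (pow_norm_le _ _ _ _) (norm_nonneg _)
  have h3 : (N : ℝ) ^ 2 * ‖Bf μ k w g‖ ^ 2 ≤ (N : ℝ) ^ 2 * (C ^ 2 * ‖g‖ ^ 2 * ε) := by
    refine h.trans ((mul_le_mul_of_nonneg_left h2 (sq_nonneg C)).trans (le_of_eq ?_))
    ring
  exact le_of_mul_le_mul_left h3 (by positivity)

lemma Bf_zero_right (hk : Measurable k) {C : ℝ} (hC : ∀ z, |k z| ≤ C) (hA : MeasurePreserving A μ μ)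
    (hAi : MeasurePreserving A.symm μ μ) (hinv : ∀ z : X × X, k (A z.1, A z.2) = k z) (g w : Lp ℂ 2 μ)
    (hw : ∀ (θ : Circle) (v : Lp ℂ 2 μ), koop hA hAi v = (θ : ℂ) • v → ⟪v, w⟫_ℂ = 0) : Bf μ k g w = 0 := by
  refine zero_of_sq (D := C ^ 2 * ‖g‖ ^ 2) (by positivity) fun ε hε => ?_
  obtain ⟨N, hN1, hN⟩ := wm_sum (koop hA hAi) w hw ε hε
  have h := key hk hC N (fun n => ((koop hA hAi) ^ n) g) (fun n => ((koop hA hAi) ^ n) w)
  simp_rw [Bf_pow hA hAi hinv] at h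
  rw [Finset.sum_const, card_range, nsmul_eq_mul, norm_mul, mul_pow] at h
  have hNr : (0 : ℝ) < N := by exact_mod_cast hN1
  have hNn : ‖(N : ℂ)‖ = N := by simp
  rw [hNn] at h
  have h2 : ∑ n ∈ range N, ∑ m ∈ range N, ‖⟪((koop hA hAi) ^ m) g, ((koop hA hAi) ^ n) g⟫_ℂ‖ *
      ‖⟪((koop hA hAi) ^ m) w, ((koop hA hAi) ^ n) w⟫_ℂ‖ ≤ (ε * (N : ℝ) ^ 2) * ‖g‖ ^ 2 := by
    refine le_trans ?_ (mul_le_mul_of_nonneg_right hN (by positivity))
    rw [Finset.sum_mul]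
    refine Finset.sum_le_sum fun n _ => ?_
    rw [Finset.sum_mul]
    refine Finset.sum_le_sum fun m _ => ?_
    rw [mul_comm]
    exact mul_le_mul_of_nonneg_left (pow_norm_le _ _ _ _) (norm_nonneg _)
  have h3 : (N : ℝ) ^ 2 * ‖Bf μ k g w‖ ^ 2 ≤ (N : ℝ) ^ 2 * (C ^ 2 * ‖g‖ ^ 2 * ε) := by
    refine h.trans ((mul_le_mul_of_nonneg_left h2 (sq_nonneg C)).trans (le_of_eq ?_))
    ring
  exact le_of_mul_le_mul_left h3 (by positivity)

/-- eigenfunctions with the same eigenvalue are proportional -/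
lemma simple (herg : Ergodic A μ) {f g : X → ℂ} (hf : AEStronglyMeasurable f μ) (hg : AEStronglyMeasurable g μ)
    {θ : ℂ} (hθ : ‖θ‖ = 1) (hf1 : ∀ᵐ x ∂μ, f (A x) = θ * f x) (hg1 : ∀ᵐ x ∂μ, g (A x) = θ * g x) :
    g =ᵐ[μ] 0 ∨ ∃ c : ℂ, ∀ᵐ x ∂μ, f x = c * g x := by
  have hθθ : θ * conj θ = 1 := by
    rw [Complex.mul_conj, Complex.normSq_eq_norm_sq, hθ]
    simp
  obtain ⟨r, hr⟩ := herg.ae_eq_const_of_ae_eq_comp_ae (g := fun x => g x * conj (g x))
    (hg.mul (Complex.continuous_conj.comp_aestronglyMeasurable hg)) (by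
      filter_upwards [hg1] with x hx
      simp only [Function.comp_apply, hx, map_mul]
      linear_combination (g x * conj (g x)) * hθθ)
  obtain ⟨c, hc⟩ := herg.ae_eq_const_of_ae_eq_comp_ae (g := fun x => f x * conj (g x))
    (hf.mul (Complex.continuous_conj.comp_aestronglyMeasurable hg)) (by
      filter_upwards [hg1, hf1] with x hx hx'
      simp only [Function.comp_apply, hx, hx', map_mul]
      linear_combination (f x * conj (g x)) * hθθ)
  by_cases h0 : r = 0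
  · left
    filter_upwards [hr] with x hx
    simp only [Function.const_apply, h0] at hx
    rw [Complex.mul_conj, Complex.ofReal_eq_zero, Complex.normSq_eq_zero] at hx
    exact hx
  · right
    refine ⟨c / r, ?_⟩
    filter_upwards [hr, hc] with x hx hx'
    simp only [Function.const_apply] at hx hx'
    rw [← hx, ← hx']
    have hgx : g x ≠ 0 := by
      intro h
      rw [h, zero_mul] at hx
      exact h0 hx.symm
    have hgx' : conj (g x) ≠ 0 := by
      rw [Ne, map_eq_zero]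
      exact hgx
    field_simp

variable {T : Equiv.Perm X}

/-- the form on the eigenvectors -/
lemma eig_form (hA : MeasurePreserving A μ μ) (hAi : MeasurePreserving A.symm μ μ)
    (hT : MeasurePreserving T μ μ) (hTi : MeasurePreserving T.symm μ μ) (hcomm : ∀ x, A (T x) = T (A x))
    (herg : Ergodic A μ) (hinv : ∀ z : X × X, k (A z.1, A z.2) = k z) (θ θ' : Circle) (u v : Lp ℂ 2 μ)
    (hu : koop hA hAi u = (θ : ℂ) • u) (hv : koop hA hAi v = (θ' : ℂ) • v) :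
    Bf μ k (koop hT hTi u) (koop hT hTi v) = Bf μ k u v := by
  have hUV : ∀ x : Lp ℂ 2 μ, koop hA hAi (koop hT hTi x) = koop hT hTi (koop hA hAi x) := by
    intro x
    apply Lp.ext
    have h1 := koop_coe hA hAi (koop hT hTi x)
    have h2 := hA.quasiMeasurePreserving.ae_eq_comp (koop_coe hT hTi x)
    have h3 := koop_coe hT hTi (koop hA hAi x)
    have h4 := hT.quasiMeasurePreserving.ae_eq_comp (koop_coe hA hAi x)
    filter_upwards [h1, h2, h3, h4] with y y1 y2 y3 y4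
    simp only [Function.comp_apply] at y2 y4
    rw [y1, y2, y3, y4, hcomm]
  have heigT : ∀ (ϑ : ℂ) (x : Lp ℂ 2 μ), koop hA hAi x = ϑ • x →
      koop hA hAi (koop hT hTi x) = ϑ • koop hT hTi x := by
    intro ϑ x hx
    rw [hUV, hx, map_smul]
  have hfun : ∀ (ϑ : ℂ) (x : Lp ℂ 2 μ), koop hA hAi x = ϑ • x →
      ∀ᵐ y ∂μ, (x : X → ℂ) (A y) = ϑ * (x : X → ℂ) y := by
    intro ϑ x hx
    have h1 := koop_coe hA hAi x
    rw [hx] at h1
    have h2 := Lp.coeFn_smul ϑ x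
    filter_upwards [h1, h2] with y y1 y2
    rw [← y1, y2, Pi.smul_apply, smul_eq_mul]
  have hmul : ∀ x y : Lp ℂ 2 μ, koop hA hAi x = (θ : ℂ) • x → koop hA hAi y = (θ' : ℂ) • y →
      (θ : ℂ) * θ' ≠ 1 → Bf μ k x y = 0 := by
    intro x y hx hy hne
    have h1 := Bf_koop hA hAi hinv x y
    rw [hx, hy, Bf_smul_left, Bf_smul_right] at h1
    have h2 : ((θ : ℂ) * θ' - 1) * Bf μ k x y = 0 := by linear_combination h1
    rcases mul_eq_zero.1 h2 with h | h
    · exact absurd (sub_eq_zero.1 h) hne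
    · exact h
  by_cases hne : (θ : ℂ) * θ' = 1
  swap
  · rw [hmul u v hu hv hne, hmul _ _ (heigT _ _ hu) (heigT _ _ hv) hne]
  have hθ : ‖(θ : ℂ)‖ = 1 := Circle.norm_coe _
  have hθ' : conj (θ' : ℂ) = θ := by
    have h1 : (θ' : ℂ) * conj (θ' : ℂ) = 1 := by
      rw [Complex.mul_conj, Complex.normSq_eq_norm_sq, Circle.norm_coe]
      simp
    calc conj (θ' : ℂ) = ((θ : ℂ) * θ') * conj (θ' : ℂ) := by rw [hne, one_mul]
      _ = θ * (θ' * conj (θ' : ℂ)) := by ring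
      _ = θ := by rw [h1, mul_one]
  have hum := (Lp.memLp u).1
  have hvm := (Lp.memLp v).1
  have hVum := (Lp.memLp (koop hT hTi u)).1
  -- the image of `u`
  rcases simple herg hVum hum hθ (hfun _ _ (heigT _ _ hu)) (hfun _ _ hu) with h0 | ⟨c, hc⟩
  · have hu0 : u = 0 := by
      apply Lp.ext
      refine h0.trans (Lp.coeFn_zero _ _ _).symm
    rw [hu0, map_zero]
    have hz : ∀ y : Lp ℂ 2 μ, Bf μ k ((0 : Lp ℂ 2 μ)) y = 0 := by
      intro y
      have := Bf_smul_left k 0 (0 : Lp ℂ 2 μ) y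
      rwa [zero_smul, zero_mul] at this
    rw [hz, hz]
  -- `v` is proportional to the conjugate of `u`
  have hcv : ∀ᵐ y ∂μ, (fun x => conj ((v : X → ℂ) x)) (A y) = θ * (fun x => conj ((v : X → ℂ) x)) y := by
    filter_upwards [hfun _ _ hv] with y hy
    show conj ((v : X → ℂ) (A y)) = (θ : ℂ) * conj ((v : X → ℂ) y)
    rw [hy, map_mul, hθ']
  rcases simple herg (Complex.continuous_conj.comp_aestronglyMeasurable hvm) hum hθ hcv (hfun _ _ hu) with
    h0 | ⟨d, hd⟩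
  · have hu0 : u = 0 := by
      apply Lp.ext
      refine h0.trans (Lp.coeFn_zero _ _ _).symm
    rw [hu0, map_zero]
    have hz : ∀ y : Lp ℂ 2 μ, Bf μ k ((0 : Lp ℂ 2 μ)) y = 0 := by
      intro y
      have := Bf_smul_left k 0 (0 : Lp ℂ 2 μ) y
      rwa [zero_smul, zero_mul] at this
    rw [hz, hz]
  have hTu : koop hT hTi u = c • u := by
    apply Lp.ext
    filter_upwards [hc, Lp.coeFn_smul c u] with y y1 y2
    rw [y1, y2, Pi.smul_apply, smul_eq_mul]
  have hTv : koop hT hTi v = conj c • v := by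
    apply Lp.ext
    have h2 := hT.quasiMeasurePreserving.ae_eq_comp (g := fun x => conj ((v : X → ℂ) x))
      (g' := fun x => d * (u : X → ℂ) x) hd
    filter_upwards [koop_coe hT hTi v, Lp.coeFn_smul (conj c) v, h2, hd, hc, koop_coe hT hTi u] with y y1 y2 y3 y4 y5 y6
    rw [y1, y2, Pi.smul_apply, smul_eq_mul]
    simp only [Function.comp_apply] at y3
    have y7 : (v : X → ℂ) (T y) = conj (conj ((v : X → ℂ) (T y))) := by simp
    have y8 : (v : X → ℂ) y = conj (conj ((v : X → ℂ) y)) := by simp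
    rw [y7, y8, y3, y4, ← y6, y5]
    simp only [map_mul]
    ring
  by_cases hu0 : u = 0
  · rw [hu0, map_zero]
    have hz : ∀ y : Lp ℂ 2 μ, Bf μ k ((0 : Lp ℂ 2 μ)) y = 0 := by
      intro y
      have := Bf_smul_left k 0 (0 : Lp ℂ 2 μ) y
      rwa [zero_smul, zero_mul] at this
    rw [hz, hz]
  have hcn : ‖c‖ = 1 := by
    have h1 : ‖koop hT hTi u‖ = ‖u‖ := LinearIsometryEquiv.norm_map _ _
    rw [hTu, norm_smul] at h1
    have h2 : ‖u‖ ≠ 0 := norm_ne_zero_iff.2 hu0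
    exact mul_right_cancel₀ h2 (by rw [h1, one_mul])
  have hcc : c * conj c = 1 := by
    rw [Complex.mul_conj, Complex.normSq_eq_norm_sq, hcn]
    simp
  rw [hTu, hTv, Bf_smul_left, Bf_smul_right, ← mul_assoc, hcc, one_mul]

/-- the form on all vectors -/
lemma form_all (hk : Measurable k) {C : ℝ} (hC : ∀ z, |k z| ≤ C) (hA : MeasurePreserving A μ μ)
    (hAi : MeasurePreserving A.symm μ μ) (hT : MeasurePreserving T μ μ) (hTi : MeasurePreserving T.symm μ μ)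
    (hcomm : ∀ x, A (T x) = T (A x)) (herg : Ergodic A μ) (hinv : ∀ z : X × X, k (A z.1, A z.2) = k z)
    (f g : Lp ℂ 2 μ) : Bf μ k (koop hT hTi f) (koop hT hTi g) = Bf μ k f g := by
  obtain ⟨B, hB⟩ := exists_B (μ := μ) hk hC
  obtain ⟨U, hU⟩ : ∃ U, U = koop hA hAi := ⟨_, rfl⟩
  obtain ⟨V, hV⟩ : ∃ V, V = koop hT hTi := ⟨_, rfl⟩
  obtain ⟨E, hE⟩ : ∃ E : Submodule ℂ (Lp ℂ 2 μ), E =
    (Submodule.span ℂ {v : Lp ℂ 2 μ | ∃ θ : Circle, U v = (θ : ℂ) • v}).topologicalClosure := ⟨_, rfl⟩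
  have hEc : IsClosed (E : Set (Lp ℂ 2 μ)) := by
    rw [hE]
    exact Submodule.isClosed_topologicalClosure _
  have hEcs : CompleteSpace E := hEc.completeSpace_coe
  have hUV : ∀ x : Lp ℂ 2 μ, U (V x) = V (U x) := by
    intro x
    rw [hU, hV]
    apply Lp.ext
    have h1 := koop_coe hA hAi (koop hT hTi x)
    have h2 := hA.quasiMeasurePreserving.ae_eq_comp (koop_coe hT hTi x)
    have h3 := koop_coe hT hTi (koop hA hAi x)
    have h4 := hT.quasiMeasurePreserving.ae_eq_comp (koop_coe hA hAi x)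
    filter_upwards [h1, h2, h3, h4] with y y1 y2 y3 y4
    simp only [Function.comp_apply] at y2 y4
    rw [y1, y2, y3, y4, hcomm]
  have hVp : ∀ w : Lp ℂ 2 μ, (∀ (θ : Circle) (v : Lp ℂ 2 μ), U v = (θ : ℂ) • v → ⟪v, w⟫_ℂ = 0) →
      ∀ (θ : Circle) (v : Lp ℂ 2 μ), U v = (θ : ℂ) • v → ⟪v, V w⟫_ℂ = 0 := by
    intro w hw θ v hv
    have e : v = V (V.symm v) := (V.apply_symm_apply v).symm
    rw [e, LinearIsometryEquiv.inner_map_map]
    refine hw θ _ ?_
    apply V.injective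
    rw [← hUV, V.apply_symm_apply, hv, map_smul, V.apply_symm_apply]
  have hvan : ∀ D : Lp ℂ 2 μ →L[ℂ] ℂ, (∀ (θ : Circle) (v : Lp ℂ 2 μ), U v = (θ : ℂ) • v → D v = 0) →
      (∀ w : Lp ℂ 2 μ, (∀ (θ : Circle) (v : Lp ℂ 2 μ), U v = (θ : ℂ) • v → ⟪v, w⟫_ℂ = 0) → D w = 0) →
      ∀ x, D x = 0 := by
    intro D h1 h2 x
    have hE0 : ∀ y ∈ E, D y = 0 := by
      have h3 : E ≤ LinearMap.ker (D : Lp ℂ 2 μ →ₗ[ℂ] ℂ) := by
        rw [hE]
        refine Submodule.topologicalClosure_minimal _ (Submodule.span_le.2 fun v hv => ?_)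
          (ContinuousLinearMap.isClosed_ker D)
        obtain ⟨θ, hθ⟩ := hv
        exact LinearMap.mem_ker.2 (h1 θ v hθ)
      intro y hy
      exact LinearMap.mem_ker.1 (h3 hy)
    have hdec : x = E.starProjection x + (x - E.starProjection x) := by abel
    rw [hdec, map_add, hE0 _ (Submodule.starProjection_apply_mem _ _), h2 _ ?_, add_zero]
    intro θ v hv
    have hvE : v ∈ E := by
      rw [hE]
      exact Submodule.le_topologicalClosure _ (Submodule.subset_span ⟨θ, hv⟩)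
    exact (Submodule.mem_orthogonal _ _).1 (Submodule.sub_starProjection_mem_orthogonal _) v hvE
  obtain ⟨V', hV'⟩ : ∃ V' : Lp ℂ 2 μ →L[ℂ] Lp ℂ 2 μ, ∀ x, V' x = V x :=
    ⟨V.toContinuousLinearEquiv.toContinuousLinearMap, fun x => rfl⟩
  -- the second vector is an eigenvector
  have step1 : ∀ (θ' : Circle) (v : Lp ℂ 2 μ), U v = (θ' : ℂ) • v → ∀ x, B (V x) (V v) = B x v := by
    intro θ' v hv
    have h := hvan ((B.flip (V v)).comp V' - B.flip v) ?_ ?_
    · intro x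
      have hx := h x
      simp only [ContinuousLinearMap.sub_apply, ContinuousLinearMap.comp_apply,
        ContinuousLinearMap.flip_apply, hV'] at hx
      exact sub_eq_zero.1 hx
    · intro θ u hu
      simp only [ContinuousLinearMap.sub_apply, ContinuousLinearMap.comp_apply,
        ContinuousLinearMap.flip_apply, hV']
      rw [hB, hB, sub_eq_zero, hV]
      rw [hU] at hu hv
      exact eig_form hA hAi hT hTi hcomm herg hinv θ θ' u v hu hv
    · intro w hw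
      simp only [ContinuousLinearMap.sub_apply, ContinuousLinearMap.comp_apply,
        ContinuousLinearMap.flip_apply, hV']
      have hw2 := hVp w hw
      rw [hB, hB]
      rw [hU] at hw hw2
      rw [Bf_zero_left hk hC hA hAi hinv w v hw, Bf_zero_left hk hC hA hAi hinv (V w) (V v) hw2, sub_zero]
  have step2 : ∀ x y, B (V x) (V y) = B x y := by
    intro x
    have h := hvan ((B (V x)).comp V' - B x) ?_ ?_
    · intro y
      have hy := h y
      simp only [ContinuousLinearMap.sub_apply, ContinuousLinearMap.comp_apply, hV'] at hy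
      exact sub_eq_zero.1 hy
    · intro θ u hu
      simp only [ContinuousLinearMap.sub_apply, ContinuousLinearMap.comp_apply, hV']
      rw [sub_eq_zero]
      exact step1 θ u hu x
    · intro w hw
      simp only [ContinuousLinearMap.sub_apply, ContinuousLinearMap.comp_apply, hV']
      have hw2 := hVp w hw
      rw [hB, hB]
      rw [hU] at hw hw2
      rw [Bf_zero_right hk hC hA hAi hinv x w hw, Bf_zero_right hk hC hA hAi hinv (V x) (V w) hw2, sub_zero]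
  have h := step2 f g
  rw [hB, hB, hV] at h
  exact h

/-- the form on the indicator functions -/
lemma form_ind (h : X × X → ℝ) {s t : Set X} (hs : MeasurableSet s) (ht : MeasurableSet t) :
    Bf μ h (s.indicator fun _ => 1) (t.indicator fun _ => 1) = ((∫ z in s ×ˢ t, h z ∂(μ.prod μ) : ℝ) : ℂ) := by
  classical
  rw [← integral_complex_ofReal, ← integral_indicator (hs.prod ht)]
  unfold Bf
  refine integral_congr_ae (Eventually.of_forall fun z => ?_)
  simp only [Set.indicator_apply, Set.mem_prod]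
  by_cases h1 : z.1 ∈ s <;> by_cases h2 : z.2 ∈ t <;> simp [h1, h2]

theorem main (hk : Measurable k) {C : ℝ} (hC : ∀ z, |k z| ≤ C) (hA : MeasurePreserving A μ μ)
    (hAi : MeasurePreserving A.symm μ μ) (hT : MeasurePreserving T μ μ) (hTi : MeasurePreserving T.symm μ μ)
    (hcomm : ∀ x, A (T x) = T (A x)) (herg : Ergodic A μ) (hinv : ∀ z : X × X, k (A z.1, A z.2) = k z) :
    (fun z : X × X => k (T z.1, T z.2)) =ᵐ[μ.prod μ] k := by
  have hkT : Measurable fun z : X × X => k (T z.1, T z.2) :=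
    hk.comp ((hT.measurable.comp measurable_fst).prodMk (hT.measurable.comp measurable_snd))
  -- bounded functions
  have hform : ∀ f g : X → ℂ, Measurable f → Measurable g → (∃ C, ∀ x, ‖f x‖ ≤ C) → (∃ C, ∀ x, ‖g x‖ ≤ C) →
      Bf μ k (fun x => f (T x)) (fun x => g (T x)) = Bf μ k f g := by
    intro f g hf hg ⟨C1, hC1⟩ ⟨C2, hC2⟩
    have hfL : MemLp f 2 μ := memLp_bdd hf hC1
    have hgL : MemLp g 2 μ := memLp_bdd hg hC2
    have h1 := form_all hk hC hA hAi hT hTi hcomm herg hinv (hfL.toLp f) (hgL.toLp g)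
    rw [Bf_congr hfL.coeFn_toLp hgL.coeFn_toLp] at h1
    rw [← h1]
    refine Bf_congr ?_ ?_
    · exact ((koop_coe hT hTi _).trans (hT.quasiMeasurePreserving.ae_eq_comp hfL.coeFn_toLp)).symm
    · exact ((koop_coe hT hTi _).trans (hT.quasiMeasurePreserving.ae_eq_comp hgL.coeFn_toLp)).symm
  -- substitution
  have hsub : ∀ f g : X → ℂ, Bf μ (fun z : X × X => k (T z.1, T z.2)) (fun x => f (T x)) (fun x => g (T x)) =
      Bf μ k f g := by
    intro f g
    unfold Bf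
    obtain ⟨E, hE⟩ : ∃ E : X ≃ᵐ X, E = ⟨T, hT.measurable, hTi.measurable⟩ := ⟨_, rfl⟩
    have hEc : ∀ x, E x = T x := by
      intro x
      rw [hE]
      rfl
    have hEm : MeasurePreserving E μ μ := by
      have : (E : X → X) = T := funext hEc
      rw [this]
      exact hT
    have h1 : MeasurePreserving (E.prodCongr E) (μ.prod μ) (μ.prod μ) := hEm.prod hEm
    have h2 := h1.integral_comp (MeasurableEquiv.measurableEmbedding _)
      (fun z : X × X => (k z : ℂ) * (f z.1 * g z.2))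
    rw [← h2]
    refine integral_congr_ae (Eventually.of_forall fun z => ?_)
    have e : (E.prodCongr E) z = (T z.1, T z.2) := by
      rw [← hEc, ← hEc]
      rfl
    simp only [e]
  have hrect : ∀ s t : Set X, MeasurableSet s → MeasurableSet t →
      ∫ z in s ×ˢ t, k (T z.1, T z.2) ∂(μ.prod μ) = ∫ z in s ×ˢ t, k z ∂(μ.prod μ) := by
    intro s t hs ht
    have hind : ∀ s : Set X, MeasurableSet s → ∃ f : X → ℂ, Measurable f ∧ (∃ C, ∀ x, ‖f x‖ ≤ C) ∧
        (fun x => f (T x)) = s.indicator fun _ => 1 := by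
      intro s hs
      refine ⟨(T.symm ⁻¹' s).indicator fun _ => 1, measurable_const.indicator (hTi.measurable hs), ⟨1, fun x => ?_⟩, ?_⟩
      · classical
        rw [Set.indicator_apply]
        split_ifs <;> simp
      · classical
        funext x
        simp only [Set.indicator_apply, Set.mem_preimage, Equiv.symm_apply_apply]
    obtain ⟨f, hf1, hf2, hf3⟩ := hind s hs
    obtain ⟨g, hg1, hg2, hg3⟩ := hind t ht
    have h1 := hform f g hf1 hg1 hf2 hg2
    have h2 := hsub f g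
    rw [hf3, hg3] at h1 h2
    rw [← h1, form_ind _ hs ht, form_ind _ hs ht] at h2
    exact_mod_cast h2
  have hint1 : Integrable (fun z : X × X => k (T z.1, T z.2)) (μ.prod μ) :=
    Integrable.of_bound hkT.aestronglyMeasurable C (Eventually.of_forall fun z => hC _)
  have hint2 : Integrable k (μ.prod μ) :=
    Integrable.of_bound hk.aestronglyMeasurable C (Eventually.of_forall fun z => hC _)
  have hint : Integrable (fun z : X × X => k (T z.1, T z.2) - k z) (μ.prod μ) := hint1.sub hint2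
  have hrect' : ∀ s t : Set X, MeasurableSet s → MeasurableSet t →
      ∫ z in s ×ˢ t, (k (T z.1, T z.2) - k z) ∂(μ.prod μ) = 0 := by
    intro s t hs ht
    rw [integral_sub hint1.integrableOn hint2.integrableOn, hrect s t hs ht, sub_self]
  have huniv : ∫ z : X × X, (k (T z.1, T z.2) - k z) ∂(μ.prod μ) = 0 := by
    have := hrect' Set.univ Set.univ MeasurableSet.univ MeasurableSet.univ
    rwa [Set.univ_prod_univ, Measure.restrict_univ] at this
  have hS : ∀ S : Set (X × X), MeasurableSet S → ∫ z in S, (k (T z.1, T z.2) - k z) ∂(μ.prod μ) = 0 := by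
    intro S hSm
    refine MeasurableSpace.induction_on_inter
      (C := fun S _ => ∫ z in S, (k (T z.1, T z.2) - k z) ∂(μ.prod μ) = 0)
      generateFrom_prod.symm isPiSystem_prod ?_ ?_ ?_ ?_ S hSm
    · simp
    · rintro _ ⟨s, hs, t, ht, rfl⟩
      exact hrect' s t hs ht
    · intro t htm ht
      have := integral_add_compl htm hint
      rw [ht, zero_add, huniv] at this
      exact this
    · intro f hd hfm hf
      rw [integral_iUnion hfm hd hint.integrableOn]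
      simp [hf]
  have h := hint.ae_eq_zero_of_forall_setIntegral_eq_zero fun S hS1 _ => hS S hS1
  filter_upwards [h] with z hz
  have : k (T z.1, T z.2) - k z = 0 := hz
  linarith

end Main

theorem act_symm {μ : Measure X} {Φ : ℤ → Equiv.Perm X} (h : Act μ Φ) : MeasurePreserving (Φ 1).symm μ μ := by
  have e : (Φ 1).symm = Φ (-1) := by
    have h1 : Φ (-1) * Φ 1 = 1 := by
      rw [← h.add, neg_add_cancel, h.zero]
    have h2 : Φ (-1) = (Φ 1)⁻¹ := eq_inv_of_mul_eq_one_left h1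
    rw [h2]
    rfl
  rw [e]
  exact h.mp (-1)

theorem t : LEMI := by
  intro X _ μ _ Φ Ψ hΦ hΨ hcom herg k hk hinv
  obtain ⟨hkm, C, hC⟩ := hk
  have hinv' : ∀ z : X × X, k (Φ 1 z.1, Φ 1 z.2) = k z := by
    intro z
    have := hinv z
    rwa [D2_apply] at this
  have h := main hkm hC (hΦ.mp 1) (act_symm hΦ) (hΨ.mp 1) (act_symm hΨ) (fun x => hcom 1 1 x) herg hinv'
  filter_upwards [h] with z hz
  rw [D2_apply]
  exact hz

end Pool.Agent.H80E.LEMI
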