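import Pool.Agent.H80E.Stm

/-!
Project E3, stub PRDF: averages of products of almost periodic kernels, several maps.
-/

set_option autoImplicit false

open Filter Topology MeasureTheory ProbabilityTheory
open scoped ENNReal ProbabilityTheory

namespace Pool.Agent.H80E.PRDF

open Pool.Agent.Y311.UB Pool.Agent.Y311.CX Pool.Agent.H80GE Pool.Agent.H80IE Pool.Agent.H80C

/-- the product action of a family of actions -/
def RQ {X : Type} {m : ℕ} (Ψ : Fin m → ℤ → Equiv.Perm X) (n : ℤ) : Equiv.Perm (Fin m → X) :=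
  Equiv.piCongrRight fun j => Ψ j n

theorem RQ_apply {X : Type} {m : ℕ} (Ψ : Fin m → ℤ → Equiv.Perm X) (n : ℤ) (ω : Fin m → X) (j : Fin m) :
    RQ Ψ n ω j = Ψ j n (ω j) := rfl

theorem RQ_act {X : Type} [MeasurableSpace X] {η : Measure X} [IsProbabilityMeasure η] {m : ℕ}
    {Ψ : Fin m → ℤ → Equiv.Perm X} (h : ∀ j, Act η (Ψ j)) : Act (Measure.pi fun _ : Fin m => η) (RQ Ψ) := by
  refine ⟨fun n n' => ?_, ?_, fun n => ?_⟩
  · ext ω j
    show RQ Ψ (n + n') ω j = RQ Ψ n (RQ Ψ n' ω) j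
    rw [RQ_apply, RQ_apply, RQ_apply, ← (h j).add_apply]
  · ext ω j
    show RQ Ψ 0 ω j = ω j
    rw [RQ_apply, (h j).zero_apply]
  · exact measurePreserving_pi (fun _ : Fin m => η) (fun _ : Fin m => η) (fun j => (h j).mp n)

theorem t : Pool.Agent.H80E.PRDF := by
  intro X _ _ η _ m Ψ h k g hk hg
  have hR := RQ_act h
  have hG : BMr (fun ω : Fin m → X => ∏ j, g j (Ψ j 1 (ω j))) := by
    refine ⟨Finset.measurable_fun_prod _ fun j _ => (hg j).1.comp (((h j).measurable _).comp (measurable_pi_apply j)), ?_⟩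
    choose C hC using fun j => (hg j).2
    refine ⟨∏ j, C j, fun ω => ?_⟩
    rw [Finset.abs_prod]
    exact Finset.prod_le_prod (fun _ _ => abs_nonneg _) fun j _ => hC j _
  have h1 := ww (Fin m → X) (Measure.pi fun _ : Fin m => η) (RQ Ψ) hR _ hG
  have h2 : ∀ᵐ p ∂(η.prod (Measure.pi fun _ : Fin m => η)), ∀ b : ℤ → ℂ, BAP b → ∃ L, Tendsto (fun N : ℕ =>
      av N (fun n => b n * (((∏ j, g j (Ψ j 1 (RQ Ψ n p.2 j)) : ℝ)) : ℂ))) atTop (𝓝 L) :=
    Measure.quasiMeasurePreserving_snd.ae h1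
  have h3 : ∀ᵐ p ∂(η.prod (Measure.pi fun _ : Fin m => η)), ∀ j, BAP fun n : ℤ =>
      ((k j (D2 (Ψ j) (n • (1 : ℤ)) (p.1, p.2 j)) : ℝ) : ℂ) := by
    rw [ae_all_iff]
    intro j
    have hq : MeasurePreserving (Prod.map id (Function.eval j)) (η.prod (Measure.pi fun _ : Fin m => η))
        (η.prod η) := (MeasurePreserving.id η).prod (measurePreserving_eval (fun _ : Fin m => η) j)
    exact hq.quasiMeasurePreserving.ae (hk j).2
  choose C hC using fun j => (hk j).1.2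
  filter_upwards [h2, h3] with p hp2 hp3
  set f : Fin m → ℤ → ℂ := fun j n => ((k j (D2 (Ψ j) n (p.1, p.2 j)) : ℝ) : ℂ) with hf
  have hfb : ∀ j, BAP (f j) := by
    intro j
    have e : f j = fun n : ℤ => ((k j (D2 (Ψ j) (n • (1 : ℤ)) (p.1, p.2 j)) : ℝ) : ℂ) := by
      funext n
      simp only [hf, smul_eq_mul, mul_one]
    rw [e]
    exact hp3 j
  have hb := bap_prod Finset.univ (f := fun j n => f j (((1 : ℕ) : ℤ) * n + ((1 : ℕ) : ℤ))) (C := C)
    (fun j => BAPL.t (f j) 1 one_pos (hfb j)) (fun j n => by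
      simp only [hf]
      rw [Complex.norm_real]
      exact hC j _)
  obtain ⟨L, hL'⟩ := hp2 _ hb
  refine ⟨L, hL'.congr fun N => ?_⟩
  unfold AVF
  congr 1
  funext n
  push_cast
  rw [← Finset.prod_mul_distrib]
  refine Finset.prod_congr rfl fun j _ => ?_
  rw [RR_iter (h j)]
  unfold FF
  simp only [hf, D2_apply, RQ_apply]
  rw [← (h j).add_apply]
  have e1 : ((n + 1 : ℕ) : ℤ) = (1 : ℤ) * n + 1 := by push_cast; ring
  have e2 : (1 : ℤ) + n = (1 : ℤ) * n + 1 := by ring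
  rw [e1, e2]
  push_cast
  rfl

end Pool.Agent.H80E.PRDF
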