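import Pool.Agent.H80E.Stm

/-!
Project E3, stub ZPCF: convergence of the averages of products of functions in `ZP`, several maps.
-/

set_option autoImplicit false

open Filter Topology MeasureTheory ProbabilityTheory
open scoped ENNReal ProbabilityTheory

namespace Pool.Agent.H80E.ZPCF

open Pool.Agent.Y311.UB Pool.Agent.Y311.CX Pool.Agent.H80GE Pool.Agent.H80IE Pool.Agent.H80C

theorem AVF_RR_fst {X : Type} {m : ℕ} (Ψ : Fin m → ℤ → Equiv.Perm X) (s : Fin m → X → ℝ) (N : ℕ)
    (p : X × (Fin m → X)) :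
    AVF (fun j => RR (m := m) (Ψ j)) (FF fun j z => s j z.1) N p =
      AVF (fun j => (Ψ j 1 : X → X)) (fun j x => ((s j x : ℝ) : ℂ)) N p.1 := by
  unfold AVF
  congr 1
  funext n
  refine Finset.prod_congr rfl fun j _ => ?_
  simp only [FF]
  rw [RR_iterate_fst]

theorem t (h : Pool.Agent.H80E.SPNF) : Pool.Agent.H80E.ZPCF := by
  intro X _ _ μ _ m Ψ hA s hs
  have h1 := h X μ m Ψ hA (fun j z => s j z.1) (fun j => (hs j).2)
  have h2 := Measure.ae_ae_of_ae_prod h1
  filter_upwards [h2] with x hx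
  obtain ⟨ω, L, hL⟩ := hx.exists
  refine ⟨L, ?_⟩
  simpa only [AVF_RR_fst] using hL

end Pool.Agent.H80E.ZPCF
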