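import Pool.Agent.H80E.Two
import Pool.Agent.H80E.LEMI
import Pool.Agent.H80E.B3
import Pool.Agent.H80E.ENP
import Pool.Agent.H80E.EFAC
import Pool.Agent.H80E.KAP
import Pool.Agent.H80E.EOP
import Pool.Agent.H80E.PRDF
import Pool.Agent.H80E.SPNF
import Pool.Agent.H80E.ZPCF

set_option autoImplicit false

namespace Pool.Agent.H80E

theorem b3 : B3 := B3.t

theorem enp : ENP := ENP.t LEMI.t

theorem efac : EFAC := EFAC.t

theorem eop : EOP := EOP.t KAP.t

theorem zpcf : ZPCF := ZPCF.t (SPNF.t PRDF.t)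

end Pool.Agent.H80E
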