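import Pool.Agent.H80E.Neg3

/-!
The theorem for skew products over three commuting maps.
-/

set_option autoImplicit false
set_option linter.unusedSectionVars false

open Filter Topology MeasureTheory ProbabilityTheory
open scoped ENNReal ComplexConjugate

noncomputable section

namespace Pool.Agent.H80E

open Pool.Agent.Y311.UB Pool.Agent.Y311.CX Pool.Agent.H80GE Pool.Agent.H80IE Pool.Agent.H80C

/-- the sets on which two of the maps act in the same way are trivial -/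
def ErgDiff {X : Type} {mX : MeasurableSpace X} {m : ℕ} (μ : Measure X) (T : Fin m → X → X) : Prop :=
  ∀ i j, i ≠ j → ∀ A, MeasurableSet A → T i ⁻¹' A =ᵐ[μ] T j ⁻¹' A → μ A = 0 ∨ μ A = 1

theorem ergodic_of_diff {X : Type} [MeasurableSpace X] {μ : Measure X} [IsProbabilityMeasure μ] {P Q : Equiv.Perm X}
    (hP : MeasurePreserving P μ μ) (hPi : Measurable P.symm) (hQ : MeasurePreserving Q μ μ) (hQi : Measurable Q.symm)
    (h : ∀ A, MeasurableSet A → P ⁻¹' A =ᵐ[μ] Q ⁻¹' A → μ A = 0 ∨ μ A = 1) : Ergodic (aR P Q 1) μ := by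
  refine ⟨(act_aR hP hPi hQ hQi).mp 1, ⟨fun s hs hinv => ?_⟩⟩
  have h1 : P ⁻¹' s = Q ⁻¹' s := by
    ext y
    have h2 : (P y ∈ (aR P Q 1 : X → X) ⁻¹' s) ↔ P y ∈ s := by rw [hinv]
    have h3 : aR P Q 1 (P y) = Q y := by
      unfold aR
      rw [zpow_one, Equiv.Perm.mul_apply]
      show Q (P.symm (P y)) = Q y
      rw [Equiv.symm_apply_apply]
    rw [Set.mem_preimage, h3] at h2
    exact h2.symm
  rw [Filter.eventuallyConst_set']
  rcases h s hs (h1 ▸ Filter.EventuallyEq.refl _ _) with h4 | h4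
  · exact Or.inl (ae_eq_empty.2 h4)
  · refine Or.inr (ae_eq_univ.2 ?_)
    rw [prob_compl_eq_zero_iff hs]
    exact h4

section

variable {X : Type} [MeasurableSpace X] {μ : Measure X} [IsProbabilityMeasure μ] {Φ Ψ : ℤ → Equiv.Perm X}

theorem ZP_calg (μ : Measure X) [IsProbabilityMeasure μ] (Ψ : ℤ → Equiv.Perm X) : CAlg μ (ZP μ Ψ) := by
  have h := LAALG.t X (μ.prod μ) (D2 Ψ)
  refine ⟨fun f hf => hf.1, fun f g hf hg => ⟨BMr.add' hf.1 hg.1, h.add _ _ hf.2 hg.2⟩,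
    fun f g hf hg => ⟨hf.1.mul hg.1, h.mul _ _ hf.2 hg.2⟩, fun c f hf => ⟨BMr.smul' hf.1 c, h.smul c _ hf.2⟩,
    fun c => ⟨⟨measurable_const, |c|, fun _ => le_rfl⟩, h.const c⟩, fun f hf hcl => ⟨hf, ?_⟩⟩
  refine h.closed _ (hf.comp measurable_fst) fun ε hε => ?_
  obtain ⟨s, hs, h1⟩ := hcl ε hε
  refine ⟨fun z => s z.1, hs.2, ?_⟩
  have hmp : MeasurePreserving (Prod.fst : X × X → X) (μ.prod μ) μ := measurePreserving_fst
  have h2 := integral_map (μ := μ.prod μ) (φ := Prod.fst) hmp.measurable.aemeasurable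
    (f := fun x => |f x - s x|) (BMr.absSub hf hs.1).1.aestronglyMeasurable
  rw [hmp.map_eq] at h2
  rw [← h2]
  exact h1

/-- the decomposition of a bounded function into a structured function and a function with energy zero -/
theorem decompP [StandardBorelSpace X] (hE : EOP) (hΦ : Act μ Φ) (hΨ : Act μ Ψ) (hc : Com Φ Ψ) (herg : Ergodic (Φ 1) μ)
    {f : X → ℝ} (hf : BMr f) :
    ∃ s w : X → ℝ, ZP μ Ψ s ∧ BMr w ∧ En (μ.prod μ) (D2 Ψ) (fun z => w z.1 * w z.2) = 0 ∧ ∀ x, f x = s x + w x := by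
  obtain ⟨hfm, C, hC⟩ := hf
  have hfB : BMr f := ⟨hfm, C, hC⟩
  set c : ℝ := |C| + 1 with hc'
  have hc0 : 0 < c := by positivity
  have hf1 : ∀ x, |c⁻¹ * f x| ≤ 1 := by
    intro x
    rw [abs_mul, abs_of_pos (inv_pos.2 hc0), inv_mul_le_iff₀ hc0, mul_one]
    exact (hC x).trans ((le_abs_self C).trans (by rw [hc']; linarith))
  obtain ⟨fs, hfs, -, hort⟩ := GPROJ.t X μ (ZP μ Ψ) (ZP_calg μ Ψ) (fun x => c⁻¹ * f x) (hfm.const_mul _) hf1
  have hs : ZP μ Ψ (fun x => c * fs x) := (ZP_calg μ Ψ).smul c fs hfs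
  have hw : BMr (fun x => f x - c * fs x) := by
    have := BMr.add' hfB (BMr.smul' hs.1 (-1))
    refine ⟨?_, ?_⟩
    · exact hfm.sub hs.1.1
    · obtain ⟨D, hD⟩ := this.2
      refine ⟨D, fun x => ?_⟩
      have e : f x - c * fs x = f x + -1 * (c * fs x) := by ring
      show |f x - c * fs x| ≤ D
      rw [e]
      exact hD x
  refine ⟨fun x => c * fs x, fun x => f x - c * fs x, hs, hw, ?_, fun x => by ring⟩
  refine hE X μ Φ Ψ hΦ hΨ hc herg _ hw fun s hs' => ?_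
  have h1 := hort s hs'
  have h2 : ∫ x, (f x - c * fs x) * s x ∂μ = c * ∫ x, (c⁻¹ * f x - fs x) * s x ∂μ := by
    rw [← integral_const_mul]
    refine integral_congr_ae (Eventually.of_forall fun x => ?_)
    simp only
    field_simp
  rw [h2, h1, mul_zero]

theorem En_smul [StandardBorelSpace X] {G : X → ℝ} (hE : En μ Ψ G = 0) (c : ℝ) :
    En μ Ψ (fun x => c * G x) = 0 := by
  unfold En at hE ⊢
  have h1 : (fun z : X × X => c * G z.1 * (c * G z.2)) = (c * c) • fun z : X × X => G z.1 * G z.2 := by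
    funext z
    simp only [Pi.smul_apply, smul_eq_mul]
    ring
  rw [h1]
  have h2 := condExp_smul (μ := S2 μ Ψ) (c * c) (fun z : X × X => G z.1 * G z.2) (inv (D2 Ψ) 1)
  have h3 : ∫ z, ((S2 μ Ψ)[(c * c) • fun z : X × X => G z.1 * G z.2 | inv (D2 Ψ) 1]) z ^ 2 ∂(S2 μ Ψ) =
      (c * c) ^ 2 * ∫ z, ((S2 μ Ψ)[fun z : X × X => G z.1 * G z.2 | inv (D2 Ψ) 1]) z ^ 2 ∂(S2 μ Ψ) := by
    rw [← integral_const_mul]
    refine integral_congr_ae ?_
    filter_upwards [h2] with z hz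
    rw [hz]
    simp only [Pi.smul_apply, smul_eq_mul]
    ring
  rw [h3, hE, mul_zero]

theorem EnP_tendsto [StandardBorelSpace X] (hΨ : Act μ Ψ) {w : X → ℝ} (hw : BMr w)
    (hE : En (μ.prod μ) (D2 Ψ) (fun z => w z.1 * w z.2) = 0) :
    Tendsto (fun M : ℕ => (M : ℝ)⁻¹ * ∑ m ∈ Finset.range M, EnP μ Ψ (fun x => w (Ψ (m : ℤ) x) * w x)) atTop (𝓝 0) := by
  have h1 := (LEMS.t COR.t) (X × X) (μ.prod μ) (D2 Ψ) (act_prod hΨ) (fun z => w z.1 * w z.2)
    ((hw.comp measurable_fst).mul (hw.comp measurable_snd))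
  rw [hE] at h1
  refine h1.congr fun M => ?_
  congr 1
  refine Finset.sum_congr rfl fun m _ => ?_
  unfold EnP
  have e : (fun z : X × X => w (D2 Ψ (m : ℤ) z).1 * w (D2 Ψ (m : ℤ) z).2 * (w z.1 * w z.2)) =
      fun z : X × X => w (Ψ (m : ℤ) z.1) * w z.1 * (w (Ψ (m : ℤ) z.2) * w z.2) := by
    funext z
    rw [D2_apply]
    ring
  rw [e]

end

section

variable {Y K W : Type} [MeasurableSpace Y] [StandardBorelSpace Y] [Group K] [TopologicalSpace K]
  [IsTopologicalGroup K] [CompactSpace K] [T2Space K] [SecondCountableTopology K] [MeasurableSpace K] [BorelSpace K]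
  [MeasurableSpace W] [StandardBorelSpace W] [MulAction K W] [MeasurableSMul₂ K W]
  {μ : Measure Y} [IsProbabilityMeasure μ] {ρ : Measure K} [ρ.IsHaarMeasure] [IsProbabilityMeasure ρ]

theorem exE_commute (S : Fin 3 → Y ≃ᵐ Y) (σ : Fin 3 → Y → K) (hS : ∀ i j y, S i (S j y) = S j (S i y))
    (hσ : ∀ i j y, σ i (S j y) * σ j y = σ j (S i y) * σ i y) (i j : Fin 3) :
    Commute (exE (W := W) (S i) (σ i)) (exE (S j) (σ j)) := by
  refine Equiv.ext fun z => ?_
  change exs (S i) (σ i) (exs (S j) (σ j) z) = exs (S j) (σ j) (exs (S i) (σ i) z)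
  simp only [exs, ← mul_smul, hσ i j, hS i j]

theorem inv_law (ρ : Measure K) [ρ.IsHaarMeasure] (w₀ : W) : SMulInvariantMeasure K W (ρ.map fun k => k • w₀) := ⟨by
  have hπm : Measurable (fun k : K => k • w₀) := measurable_id.smul_const w₀
  intro c s hs
  rw [Measure.map_apply hπm hs, Measure.map_apply hπm ((measurable_const_smul c) hs)]
  have e : (fun k : K => k • w₀) ⁻¹' ((fun x => c • x) ⁻¹' s) = (fun k => c * k) ⁻¹' ((fun k : K => k • w₀) ⁻¹' s) := by
    ext k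
    simp only [Set.mem_preimage, mul_smul]
  rw [e, measure_preimage_mul]⟩

theorem neg3W (hB : B3) (hN : ENP) (hFc : EFAC) (w₀ : W) (S : Fin 3 → Y ≃ᵐ Y)
    (hS : ∀ j, MeasurePreserving (S j) μ μ) {σ : Fin 3 → Y → K} (hσ : ∀ j, Measurable (σ j))
    (hcom : ∀ i j, Commute (pE (S i)) (pE (S j)))
    (herg : ∀ i j, i ≠ j → Ergodic (aR (pE (S i)) (pE (S j)) 1) μ)
    (hY : ∀ g : Fin 3 → Y → ℂ, (∀ j, Measurable (g j)) → (∃ C, ∀ j y, ‖g j y‖ ≤ C) →
      ∀ᵐ y ∂μ, ∃ L, Tendsto (fun N => AVF (fun j => (S j : Y → Y)) g N y) atTop (𝓝 L))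
    (f : Fin 3 → Y × W → ℂ) (hf : ∀ j, Measurable (f j)) (hfb : ∃ C, ∀ j x, ‖f j x‖ ≤ C) (i : Fin 3)
    (w : Y × W → ℝ) (hw : BMr w) (hfw : ∀ x, f i x = ((w x : ℝ) : ℂ))
    [IsProbabilityMeasure (ρ.map fun k : K => k • w₀)]
    (hE : En ((μ.prod (ρ.map fun k => k • w₀)).prod (μ.prod (ρ.map fun k => k • w₀)))
      (D2 (aT (exE (S i) (σ i)))) (fun z => w z.1 * w z.2) = 0) :
    ∀ᵐ x ∂(μ.prod (ρ.map fun k => k • w₀)),
      Tendsto (fun N => AVF (fun j => exs (W := W) (S j) (σ j)) f N x) atTop (𝓝 0) := by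
  obtain ⟨C, hfC⟩ := hfb
  have hinv := inv_law ρ w₀
  have hπm : Measurable (fun k : K => k • w₀) := measurable_id.smul_const w₀
  have hπ : MeasurePreserving (Prod.map id fun k : K => k • w₀) (μ.prod ρ) (μ.prod (ρ.map fun k => k • w₀)) :=
    (MeasurePreserving.id μ).prod ⟨hπm, rfl⟩
  have hfac : ∀ (j : Fin 3) (x : Y × K), Prod.map id (fun k : K => k • w₀) (sk (S j) (σ j) x) =
      exs (S j) (σ j) (Prod.map id (fun k : K => k • w₀) x) := by
    intro j x
    simp only [sk, exs, Prod.map, id_eq, mul_smul]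
  have haK : Act (μ.prod ρ) (aT (skE (S i) (σ i))) := act_aT (mp_sk μ ρ (hS i) (hσ i)) (skE_symm_meas (S i) (hσ i))
  have haW : Act (μ.prod (ρ.map fun k => k • w₀)) (aT (exE (W := W) (S i) (σ i))) :=
    act_aT (mp_exs μ _ (hS i) (hσ i)) (exE_symm_meas (S i) (hσ i))
  set c : ℝ := (|C| + 1)⁻¹ with hc
  have hc0 : 0 < c := by positivity
  have hcC : ∀ j x, ‖((c : ℝ) : ℂ) * f j x‖ ≤ 1 := by
    intro j x
    rw [norm_mul, Complex.norm_real, Real.norm_eq_abs, abs_of_pos hc0, hc, inv_mul_le_iff₀ (by positivity), mul_one]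
    exact (hfC j x).trans ((le_abs_self C).trans (by linarith))
  have hcw : BMr (fun x => c * w x) := BMr.smul' hw c
  have hE' : En ((μ.prod (ρ.map fun k => k • w₀)).prod (μ.prod (ρ.map fun k => k • w₀)))
      (D2 (aT (exE (S i) (σ i)))) (fun z => c * w z.1 * (c * w z.2)) = 0 := by
    have e : (fun z : (Y × W) × (Y × W) => c * w z.1 * (c * w z.2)) = fun z => (c * c) * (w z.1 * w z.2) := by
      funext z
      ring
    rw [e]
    exact En_smul hE (c * c)
  have hT := EnP_tendsto haW hcw hE'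
  have hiter : ∀ (m : ℕ) (x : Y × K), Prod.map id (fun k : K => k • w₀) (aT (skE (S i) (σ i)) (m : ℤ) x) =
      aT (exE (S i) (σ i)) (m : ℤ) (Prod.map id (fun k : K => k • w₀) x) := by
    intro m x
    rw [← aT_iter, ← aT_iter]
    exact fac_iter (hfac i) m x
  have hK : Tendsto (fun M : ℕ => (M : ℝ)⁻¹ * ∑ m ∈ Finset.range M, EnP (μ.prod ρ) (aT (skE (S i) (σ i)))
      (fun x => (fun x => c * w (Prod.map id (fun k : K => k • w₀) x)) (aT (skE (S i) (σ i)) (m : ℤ) x) *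
        (fun x => c * w (Prod.map id (fun k : K => k • w₀) x)) x)) atTop (𝓝 0) := by
    refine hT.congr fun M => ?_
    congr 1
    refine Finset.sum_congr rfl fun m _ => ?_
    have h2 := hFc (Y × K) (Y × W) (μ.prod ρ) (μ.prod (ρ.map fun k => k • w₀)) (aT (skE (S i) (σ i)))
      (aT (exE (S i) (σ i))) (Prod.map id fun k : K => k • w₀) haK haW hπ (fun x => by
        have := hiter 1 x
        simpa using this) (fun x => c * w (aT (exE (S i) (σ i)) (m : ℤ) x) * (c * w x))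
      ((hcw.comp (haW.measurable _)).mul hcw)
    rw [← h2]
    congr 1
    funext x
    simp only [hiter]
  have h1 := neg3K (ρ := ρ) hB hN S hS hσ hcom herg hY
    (fun j x => ((c : ℝ) : ℂ) * f j (Prod.map id (fun k : K => k • w₀) x))
    (fun j => ((hf j).comp hπ.measurable).const_mul _) (fun j x => hcC j _) i
    (fun x => c * w (Prod.map id (fun k : K => k • w₀) x)) ((hw.1.comp hπ.measurable).const_mul _) (fun x => by
      rw [hfw, ← Complex.ofReal_mul]) hK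
  have hms : MeasurableSet {x : Y × W | Tendsto (fun N => AVF (fun j => exs (W := W) (S j) (σ j)) f N x) atTop
      (𝓝 0)} := measurableSet_tendsto (𝓝 0) fun N => AVF_meas (fun j => exs_meas (S j).measurable (hσ j)) hf N
  rw [← hπ.map_eq]
  refine (ae_map_iff hπ.measurable.aemeasurable hms).2 ?_
  filter_upwards [h1] with x hx
  have h2 : ∀ N, AVF (fun j => exs (W := W) (S j) (σ j)) f N (Prod.map id (fun k : K => k • w₀) x) =
      (((c : ℝ) : ℂ)⁻¹ ^ 3) * AVF (fun j => sk (S j) (σ j))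
        (fun j x => ((c : ℝ) : ℂ) * f j (Prod.map id (fun k : K => k • w₀) x)) N x := by
    intro N
    have hcne : ((c : ℝ) : ℂ) ≠ 0 := by exact_mod_cast hc0.ne'
    rw [← AVF_fac hfac f N x]
    unfold AVF av
    rw [mul_left_comm]
    congr 1
    rw [Finset.mul_sum]
    refine Finset.sum_congr rfl fun n _ => ?_
    simp only [Fin.prod_univ_three]
    field_simp
  simp_rw [h2]
  have h3 := hx.const_mul (((c : ℝ) : ℂ)⁻¹ ^ 3)
  rwa [mul_zero] at h3

/-- isometric extensions -/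
theorem conv3 (hB : B3) (hN : ENP) (hFc : EFAC) (hE : EOP) (hZ : ZPCF) (w₀ : W) (S : Fin 3 → Y ≃ᵐ Y)
    (hS : ∀ j, MeasurePreserving (S j) μ μ) {σ : Fin 3 → Y → K} (hσ : ∀ j, Measurable (σ j))
    (hS01 : ∀ i j y, S i (S j y) = S j (S i y)) (hcoc : ∀ i j y, σ i (S j y) * σ j y = σ j (S i y) * σ i y)
    (hd : ErgDiff (μ.prod (ρ.map fun k => k • w₀)) (fun j => exs (W := W) (S j) (σ j)))
    (hY : ∀ g : Fin 3 → Y → ℂ, (∀ j, Measurable (g j)) → (∃ C, ∀ j y, ‖g j y‖ ≤ C) →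
      ∀ᵐ y ∂μ, ∃ L, Tendsto (fun N => AVF (fun j => (S j : Y → Y)) g N y) atTop (𝓝 L))
    (f : Fin 3 → Y × W → ℂ) (hf : ∀ j, Measurable (f j)) (hfb : ∃ C, ∀ j x, ‖f j x‖ ≤ C) :
    ∀ᵐ x ∂(μ.prod (ρ.map fun k => k • w₀)), ∃ L,
      Tendsto (fun N => AVF (fun j => exs (W := W) (S j) (σ j)) f N x) atTop (𝓝 L) := by
  have hinv := inv_law ρ w₀
  have hπm : Measurable (fun k : K => k • w₀) := measurable_id.smul_const w₀
  have hρ' : IsProbabilityMeasure (ρ.map fun k : K => k • w₀) :=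
    Measure.isProbabilityMeasure_map hπm.aemeasurable
  have hmp : ∀ j, MeasurePreserving (exE (W := W) (S j) (σ j)) (μ.prod (ρ.map fun k => k • w₀))
      (μ.prod (ρ.map fun k => k • w₀)) := fun j => mp_exs μ _ (hS j) (hσ j)
  have hmi : ∀ j, Measurable (exE (W := W) (S j) (σ j)).symm := fun j => exE_symm_meas (S j) (hσ j)
  have haT : ∀ j, Act (μ.prod (ρ.map fun k => k • w₀)) (aT (exE (W := W) (S j) (σ j))) := fun j =>
    act_aT (hmp j) (hmi j)
  have hcomT := exE_commute (W := W) S σ hS01 hcoc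
  have hergT : ∀ i j, i ≠ j → Ergodic (aR (exE (W := W) (S i) (σ i)) (exE (S j) (σ j)) 1)
      (μ.prod (ρ.map fun k => k • w₀)) := fun i j hij =>
    ergodic_of_diff (hmp i) (hmi i) (hmp j) (hmi j) fun A hA h => hd i j hij A hA h
  have hcomS : ∀ i j, Commute (pE (S i)) (pE (S j)) := fun i j => Equiv.ext fun y => hS01 i j y
  have hfst : MeasurePreserving (Prod.fst : Y × W → Y) (μ.prod (ρ.map fun k => k • w₀)) μ := measurePreserving_fst
  have hergS : ∀ i j, i ≠ j → Ergodic (aR (pE (S i)) (pE (S j)) 1) μ := by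
    intro i j hij
    refine ergodic_of_diff (P := pE (S i)) (Q := pE (S j)) (hS i) (S i).symm.measurable (hS j) (S j).symm.measurable
      fun A hA h => ?_
    have h1 := hd i j hij (Prod.fst ⁻¹' A) (measurable_fst hA)
      (hfst.quasiMeasurePreserving.preimage_ae_eq h)
    rw [hfst.measure_preimage hA.nullMeasurableSet] at h1
    exact h1
  have hother : ∀ j : Fin 3, ∃ l, j ≠ l := by
    intro j
    obtain ⟨l, _, h, _⟩ := three j
    exact ⟨l, h⟩
  refine conv_expandF (fun j => exs (W := W) (S j) (σ j))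
    (fun j => ZP (μ.prod (ρ.map fun k => k • w₀)) (aT (exE (S j) (σ j))))
    (fun j w => En ((μ.prod (ρ.map fun k => k • w₀)).prod (μ.prod (ρ.map fun k => k • w₀)))
      (D2 (aT (exE (S j) (σ j)))) (fun z => w z.1 * w z.2) = 0) (fun j s hs => hs.1)
    (fun j f hf => ?_) (fun s hs => ?_) (fun f hf hfb hj => ?_) f (fun j => ⟨hf j, by
      obtain ⟨C, hC⟩ := hfb
      exact ⟨C, fun x => hC j x⟩⟩)
  · obtain ⟨l, hl⟩ := hother j
    exact decompP hE (act_aR (hmp j) (hmi j) (hmp l) (hmi l)) (haT j) (com_aR (hcomT j l)) (hergT j l hl) hf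
  · have h1 := hZ (Y × W) (μ.prod (ρ.map fun k => k • w₀)) 3 (fun j => aT (exE (S j) (σ j))) haT s hs
    have e : (fun j : Fin 3 => (aT (exE (W := W) (S j) (σ j)) 1 : Y × W → Y × W)) = fun j => exs (S j) (σ j) := by
      funext j
      unfold aT
      rw [zpow_one]
      rfl
    rw [e] at h1
    exact h1
  · obtain ⟨j0, w, hw, hEw, hfw⟩ := hj
    exact neg3W (ρ := ρ) hB hN hFc w₀ S hS hσ hcomS hergS hY f hf hfb j0 w hw hfw hEw

end

end Pool.Agent.H80E
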