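import Pool.Agent.H80E.StmM

/-!
# Project E3, stub LLN (helper21): a law of large numbers with a rate
-/

set_option autoImplicit false

open Filter Topology MeasureTheory
open scoped ENNReal

namespace Pool.Agent.H80E.LLN

open Pool.Agent.H80GE

lemma sum_rpow_le {d : ℝ} (hd0 : 0 < d) (hd1 : d ≤ 1 / 2) (N : ℕ) :
    ∑ k ∈ Finset.range N, ((k : ℝ) + 1) ^ (-d) ≤ 2 * (N : ℝ) ^ (1 - d) := by
  induction N with
  | zero =>
    simp
    positivity
  | succ N ih =>
    rw [Finset.sum_range_succ]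
    have hN : (0 : ℝ) < (N : ℝ) + 1 := by positivity
    have h1 := rpow_one_add_le_one_add_mul_self (s := -1 / ((N : ℝ) + 1)) (by
      rw [le_div_iff₀ hN]
      nlinarith [Nat.cast_nonneg (α := ℝ) N]) (p := 1 - d) (by linarith) (by linarith)
    have e1 : 1 + -1 / ((N : ℝ) + 1) = N / ((N : ℝ) + 1) := by
      field_simp
      ring
    rw [e1, Real.div_rpow (Nat.cast_nonneg N) hN.le, div_le_iff₀ (by positivity)] at h1
    have e2 : ((N : ℝ) + 1) ^ (1 - d) = ((N : ℝ) + 1) * ((N : ℝ) + 1) ^ (-d) := by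
      have : (1 : ℝ) - d = 1 + -d := by ring
      rw [this, Real.rpow_add hN, Real.rpow_one]
    have e3 : (1 + (1 - d) * (-1 / ((N : ℝ) + 1))) * ((N : ℝ) + 1) ^ (1 - d) =
        ((N : ℝ) + 1) ^ (1 - d) - (1 - d) * ((N : ℝ) + 1) ^ (-d) := by
      rw [e2]
      field_simp
      ring
    rw [e3] at h1
    have h2 : 0 ≤ ((N : ℝ) + 1) ^ (-d) := by positivity
    push_cast
    nlinarith

/-- a.e. convergence to zero of summable nonnegative functions -/
lemma ae_tendsto_zero {X : Type} [MeasurableSpace X] {μ : Measure X} (f : ℕ → X → ℝ)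
    (hf : ∀ i, Measurable (f i)) (hint : ∀ i, Integrable (f i) μ) (h0 : ∀ i x, 0 ≤ f i x) (b : ℕ → ℝ)
    (hb : Summable b) (h : ∀ i, ∫ x, f i x ∂μ ≤ b i) : ∀ᵐ x ∂μ, Tendsto (fun i => f i x) atTop (𝓝 0) := by
  have hsum : ∫⁻ x, ∑' i, ENNReal.ofReal (f i x) ∂μ ≠ ∞ := by
    rw [lintegral_tsum fun i => (hf i).ennreal_ofReal.aemeasurable]
    have h1 : ∀ i, ∫⁻ x, ENNReal.ofReal (f i x) ∂μ = ENNReal.ofReal (∫ x, f i x ∂μ) := fun i =>
      (ofReal_integral_eq_lintegral_ofReal (hint i) (Eventually.of_forall (h0 i))).symm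
    simp_rw [h1]
    have hs : Summable fun i => ∫ x, f i x ∂μ :=
      Summable.of_nonneg_of_le (fun i => integral_nonneg (h0 i)) h hb
    exact hs.tsum_ofReal_ne_top
  have hae := ae_lt_top (Measurable.ennreal_tsum fun i => (hf i).ennreal_ofReal) hsum
  filter_upwards [hae] with x hx
  have h2 := ENNReal.tendsto_atTop_zero_of_tsum_ne_top hx.ne
  have h3 := (ENNReal.tendsto_toReal ENNReal.zero_ne_top).comp h2
  simp only [ENNReal.toReal_zero] at h3
  refine h3.congr fun i => ?_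
  simp only [Function.comp_apply]
  exact ENNReal.toReal_ofReal (h0 i x)

/-- from the powers to all integers -/
lemma interp (s : ℕ → ℝ) (hs : ∀ M N, M ≤ N → |s N - s M| ≤ (N : ℝ) - M) {p : ℕ} (hp : 1 ≤ p)
    (h : Tendsto (fun i : ℕ => ((i ^ p : ℕ) : ℝ)⁻¹ * s (i ^ p)) atTop (𝓝 0)) :
    Tendsto (fun N : ℕ => (N : ℝ)⁻¹ * s N) atTop (𝓝 0) := by
  have h1 : Tendsto (fun i : ℕ => (1 + 1 / (i : ℝ)) ^ p - 1) atTop (𝓝 0) := by
    have := ((tendsto_const_nhds (x := (1 : ℝ))).add tendsto_one_div_atTop_nhds_zero_nat).pow p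
    have := this.sub_const 1
    simpa using this
  rw [Metric.tendsto_atTop] at h h1 ⊢
  intro ε hε
  obtain ⟨I1, hI1⟩ := h (ε / 2) (by positivity)
  obtain ⟨I2, hI2⟩ := h1 (ε / 2) (by positivity)
  obtain ⟨I, hI⟩ : ∃ I, I = max (max I1 I2) 1 := ⟨_, rfl⟩
  refine ⟨I ^ p, fun N hN => ?_⟩
  obtain ⟨i, hi⟩ : ∃ i, i = Nat.findGreatest (fun i => i ^ p ≤ N) N := ⟨_, rfl⟩
  have hIN : I ≤ N := (Nat.le_self_pow (by omega) I).trans hN
  have hiI : I ≤ i := by
    rw [hi]
    exact Nat.le_findGreatest hIN hN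
  have hip : i ^ p ≤ N := by
    rw [hi]
    exact Nat.findGreatest_spec (P := fun i => i ^ p ≤ N) hIN hN
  have hip2 : N < (i + 1) ^ p := by
    by_contra hcon
    push Not at hcon
    have h2 : i + 1 ≤ N := (Nat.le_self_pow (by omega) (i + 1)).trans hcon
    have h3 := Nat.le_findGreatest (P := fun i => i ^ p ≤ N) h2 hcon
    rw [← hi] at h3
    omega
  have hi1 : 1 ≤ i := by omega
  have hir : (0 : ℝ) < i := by exact_mod_cast hi1
  have hipr : (0 : ℝ) < ((i ^ p : ℕ) : ℝ) := by positivity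
  have hNr : ((i ^ p : ℕ) : ℝ) ≤ N := by exact_mod_cast hip
  have hN0 : (0 : ℝ) < N := hipr.trans_le hNr
  have a1 := hI1 i (by omega)
  have a2 := hI2 i (by omega)
  rw [Real.dist_eq, sub_zero] at a1 a2 ⊢
  have a3 := hs (i ^ p) N hip
  have a4 : (N : ℝ) ≤ (((i + 1) ^ p : ℕ) : ℝ) := by exact_mod_cast hip2.le
  have a5 : (((i + 1) ^ p : ℕ) : ℝ) = ((i ^ p : ℕ) : ℝ) * (1 + 1 / (i : ℝ)) ^ p := by
    push_cast
    rw [← mul_pow]
    congr 1
    field_simp
  rw [abs_mul, abs_of_pos (inv_pos.2 hipr)] at a1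
  rw [abs_mul, abs_of_pos (inv_pos.2 hN0), inv_mul_lt_iff₀ hN0]
  rw [inv_mul_lt_iff₀ hipr] at a1
  have a6 : (1 + 1 / (i : ℝ)) ^ p - 1 < ε / 2 := (le_abs_self _).trans_lt a2
  have a7 : |s N| ≤ |s (i ^ p)| + ((N : ℝ) - ((i ^ p : ℕ) : ℝ)) := by
    have := abs_add_le (s (i ^ p)) (s N - s (i ^ p))
    rw [add_sub_cancel] at this
    linarith
  have a8 : (N : ℝ) - ((i ^ p : ℕ) : ℝ) ≤ ((i ^ p : ℕ) : ℝ) * ((1 + 1 / (i : ℝ)) ^ p - 1) := by
    rw [a5] at a4
    linarith
  have a9 : ((i ^ p : ℕ) : ℝ) * ((1 + 1 / (i : ℝ)) ^ p - 1) ≤ ((i ^ p : ℕ) : ℝ) * (ε / 2) :=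
    mul_le_mul_of_nonneg_left a6.le hipr.le
  nlinarith

theorem t : LLN := by
  intro X _ μ _ a ha hb C δ hδ hcor
  obtain ⟨d, hd⟩ : ∃ d, d = min δ (1 / 2) := ⟨_, rfl⟩
  have hd0 : 0 < d := by
    rw [hd]
    exact lt_min hδ (by norm_num)
  have hd1 : d ≤ 1 / 2 := by
    rw [hd]
    exact min_le_right _ _
  have hdδ : d ≤ δ := by
    rw [hd]
    exact min_le_left _ _
  have hC0 : 0 ≤ C := by
    have := (abs_nonneg _).trans (hcor 0 0)
    norm_num at this
    linarith
  have hmono : ∀ n : ℕ, ((n : ℝ) + 1) ^ (-δ) ≤ ((n : ℝ) + 1) ^ (-d) := fun n =>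
    Real.rpow_le_rpow_of_exponent_le (by linarith [Nat.cast_nonneg (α := ℝ) n]) (by linarith)
  obtain ⟨g, hg⟩ : ∃ g : ℕ → ℝ, g = fun n : ℕ => C * ((n : ℝ) + 1) ^ (-d) := ⟨_, rfl⟩
  have hg0 : ∀ n, 0 ≤ g n := by
    intro n
    rw [hg]
    positivity
  have hcor' : ∀ n k : ℕ, |∫ x, a n x * a (n + k) x ∂μ| ≤ g n + g k := by
    intro n k
    refine (hcor n k).trans ?_
    rw [hg]
    simp only
    rw [← mul_add]
    exact mul_le_mul_of_nonneg_left (add_le_add (hmono n) (hmono k)) hC0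
  have hpair : ∀ n m : ℕ, |∫ x, a n x * a m x ∂μ| ≤ g n + g m + g (Nat.dist n m) := by
    intro n m
    rcases le_total n m with h | h
    · obtain ⟨k, rfl⟩ := Nat.exists_eq_add_of_le h
      have e : Nat.dist n (n + k) = k := by
        unfold Nat.dist
        omega
      rw [e]
      have := hcor' n k
      have := hg0 (n + k)
      linarith
    · obtain ⟨k, rfl⟩ := Nat.exists_eq_add_of_le h
      have e : Nat.dist (m + k) m = k := by
        unfold Nat.dist
        omega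
      rw [e]
      have h1 := hcor' m k
      have h2 := hg0 (m + k)
      have h3 : ∫ x, a (m + k) x * a m x ∂μ = ∫ x, a m x * a (m + k) x ∂μ := by
        congr 1
        funext x
        ring
      rw [h3]
      linarith
  have hG : ∀ N : ℕ, ∑ k ∈ Finset.range N, g k ≤ 2 * C * (N : ℝ) ^ (1 - d) := by
    intro N
    rw [hg]
    simp only
    rw [← Finset.mul_sum]
    calc C * ∑ k ∈ Finset.range N, ((k : ℝ) + 1) ^ (-d) ≤ C * (2 * (N : ℝ) ^ (1 - d)) :=
          mul_le_mul_of_nonneg_left (sum_rpow_le hd0 hd1 N) hC0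
      _ = _ := by ring
  have hint2 : ∀ n m, Integrable (fun x => a n x * a m x) μ := by
    intro n m
    refine Integrable.of_bound ((ha n).mul (ha m)).aestronglyMeasurable 1 (Eventually.of_forall fun x => ?_)
    rw [Real.norm_eq_abs, abs_mul]
    exact mul_le_one₀ (hb n x) (abs_nonneg _) (hb m x)
  -- the second moment
  have hsm : ∀ N : ℕ, ∫ x, (∑ n ∈ Finset.range N, a n x) ^ 2 ∂μ ≤ 8 * C * (N * (N : ℝ) ^ (1 - d)) := by
    intro N
    have e1 : ∀ x, (∑ n ∈ Finset.range N, a n x) ^ 2 =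
        ∑ n ∈ Finset.range N, ∑ m ∈ Finset.range N, a n x * a m x := by
      intro x
      rw [sq, Finset.sum_mul_sum]
    simp_rw [e1]
    rw [integral_finsetSum _ fun n _ => integrable_finsetSum _ fun m _ => hint2 n m]
    have e2 : ∀ n ∈ Finset.range N, ∫ x, ∑ m ∈ Finset.range N, a n x * a m x ∂μ =
        ∑ m ∈ Finset.range N, ∫ x, a n x * a m x ∂μ := fun n _ =>
      integral_finsetSum _ fun m _ => hint2 n m
    rw [Finset.sum_congr rfl e2]
    have h1 : ∑ n ∈ Finset.range N, ∑ m ∈ Finset.range N, ∫ x, a n x * a m x ∂μ ≤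
        ∑ n ∈ Finset.range N, ∑ m ∈ Finset.range N, (g n + g m + g (Nat.dist n m)) :=
      Finset.sum_le_sum fun n _ => Finset.sum_le_sum fun m _ => (le_abs_self _).trans (hpair n m)
    refine h1.trans ?_
    have h2 := sum_dist_le N g hg0
    have h3 : ∑ n ∈ Finset.range N, ∑ m ∈ Finset.range N, (g n + g m + g (Nat.dist n m)) =
        2 * (N * ∑ k ∈ Finset.range N, g k) +
          ∑ n ∈ Finset.range N, ∑ m ∈ Finset.range N, g (Nat.dist n m) := by
      simp only [Finset.sum_add_distrib, Finset.sum_const, Finset.card_range, nsmul_eq_mul]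
      rw [← Finset.mul_sum]
      ring
    rw [h3]
    have h4 := mul_le_mul_of_nonneg_left (hG N) (Nat.cast_nonneg (α := ℝ) N)
    linarith
  obtain ⟨p, hp⟩ := exists_nat_ge (2 / d)
  have hp2 : 2 ≤ (p : ℝ) * d := by
    rw [div_le_iff₀ hd0] at hp
    exact hp
  have hp1 : 1 ≤ p := by
    rcases Nat.eq_zero_or_pos p with h | h
    · rw [h] at hp2
      norm_num at hp2
    · exact h
  have hA : ∀ᵐ x ∂μ, Tendsto (fun i : ℕ => (((i ^ p : ℕ) : ℝ)⁻¹ * ∑ n ∈ Finset.range (i ^ p), a n x) ^ 2)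
      atTop (𝓝 0) := by
    refine ae_tendsto_zero (fun i x => (((i ^ p : ℕ) : ℝ)⁻¹ * ∑ n ∈ Finset.range (i ^ p), a n x) ^ 2)
      (fun i => ((Finset.measurable_sum _ fun n _ => ha n).const_mul _).pow_const 2) (fun i => ?_)
      (fun i x => sq_nonneg _) (fun i => 8 * C * (1 / (i : ℝ) ^ 2))
      ((Real.summable_one_div_nat_pow.2 (by norm_num)).mul_left _) (fun i => ?_)
    · have hsb : ∀ x, |∑ n ∈ Finset.range (i ^ p), a n x| ≤ ((i ^ p : ℕ) : ℝ) := by
        intro x
        refine (Finset.abs_sum_le_sum_abs _ _).trans ?_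
        refine (Finset.sum_le_card_nsmul _ _ 1 fun n _ => hb n x).trans ?_
        simp
      refine Integrable.of_bound (((Finset.measurable_sum _ fun n _ => ha n).const_mul _).pow_const
        2).aestronglyMeasurable 1 (Eventually.of_forall fun x => ?_)
      rw [Real.norm_eq_abs, abs_pow, abs_mul, abs_inv, Nat.abs_cast]
      refine pow_le_one₀ (by positivity) ?_
      rcases Nat.eq_zero_or_pos (i ^ p) with h | h
      · rw [h]
        simp
      · have : (0 : ℝ) < ((i ^ p : ℕ) : ℝ) := by exact_mod_cast h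
        rw [inv_mul_le_iff₀ this, mul_one]
        exact hsb x
    · rcases Nat.eq_zero_or_pos i with h | h
      · rw [h]
        have : (0 : ℕ) ^ p = 0 := zero_pow (by omega)
        rw [this]
        simp
      · have hir : (1 : ℝ) ≤ i := by exact_mod_cast h
        have hi0 : (0 : ℝ) < i := by linarith
        obtain ⟨M, hM⟩ : ∃ M : ℕ, M = i ^ p := ⟨_, rfl⟩
        have hMr : (M : ℝ) = (i : ℝ) ^ p := by
          rw [hM]
          push_cast
          rfl
        have hM0 : (0 : ℝ) < M := by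
          rw [hMr]
          positivity
        rw [← hM]
        simp_rw [mul_pow]
        rw [integral_const_mul]
        have h1 := hsm M
        have h2 : ((M : ℝ)⁻¹) ^ 2 * (8 * C * (M * (M : ℝ) ^ (1 - d))) = 8 * C * (M : ℝ) ^ (-d) := by
          have e : (1 : ℝ) - d = 1 + -d := by ring
          rw [e, Real.rpow_add hM0, Real.rpow_one]
          field_simp
        have h3 : (M : ℝ) ^ (-d) ≤ 1 / (i : ℝ) ^ 2 := by
          rw [hMr, ← Real.rpow_natCast, ← Real.rpow_mul hi0.le, one_div, ← Real.rpow_natCast (i : ℝ) 2,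
            ← Real.rpow_neg hi0.le]
          refine Real.rpow_le_rpow_of_exponent_le hir ?_
          push_cast
          linarith
        calc ((M : ℝ)⁻¹) ^ 2 * ∫ x, (∑ n ∈ Finset.range M, a n x) ^ 2 ∂μ
            ≤ ((M : ℝ)⁻¹) ^ 2 * (8 * C * (M * (M : ℝ) ^ (1 - d))) :=
              mul_le_mul_of_nonneg_left h1 (by positivity)
          _ = 8 * C * (M : ℝ) ^ (-d) := h2
          _ ≤ 8 * C * (1 / (i : ℝ) ^ 2) := mul_le_mul_of_nonneg_left h3 (by positivity)
  filter_upwards [hA] with x hx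
  refine interp (fun N => ∑ n ∈ Finset.range N, a n x) ?_ hp1 ?_
  · intro M N hMN
    rw [← Finset.sum_range_add_sum_Ico _ hMN, add_sub_cancel_left]
    refine (Finset.abs_sum_le_sum_abs _ _).trans ?_
    refine (Finset.sum_le_card_nsmul _ _ 1 fun n _ => hb n x).trans ?_
    rw [Nat.card_Ico, nsmul_eq_mul, mul_one, Nat.cast_sub hMN]
  · have h1 := (Real.continuous_sqrt.tendsto 0).comp hx
    rw [Real.sqrt_zero] at h1
    rw [tendsto_zero_iff_abs_tendsto_zero]
    refine h1.congr fun i => ?_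
    simp only [Function.comp_apply]
    rw [Real.sqrt_sq_eq_abs]

end Pool.Agent.H80E.LLN
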