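import Pool.Agent.H80E.StmM

/-!
Stub MIXC: mixing with a polynomial rate gives convergence of the averages of the indicators.
-/

set_option autoImplicit false
set_option linter.unusedSectionVars false

open Filter Topology MeasureTheory ProbabilityTheory
open scoped ENNReal ComplexConjugate

noncomputable section

namespace Pool.Agent.H80E.MIXC

open Pool.Agent.Y311.UB Pool.Agent.Y311.CX Pool.Agent.H80GE Pool.Agent.H80IE Pool.Agent.H80C
open Pool.Agent.H80E

/-- the product of the indicators along the orbit is the indicator of a set -/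
theorem prod_ind {X : Type} {m : ℕ} (T : Fin m → X → X) (A : Fin m → Set X) (n : ℕ) (x : X) :
    ∏ j, (A j).indicator (fun _ => (1 : ℝ)) ((T j)^[n] x)
      = {x | ∀ j, (T j)^[n] x ∈ A j}.indicator (fun _ => (1 : ℝ)) x := by
  classical
  by_cases h : ∀ j, (T j)^[n] x ∈ A j
  · rw [Set.indicator_of_mem (show x ∈ {x | ∀ j, (T j)^[n] x ∈ A j} from h)]
    exact Finset.prod_eq_one fun j _ => Set.indicator_of_mem (h j) _
  · rw [Set.indicator_of_notMem (show x ∉ {x | ∀ j, (T j)^[n] x ∈ A j} from h)]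
    push Not at h
    obtain ⟨j, hj⟩ := h
    exact Finset.prod_eq_zero (Finset.mem_univ j) (Set.indicator_of_notMem hj _)

theorem meas_set {X : Type} [MeasurableSpace X] {m : ℕ} {T : Fin m → X → X} (hT : ∀ j, Measurable (T j))
    {A : Fin m → Set X} (hA : ∀ j, MeasurableSet (A j)) (n : ℕ) :
    MeasurableSet {x | ∀ j, (T j)^[n] x ∈ A j} := by
  have e : {x | ∀ j, (T j)^[n] x ∈ A j} = ⋂ j, ((T j)^[n]) ⁻¹' (A j) := by
    ext x
    simp
  rw [e]
  exact MeasurableSet.iInter fun j => ((hT j).iterate n) (hA j)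

theorem rp_mono {a b δ δ' : ℝ} (ha : 1 ≤ a) (hab : a ≤ b) (hd : 0 < δ') (h : δ' ≤ δ) :
    b ^ (-δ) ≤ a ^ (-δ') := by
  calc b ^ (-δ) ≤ a ^ (-δ) := Real.rpow_le_rpow_of_nonpos (by linarith) hab (by linarith)
    _ ≤ a ^ (-δ') := Real.rpow_le_rpow_of_exponent_le ha (by linarith)

theorem t (hL : LLN) : MIXC := by
  intro X _ μ _ m T hT 𝒢 huniv hmeas hmix A hA
  classical
  set c : ℝ := ∏ j, μ.real (A j) with hc
  have hc0 : 0 ≤ c := Finset.prod_nonneg fun j _ => measureReal_nonneg
  have hc1 : c ≤ 1 := Finset.prod_le_one (fun j _ => measureReal_nonneg) fun j _ => measureReal_le_one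
  set E : ℕ → Set X := fun n => {x | ∀ j, (T j)^[n + 1] x ∈ A j} with hE
  have hEm : ∀ n, MeasurableSet (E n) := fun n => meas_set hT (fun j => hmeas _ (hA j)) (n + 1)
  set a : ℕ → X → ℝ := fun n x => (E n).indicator (fun _ => (1 : ℝ)) x - c with ha
  have ham : ∀ n, Measurable (a n) := fun n =>
    (measurable_const.indicator (hEm n)).sub_const c
  have hab : ∀ n x, |a n x| ≤ 1 := by
    intro n x
    simp only [ha]
    by_cases hx : x ∈ E n
    · rw [Set.indicator_of_mem hx, abs_le]; constructor <;> linarith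
    · rw [Set.indicator_of_notMem hx, abs_le]; constructor <;> linarith
  -- the two bounds
  obtain ⟨C1, δ1, hδ1, h1⟩ := hmix A A hA hA
  obtain ⟨C2, δ2, hδ2, h2⟩ := hmix A (fun _ => Set.univ) hA (fun _ => huniv)
  have hC1 : 0 ≤ C1 := by
    have h := h1 0 0
    have h' := (abs_nonneg _).trans h
    simp only [Nat.cast_zero, zero_add, Real.one_rpow] at h'
    linarith
  have hC2 : 0 ≤ C2 := by
    have h := h2 0 0
    have h' := (abs_nonneg _).trans h
    simp only [Nat.cast_zero, zero_add, Real.one_rpow] at h'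
    linarith
  set δ := min δ1 δ2 with hδ
  have hδ0 : 0 < δ := lt_min hδ1 hδ2
  have hI : ∀ n k : ℕ, |μ.real (E n ∩ E (n + k)) - c * c| ≤
      C1 * (((n : ℝ) + 1) ^ (-δ) + ((k : ℝ) + 1) ^ (-δ)) := by
    intro n k
    have h := h1 (n + 1) k
    have e : {x | (∀ j, (T j)^[n + 1] x ∈ A j) ∧ ∀ j, (T j)^[n + 1 + k] x ∈ A j} = E n ∩ E (n + k) := by
      ext x
      simp only [hE, Set.mem_inter_iff, Set.mem_ofPred_eq]
      rw [show n + k + 1 = n + 1 + k by ring]
    rw [e] at h
    refine h.trans ?_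
    have hn : (0 : ℝ) ≤ n := Nat.cast_nonneg n
    have hk : (0 : ℝ) ≤ k := Nat.cast_nonneg k
    refine mul_le_mul_of_nonneg_left (add_le_add ?_ ?_) hC1
    · refine rp_mono (by linarith) ?_ hδ0 (min_le_left _ _)
      push_cast; linarith
    · exact rp_mono (by linarith) le_rfl hδ0 (min_le_left _ _)
  have hJ : ∀ n k : ℕ, |μ.real (E n) - c| ≤
      C2 * (((n : ℝ) + 1) ^ (-δ) + ((k : ℝ) + 1) ^ (-δ)) := by
    intro n k
    have h := h2 (n + 1) k
    have e : {x | (∀ j, (T j)^[n + 1] x ∈ A j) ∧ ∀ j, (T j)^[n + 1 + k] x ∈ (Set.univ : Set X)} = E n := by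
      ext x
      simp [hE]
    rw [e] at h
    simp only [probReal_univ, Finset.prod_const_one, mul_one] at h
    refine h.trans ?_
    have hn : (0 : ℝ) ≤ n := Nat.cast_nonneg n
    have hk : (0 : ℝ) ≤ k := Nat.cast_nonneg k
    refine mul_le_mul_of_nonneg_left (add_le_add ?_ ?_) hC2
    · refine rp_mono (by linarith) ?_ hδ0 (min_le_right _ _)
      push_cast; linarith
    · exact rp_mono (by linarith) le_rfl hδ0 (min_le_right _ _)
  have hint : ∀ n k : ℕ, ∫ x, a n x * a (n + k) x ∂μ
      = (μ.real (E n ∩ E (n + k)) - c * c) - c * (μ.real (E n) - c) - c * (μ.real (E (n + k)) - c) := by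
    intro n k
    have e : ∀ x, a n x * a (n + k) x = (E n ∩ E (n + k)).indicator (fun _ => (1 : ℝ)) x
        - c * (E n).indicator (fun _ => (1 : ℝ)) x - c * (E (n + k)).indicator (fun _ => (1 : ℝ)) x + c * c := by
      intro x
      simp only [ha]
      by_cases hx : x ∈ E n <;> by_cases hy : x ∈ E (n + k) <;>
        simp [hx, hy, Set.indicator_of_mem, Set.indicator_of_notMem] <;> ring
    have i1 : Integrable ((E n ∩ E (n + k)).indicator (fun _ => (1 : ℝ))) μ :=
      (integrable_const _).indicator ((hEm n).inter (hEm _))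
    have i2 : Integrable ((E n).indicator (fun _ => (1 : ℝ))) μ := (integrable_const _).indicator (hEm n)
    have i3 : Integrable ((E (n + k)).indicator (fun _ => (1 : ℝ))) μ := (integrable_const _).indicator (hEm _)
    have v : ∀ S : Set X, MeasurableSet S → ∫ x, S.indicator (fun _ => (1 : ℝ)) x ∂μ = μ.real S := by
      intro S hS
      rw [integral_indicator hS]
      simp
    calc ∫ x, a n x * a (n + k) x ∂μ
        = ∫ x, ((E n ∩ E (n + k)).indicator (fun _ => (1 : ℝ)) x
        - c * (E n).indicator (fun _ => (1 : ℝ)) x - c * (E (n + k)).indicator (fun _ => (1 : ℝ)) x + c * c) ∂μ :=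
          integral_congr_ae (Eventually.of_forall e)
      _ = μ.real (E n ∩ E (n + k)) - c * μ.real (E n) - c * μ.real (E (n + k)) + c * c := by
          have j1 : Integrable (fun x => (E n ∩ E (n + k)).indicator (fun _ => (1 : ℝ)) x
              - c * (E n).indicator (fun _ => (1 : ℝ)) x) μ := i1.sub (i2.const_mul c)
          have j2 : Integrable (fun x => (E n ∩ E (n + k)).indicator (fun _ => (1 : ℝ)) x
              - c * (E n).indicator (fun _ => (1 : ℝ)) x - c * (E (n + k)).indicator (fun _ => (1 : ℝ)) x) μ :=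
            j1.sub (i3.const_mul c)
          rw [integral_add j2 (integrable_const _), integral_sub j1 (i3.const_mul c),
            integral_sub i1 (i2.const_mul c),
            integral_const_mul, integral_const_mul, v _ (hEm n), v _ (hEm _), v _ ((hEm n).inter (hEm _))]
          simp
      _ = _ := by ring
  have key : ∀ n k : ℕ, |∫ x, a n x * a (n + k) x ∂μ| ≤
      (C1 + 2 * C2) * (((n : ℝ) + 1) ^ (-δ) + ((k : ℝ) + 1) ^ (-δ)) := by
    intro n k
    rw [hint n k]
    set R := ((n : ℝ) + 1) ^ (-δ) + ((k : ℝ) + 1) ^ (-δ) with hR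
    have hR0 : 0 ≤ R := by positivity
    have b1 := hI n k
    have b2 := hJ n k
    have b3 : |μ.real (E (n + k)) - c| ≤ C2 * R := by
      refine (hJ (n + k) k).trans (mul_le_mul_of_nonneg_left ?_ hC2)
      refine add_le_add ?_ le_rfl
      have hn : (0 : ℝ) ≤ n := Nat.cast_nonneg n
      have hk : (0 : ℝ) ≤ k := Nat.cast_nonneg k
      refine rp_mono (by linarith) ?_ hδ0 le_rfl
      push_cast; linarith
    have t1 : |c * (μ.real (E n) - c)| ≤ C2 * R := by
      rw [abs_mul, abs_of_nonneg hc0]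
      exact (mul_le_of_le_one_left (abs_nonneg _) hc1).trans b2
    have t2 : |c * (μ.real (E (n + k)) - c)| ≤ C2 * R := by
      rw [abs_mul, abs_of_nonneg hc0]
      exact (mul_le_of_le_one_left (abs_nonneg _) hc1).trans b3
    rw [abs_le] at b1 t1 t2 ⊢
    constructor <;> nlinarith
  have hlln := hL X μ a ham hab (C1 + 2 * C2) δ hδ0 key
  filter_upwards [hlln] with x hx
  refine ⟨(c : ℂ), ?_⟩
  have e : ∀ᶠ N : ℕ in atTop, ((((N : ℝ)⁻¹ * ∑ n ∈ Finset.range N, a n x + c : ℝ)) : ℂ)
      = AVF T (fun j x => (((A j).indicator (fun _ => (1 : ℝ)) x : ℝ) : ℂ)) N x := by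
    filter_upwards [eventually_gt_atTop 0] with N hN
    have hN0 : (N : ℝ) ≠ 0 := by positivity
    have hs : (N : ℝ)⁻¹ * ∑ n ∈ Finset.range N, a n x + c
        = (N : ℝ)⁻¹ * ∑ n ∈ Finset.range N, (E n).indicator (fun _ => (1 : ℝ)) x := by
      simp only [ha, Finset.sum_sub_distrib, Finset.sum_const, Finset.card_range, nsmul_eq_mul]
      field_simp
      ring
    rw [hs]
    unfold AVF av
    push_cast
    congr 1
    refine Finset.sum_congr rfl fun n _ => ?_
    have hp := prod_ind T A (n + 1) x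
    rw [← Complex.ofReal_prod, hp]
  refine Tendsto.congr' e ?_
  have h0 : Tendsto (fun N : ℕ => (N : ℝ)⁻¹ * ∑ n ∈ Finset.range N, a n x + c) atTop (𝓝 (0 + c)) :=
    hx.add tendsto_const_nhds
  rw [zero_add] at h0
  exact (Complex.continuous_ofReal.tendsto c).comp h0

end Pool.Agent.H80E.MIXC
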