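import Pool.Agent.H80E.Two
import Pool.Agent.H80E.LLN
import Pool.Agent.H80E.MIXC
import Pool.Agent.H80E.ALGS

/-!
Bases: families which are mixing with a polynomial rate along an algebra of sets.
-/

set_option autoImplicit false
set_option linter.unusedSectionVars false

open Filter Topology MeasureTheory ProbabilityTheory
open scoped ENNReal ProbabilityTheory ComplexConjugate

noncomputable section

namespace Pool.Agent.H80E

open Pool.Agent.Y311.UB Pool.Agent.Y311.CX Pool.Agent.H80GE Pool.Agent.H80IE Pool.Agent.H80C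

theorem mix_cvf {X : Type} [MeasurableSpace X] {μ : Measure X} [IsProbabilityMeasure μ] {m : ℕ} {T : Fin m → X → X}
    (hT : ∀ j, MeasurePreserving (T j) μ μ) {𝒢 : Set (Set X)} (h𝒢 : IsSetAlgebra 𝒢) (hm : ∀ A ∈ 𝒢, MeasurableSet A)
    (hmix : Mix μ T 𝒢) : CvF μ T (MeasurableSpace.generateFrom 𝒢) :=
  ALGS.t X μ m T hT 𝒢 h𝒢 hm fun A hA => MIXC.t LLN.t X μ m T (fun j => (hT j).measurable) 𝒢 h𝒢.univ_mem hm hmix A hA

theorem iter_pow {X : Type} [MeasurableSpace X] (e : X ≃ᵐ X) (n : ℕ) (x : X) :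
    ((e.toEquiv : Equiv.Perm X) ^ (n : ℤ)) x = e^[n] x := by
  rw [zpow_natCast]
  exact congrFun (Equiv.Perm.iterate_eq_pow (e.toEquiv : Equiv.Perm X) n).symm x

theorem iter_pow_symm {X : Type} [MeasurableSpace X] (e : X ≃ᵐ X) (n : ℕ) (x : X) :
    ((e.toEquiv : Equiv.Perm X) ^ (-(n : ℤ))) x = e.symm^[n] x := by
  rw [zpow_neg, zpow_natCast, ← inv_pow]
  exact congrFun (Equiv.Perm.iterate_eq_pow ((e.toEquiv : Equiv.Perm X)⁻¹) n).symm x

theorem mix_bound {C δ : ℝ} (hC : 0 ≤ C) (hδ : 0 < δ) (n k : ℕ) :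
    C * (((n : ℝ) + 1) ^ (-δ) + (((n + k : ℕ) : ℝ) + 1) ^ (-δ) + ((k : ℝ) + 1) ^ (-δ)) ≤
      (2 * C) * (((n : ℝ) + 1) ^ (-δ) + ((k : ℝ) + 1) ^ (-δ)) := by
  have h1 : (((n + k : ℕ) : ℝ) + 1) ^ (-δ) ≤ ((n : ℝ) + 1) ^ (-δ) := by
    refine Real.rpow_le_rpow_of_nonpos (by positivity) ?_ (by linarith)
    push_cast
    have : (0 : ℝ) ≤ k := Nat.cast_nonneg k
    linarith
  have h2 : 0 ≤ ((k : ℝ) + 1) ^ (-δ) := by positivity
  nlinarith

theorem mix_base {X : Type} [MeasurableSpace X] {μ : Measure X} [IsProbabilityMeasure μ] {m : ℕ} {T : Fin m → X ≃ᵐ X}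
    (hT : ∀ j, MeasurePreserving (T j) μ μ) {𝒢 : Set (Set X)} (h𝒢 : IsSetAlgebra 𝒢) (hm : ∀ A ∈ 𝒢, MeasurableSet A)
    (hmix : ∀ A B : Fin m → Set X, (∀ j, A j ∈ 𝒢) → (∀ j, B j ∈ 𝒢) → ∃ C δ : ℝ, 0 < δ ∧ ∀ a b : ℤ,
      |μ.real {x | ∀ j, (((T j).toEquiv : Equiv.Perm X) ^ a) x ∈ A j ∧ (((T j).toEquiv : Equiv.Perm X) ^ b) x ∈ B j} -
          (∏ j, μ.real (A j)) * ∏ j, μ.real (B j)| ≤
        C * ((|(a : ℝ)| + 1) ^ (-δ) + (|(b : ℝ)| + 1) ^ (-δ) + (|(a : ℝ) - b| + 1) ^ (-δ))) :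
    CvF μ (fun j => (T j : X → X)) (MeasurableSpace.generateFrom 𝒢) ∧
      CvF μ (fun j => ((T j).symm : X → X)) (MeasurableSpace.generateFrom 𝒢) := by
  refine ⟨mix_cvf hT h𝒢 hm fun A B hA hB => ?_, mix_cvf (fun j => mp_symm (hT j)) h𝒢 hm fun A B hA hB => ?_⟩
  · obtain ⟨C, δ, hδ, h⟩ := hmix A B hA hB
    have hC : 0 ≤ C := by
      have h0 := (abs_nonneg _).trans (h 0 0)
      norm_num at h0
      linarith
    refine ⟨2 * C, δ, hδ, fun n k => ?_⟩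
    have h1 := h (n : ℤ) ((n + k : ℕ) : ℤ)
    simp only [iter_pow, forall_and] at h1
    refine h1.trans (le_of_eq_of_le ?_ (mix_bound hC hδ n k))
    have e1 : |(((n : ℤ) : ℝ))| = (n : ℝ) := by simp
    have e2 : |((((n + k : ℕ) : ℤ) : ℝ))| = ((n + k : ℕ) : ℝ) := by
      rw [Int.cast_natCast]
      exact Nat.abs_cast _
    have e3 : |((n : ℤ) : ℝ) - (((n + k : ℕ) : ℤ) : ℝ)| = (k : ℝ) := by
      push_cast
      rw [show (n : ℝ) - (n + k) = -(k : ℝ) by ring, abs_neg]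
      exact Nat.abs_cast _
    rw [e1, e2, e3]
  · obtain ⟨C, δ, hδ, h⟩ := hmix A B hA hB
    have hC : 0 ≤ C := by
      have h0 := (abs_nonneg _).trans (h 0 0)
      norm_num at h0
      linarith
    refine ⟨2 * C, δ, hδ, fun n k => ?_⟩
    have h1 := h (-(n : ℤ)) (-((n + k : ℕ) : ℤ))
    simp only [iter_pow_symm, forall_and] at h1
    refine h1.trans (le_of_eq_of_le ?_ (mix_bound hC hδ n k))
    have e1 : |((-(n : ℤ) : ℤ) : ℝ)| = (n : ℝ) := by simp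
    have e2 : |((-((n + k : ℕ) : ℤ) : ℤ) : ℝ)| = ((n + k : ℕ) : ℝ) := by
      rw [Int.cast_neg, abs_neg, Int.cast_natCast]
      exact Nat.abs_cast _
    have e3 : |((-(n : ℤ) : ℤ) : ℝ) - ((-((n + k : ℕ) : ℤ) : ℤ) : ℝ)| = (k : ℝ) := by
      push_cast
      rw [show -(n : ℝ) - -(n + k) = (k : ℝ) by ring]
      exact Nat.abs_cast _
    rw [e1, e2, e3]

end Pool.Agent.H80E
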