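import Pool.Agent.H80E.Stm

/-!
The negligible functions for three commuting maps.
-/

set_option autoImplicit false
set_option linter.unusedSectionVars false

open Filter Topology MeasureTheory ProbabilityTheory Finset
open scoped ENNReal ComplexConjugate

noncomputable section

namespace Pool.Agent.H80E

open Pool.Agent.Y311.UB Pool.Agent.Y311.CX Pool.Agent.H80GE Pool.Agent.H80IE Pool.Agent.H80C

theorem three (i : Fin 3) : ∃ l m : Fin 3, i ≠ l ∧ i ≠ m ∧ l ≠ m ∧ ∀ u : Fin 3 → ℂ, ∏ j, u j = u i * (u l * u m) := by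
  fin_cases i
  · refine ⟨1, 2, by decide, by decide, by decide, fun u => ?_⟩
    simp only [Fin.prod_univ_three]
    change u 0 * u 1 * u 2 = u 0 * (u 1 * u 2)
    ring
  · refine ⟨0, 2, by decide, by decide, by decide, fun u => ?_⟩
    simp only [Fin.prod_univ_three]
    change u 0 * u 1 * u 2 = u 1 * (u 0 * u 2)
    ring
  · refine ⟨0, 1, by decide, by decide, by decide, fun u => ?_⟩
    simp only [Fin.prod_univ_three]
    change u 0 * u 1 * u 2 = u 2 * (u 0 * u 1)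
    ring

theorem com_aRR {X : Type} {P Q R : Equiv.Perm X} (hPQ : Commute P Q) (hPR : Commute P R) (hQR : Commute Q R) :
    Com (aR P Q) (aR P R) := by
  intro m n x
  have h1 : Commute (Q * P⁻¹) (R * P⁻¹) := by
    refine Commute.mul_left (Commute.mul_right hQR hPQ.symm.inv_right) ?_
    exact Commute.mul_right hPR.inv_left (Commute.refl P).inv_inv
  have h2 := (h1.zpow_zpow m n).eq
  exact congrArg (fun T : Equiv.Perm X => T x) h2

theorem cesaro_sqrt {e : ℕ → ℝ} (he : ∀ d, 0 ≤ e d)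
    (hlim : Tendsto (fun M : ℕ => (M : ℝ)⁻¹ * ∑ m ∈ range M, e m) atTop (𝓝 0)) :
    Tendsto (fun M : ℕ => (M : ℝ)⁻¹ * ∑ m ∈ range M, 2 * Real.sqrt (e m)) atTop (𝓝 0) := by
  have h1 : Tendsto (fun M : ℕ => 2 * Real.sqrt ((M : ℝ)⁻¹ * ∑ m ∈ range M, e m)) atTop (𝓝 0) := by
    have := (hlim.sqrt).const_mul 2
    simpa using this
  refine squeeze_zero (fun M => ?_) (fun M => ?_) h1
  · refine mul_nonneg (by positivity) (Finset.sum_nonneg fun m _ => ?_)
    have := Real.sqrt_nonneg (e m)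
    positivity
  · rw [← Finset.mul_sum, mul_left_comm]
    refine mul_le_mul_of_nonneg_left ?_ (by norm_num)
    refine Real.le_sqrt_of_sq_le ?_
    rcases Nat.eq_zero_or_pos M with h0 | h0
    · subst h0
      simp
    have hM : (0 : ℝ) < M := by exact_mod_cast h0
    have h3 := sq_sum_le_card_mul_sum_sq (s := range M) (f := fun m => Real.sqrt (e m))
    rw [Finset.card_range] at h3
    have h4 : ∑ m ∈ range M, Real.sqrt (e m) ^ 2 = ∑ m ∈ range M, e m :=
      Finset.sum_congr rfl fun m _ => Real.sq_sqrt (he m)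
    rw [h4] at h3
    rw [mul_pow]
    calc ((M : ℝ)⁻¹) ^ 2 * (∑ m ∈ range M, Real.sqrt (e m)) ^ 2
        ≤ ((M : ℝ)⁻¹) ^ 2 * (M * ∑ m ∈ range M, e m) := by gcongr
      _ = (M : ℝ)⁻¹ * ∑ m ∈ range M, e m := by
          field_simp

section Main

variable {Y K : Type} [MeasurableSpace Y] [StandardBorelSpace Y] [Group K] [TopologicalSpace K] [IsTopologicalGroup K]
  [CompactSpace K] [T2Space K] [SecondCountableTopology K] [MeasurableSpace K] [BorelSpace K]
  {μ : Measure Y} [IsProbabilityMeasure μ] {ρ : Measure K} [ρ.IsHaarMeasure] [IsProbabilityMeasure ρ]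

/-- a measurable equivalence as a permutation -/
abbrev pE (S : Y ≃ᵐ Y) : Equiv.Perm Y := S.toEquiv

theorem neg3K (hB : B3) (hN : ENP) (S : Fin 3 → Y ≃ᵐ Y)
    (hS : ∀ j, MeasurePreserving (S j) μ μ) {σ : Fin 3 → Y → K} (hσ : ∀ j, Measurable (σ j))
    (hcom : ∀ i j, Commute (pE (S i)) (pE (S j)))
    (herg : ∀ i j, i ≠ j → Ergodic (aR (pE (S i)) (pE (S j)) 1) μ)
    (hY : ∀ g : Fin 3 → Y → ℂ, (∀ j, Measurable (g j)) → (∃ C, ∀ j y, ‖g j y‖ ≤ C) →
      ∀ᵐ y ∂μ, ∃ L, Tendsto (fun N => AVF (fun j => (S j : Y → Y)) g N y) atTop (𝓝 L))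
    (f : Fin 3 → Y × K → ℂ) (hf : ∀ j, Measurable (f j)) (hf1 : ∀ j x, ‖f j x‖ ≤ 1) (i : Fin 3)
    (w : Y × K → ℝ) (hw : Measurable w) (hfw : ∀ x, f i x = ((w x : ℝ) : ℂ))
    (hE : Tendsto (fun M : ℕ => (M : ℝ)⁻¹ * ∑ m ∈ range M, EnP (μ.prod ρ) (aT (skE (S i) (σ i)))
      (fun x => w (aT (skE (S i) (σ i)) (m : ℤ) x) * w x)) atTop (𝓝 0)) :
    ∀ᵐ x ∂(μ.prod ρ), Tendsto (fun N => AVF (fun j => sk (S j) (σ j)) f N x) atTop (𝓝 0) := by
  have hSm : ∀ j, Measurable ((S j : Y → Y)) := fun j => (S j).measurable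
  have hw1 : ∀ x, |w x| ≤ 1 := by
    intro x
    have := hf1 i x
    rw [hfw, Complex.norm_real] at this
    exact this
  have hwB : BMr w := ⟨hw, 1, hw1⟩
  apply AVZF.t CLF.t Y K μ ρ 3 (fun j => (S j : Y → Y)) σ f hS hσ hf hf1
  apply BBF_zero
  intro η hη ε hε
  have hmp : ∀ j, MeasurePreserving (skE (S j) (σ j)) (μ.prod ρ) (μ.prod ρ) := fun j => mp_sk μ ρ (hS j) (hσ j)
  have hmi : ∀ j, Measurable (skE (S j) (σ j)).symm := fun j => skE_symm_meas (S j) (hσ j)
  have haT : ∀ j, Act (μ.prod ρ) (aT (skE (S j) (σ j))) := fun j => act_aT (hmp j) (hmi j)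
  have haS : ∀ j, Act μ (aT (pE (S j))) := fun j => act_aT (P := pE (S j)) (hS j) (S j).symm.measurable
  have haR : ∀ j l, Act μ (aR (pE (S j)) (pE (S l))) := fun j l =>
    act_aR (P := pE (S j)) (Q := pE (S l)) (hS j) (S j).symm.measurable (hS l) (S l).symm.measurable
  obtain ⟨l, m, hil, him, hlm, hprod⟩ := three i
  set F : ℕ → Y × K → ℝ := fun d x => w (aT (skE (S i) (σ i)) (d : ℤ) x) * w x with hF
  have hFB : ∀ d, BMr (F d) := fun d => (hwB.comp ((haT i).measurable _)).mul hwB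
  have hF1 : ∀ d x, |F d x| ≤ 1 := by
    intro d x
    simp only [hF]
    rw [abs_mul]
    exact mul_le_one₀ (hw1 _) (abs_nonneg _) (hw1 _)
  set e : ℕ → ℝ := fun d => EnP (μ.prod ρ) (aT (skE (S i) (σ i))) (F d) with he
  have he0 : ∀ d, 0 ≤ e d := fun d => integral_nonneg fun x => sq_nonneg _
  set ψ : ℕ → Y → ℝ := fun d y => ∫ κ, F d (y, κ) ∂ρ with hψ
  have hψm : ∀ d, Measurable (ψ d) := fun d =>
    ((hFB d).1.stronglyMeasurable.integral_prod_right' (ν := ρ)).measurable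
  have hψ1 : ∀ d y, |ψ d y| ≤ 1 := by
    intro d y
    have := norm_integral_le_of_norm_le_const (μ := ρ) (f := fun κ => F d (y, κ)) (C := 1)
      (Eventually.of_forall fun κ => hF1 d _)
    simpa using this
  have hψE : ∀ d, EnP μ (aR (pE (S i)) (pE (S l))) (ψ d) ≤ e d := fun d =>
    hN Y K μ ρ (aR (pE (S i)) (pE (S l))) (aT (pE (S i))) (aT (skE (S i) (σ i))) (haR i l) (haS i) (haT i)
      (com_aR (hcom i l)) (herg i l hil) (fun z => by
        unfold aT
        rw [zpow_one, zpow_one]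
        rfl) (F d) (hFB d)
  set c : ℕ → ℕ → ℂ := fun d n => ∫ y, ∏ j, psiF ρ (fun j => (S j : Y → Y)) σ f d j ((S j)^[n + 1] y) ∂μ with hc
  have hψψ : ∀ d y, psiF ρ (fun j => (S j : Y → Y)) σ f d i y = ((ψ d y : ℝ) : ℂ) := by
    intro d y
    simp only [hψ]
    rw [← integral_complex_ofReal]
    unfold psiF
    refine integral_congr_ae (Eventually.of_forall fun κ => ?_)
    simp only [hF]
    rw [hfw, hfw, Complex.conj_ofReal, ← Complex.ofReal_mul]
    rw [← aT_iter (P := skE (S i) (σ i)) d (y, κ)]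
    rfl
  have e4 : ∀ (j : Fin 3) (n : ℕ) (y : Y), (S j)^[n + 1] y = aT (pE (S j)) ((n : ℤ) + 1) y := by
    intro j n y
    have := aT_iter (P := pE (S j)) (n + 1) y
    push_cast at this
    exact this
  have hcd : ∀ d, ∀ ε : ℝ, 0 < ε → ∀ᶠ N : ℕ in atTop, ‖av N (c d)‖ ^ 2 ≤ 2 * Real.sqrt (e d) + ε := by
    intro d ε' hε'
    have h1 := hB Y μ (aT (pE (S i))) (aT (pE (S l))) (aT (pE (S m))) (aR (pE (S i)) (pE (S l)))
      (aR (pE (S i)) (pE (S m))) (haS i) (haS l) (haS m) (haR i l) (haR i m) (aR_mul (hcom i l)) (aR_mul (hcom i m))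
      (com_aRR (hcom i l) (hcom i m) (hcom l m)) (com_aR (hcom i l)) (com_aR (hcom i m)) (herg i m him)
      (ψ d) (hψm d) (hψ1 d) (psiF ρ (fun j => (S j : Y → Y)) σ f d l) (psiF ρ (fun j => (S j : Y → Y)) σ f d m)
      (psiF_meas hSm hσ hf d l) (psiF_meas hSm hσ hf d m) (fun y => psiF_bound hf1 d l y)
      (fun y => psiF_bound hf1 d m y) ε' hε'
    filter_upwards [h1] with N hN
    have h2 : av N (c d) = av N (fun n : ℕ => ∫ y, ((ψ d (aT (pE (S i)) ((n : ℤ) + 1) y) : ℝ) : ℂ) *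
        (psiF ρ (fun j => (S j : Y → Y)) σ f d l (aT (pE (S l)) ((n : ℤ) + 1) y) *
          psiF ρ (fun j => (S j : Y → Y)) σ f d m (aT (pE (S m)) ((n : ℤ) + 1) y)) ∂μ) := by
      congr 1
      funext n
      simp only [hc]
      refine integral_congr_ae (Eventually.of_forall fun y => ?_)
      simp only
      rw [hprod, hψψ, e4, e4, e4]
    rw [h2]
    refine hN.trans ?_
    have h3 := Real.sqrt_le_sqrt (hψE d)
    linarith
  obtain ⟨H, hH0, hev⟩ := dbl (e := fun d => 2 * Real.sqrt (e d)) (fun d => by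
    have := Real.sqrt_nonneg (e d)
    positivity) (cesaro_sqrt he0 hE) hcd (ε * η) (by positivity)
  have hfin := CORF.t Y K μ ρ 3 (fun j => (S j : Y → Y)) σ f hS hσ hf 1 hf1 (fun d => by
    refine hY (fun l => psiF ρ (fun j => (S j : Y → Y)) σ f d l) (fun l => psiF_meas hSm hσ hf d l)
      ⟨1, fun l y => psiF_bound hf1 d l y⟩) (ε * η) H hH0 hev η hη
  refine hfin.trans (ENNReal.ofReal_le_ofReal ?_)
  apply le_of_eq
  field_simp

end Main

end Pool.Agent.H80E
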