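import Pool.Agent.H80E.AsmE
import Pool.Agent.H80E.AlgB

/-!
Skew products, both directions.
-/

set_option autoImplicit false
set_option linter.unusedSectionVars false

open Filter Topology MeasureTheory ProbabilityTheory
open scoped ENNReal ProbabilityTheory ComplexConjugate

noncomputable section

namespace Pool.Agent.H80E

open Pool.Agent.Y311.UB Pool.Agent.Y311.CX Pool.Agent.H80GE Pool.Agent.H80IE Pool.Agent.H80C

theorem two_W {Y K W : Type} [MeasurableSpace Y] [StandardBorelSpace Y] [Group K] [TopologicalSpace K]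
    [IsTopologicalGroup K] [CompactSpace K] [T2Space K] [SecondCountableTopology K] [MeasurableSpace K] [BorelSpace K]
    [MeasurableSpace W] [StandardBorelSpace W] [MulAction K W] [MeasurableSMul₂ K W]
    (μ : Measure Y) [IsProbabilityMeasure μ] (ρ : Measure K) [ρ.IsHaarMeasure] [IsProbabilityMeasure ρ] (w₀ : W)
    (S : Fin 3 → Y ≃ᵐ Y) (hS : ∀ j, MeasurePreserving (S j) μ μ)
    (σ : Fin 3 → Y → K) (hσ : ∀ j, Measurable (σ j)) (hS01 : ∀ i j y, S i (S j y) = S j (S i y))
    (hcoc : ∀ i j y, σ i (S j y) * σ j y = σ j (S i y) * σ i y) (T : Fin 3 → Y × W ≃ᵐ Y × W)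
    (hTS : ∀ j z, T j z = (S j z.1, σ j z.1 • z.2))
    (hd : ErgDiff (μ.prod (ρ.map fun k => k • w₀)) fun j => (T j : Y × W → Y × W))
    (hc : CvF μ (fun j => (S j : Y → Y)) inferInstance ∧ CvF μ (fun j => ((S j).symm : Y → Y)) inferInstance) :
    CvF (μ.prod (ρ.map fun k => k • w₀)) (fun j => (T j : Y × W → Y × W)) inferInstance ∧
      CvF (μ.prod (ρ.map fun k => k • w₀)) (fun j => ((T j).symm : Y × W → Y × W)) inferInstance := by
  have hinv := inv_law ρ w₀
  have hπm : Measurable (fun k : K => k • w₀) := measurable_id.smul_const w₀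
  have hρ' : IsProbabilityMeasure (ρ.map fun k : K => k • w₀) :=
    Measure.isProbabilityMeasure_map hπm.aemeasurable
  have hT : ∀ j, MeasurePreserving (T j) (μ.prod (ρ.map fun k => k • w₀)) (μ.prod (ρ.map fun k => k • w₀)) := by
    intro j
    have e : (T j : Y × W → Y × W) = exs (S j) (σ j) := funext fun z => hTS j z
    rw [e]
    exact mp_exs μ _ (hS j) (hσ j)
  have hfst : (μ.prod (ρ.map fun k => k • w₀)).map Prod.fst = μ :=
    (measurePreserving_fst (μ := μ) (ν := ρ.map fun k => k • w₀)).map_eq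
  have h1 : ∀ j, ∀ᵐ x ∂(μ.prod (ρ.map fun k => k • w₀)), Prod.fst (T j x) = S j (Prod.fst x) :=
    fun j => Eventually.of_forall fun x => by rw [hTS]
  have h1' : ∀ j, ∀ᵐ x ∂(μ.prod (ρ.map fun k => k • w₀)), Prod.fst ((T j).symm x) = (S j).symm (Prod.fst x) :=
    fun j => Eventually.of_forall fun x => by
      have h2 := congrArg Prod.fst (hTS j ((T j).symm x))
      rw [MeasurableEquiv.apply_symm_apply] at h2
      simp only at h2
      rw [h2, MeasurableEquiv.symm_apply_apply]
  refine two_iso (X := Y × W) inferInstance (MeasurableSpace.comap Prod.fst inferInstance) b3 enp efac eop zpcf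
    (ρ := ρ) w₀ S hσ hS01 hcoc measurable_fst (τ := Prod.snd) measurable_snd hT hd h1
    (fun j => Eventually.of_forall fun x => by rw [hTS]) ?_ measurable_fst.comap_le
    (fun B hB => ⟨_, ⟨B, hB, rfl⟩, ae_eq_refl _⟩) (fun B hB => ⟨hB, B, hB, ae_eq_refl _⟩) ⟨?_, ?_⟩
  · rw [hfst]
    exact Measure.map_id
  · exact cvf_fac hT measurable_fst h1 fun g hg hgb => by
      rw [hfst]
      exact hc.1 g hg hgb
  · exact cvf_fac (fun j => mp_symm (hT j)) measurable_fst h1' fun g hg hgb => by
      rw [hfst]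
      exact hc.2 g hg hgb

end Pool.Agent.H80E
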