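import Pool.Agent.H80C.QBase

/-!
Project E3: the averages `(1/N) ∑ f₀ (T₀^n x) f₁ (T₁^n x) f₂ (T₂^n x)` for three commuting maps with `T_i T_j⁻¹` ergodic for `i ≠ j`: almost
everywhere convergence lifts to isometric and distal extensions. Statements of the stubs. Library: `Pool.Agent.H80IE.Stm` (definitions
`D2`, `S2`, `En`, `QS`, `LA`, `ZP`, `CAlg`, `RR`, `FF`; proved: `COR.t`, `LEMS.t COR.t`, `GPROJ.t`, `LAALG.t`, `BAPA.t`, `BAPL.t`, `ww : WW`, …),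
`Pool.Agent.H80C` (`Com`, `AVF`, `CORF.t`, `AVZF.t CLF.t`, `CLF.t`, `aR`, `aT`, `conv_expandF`, …), `Pool.Agent.H80GE` (`eig_dec` and `EB` in `WM3.lean`,
`erg_real`, `erg_complex` in `WM1.lean`, `vdc_cor`, `sum_dist_le` in `Vdc.lean`, `conv_of_approx`, `avg_small` in `Transfer.lean`).
-/

set_option autoImplicit false

open Filter Topology MeasureTheory ProbabilityTheory
open scoped ENNReal ComplexConjugate

noncomputable section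

namespace Pool.Agent.H80E

open Pool.Agent.Y311.UB Pool.Agent.Y311.CX Pool.Agent.H80GE Pool.Agent.H80IE Pool.Agent.H80C

/-- the diagonal action preserves the product measure -/
theorem act_prod {X : Type} [MeasurableSpace X] {μ : Measure X} [IsProbabilityMeasure μ] {Φ : ℤ → Equiv.Perm X}
    (h : Act μ Φ) : Act (μ.prod μ) (D2 Φ) := by
  refine ⟨fun m n => ?_, ?_, fun n => ?_⟩
  · refine Equiv.ext fun z => ?_
    show D2 Φ (m + n) z = D2 Φ m (D2 Φ n z)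
    simp only [D2_apply, h.add_apply]
  · refine Equiv.ext fun z => ?_
    show D2 Φ 0 z = z
    simp only [D2_apply, h.zero_apply]
  · have e : (D2 Φ n : X × X → X × X) = Prod.map (Φ n) (Φ n) := by
      funext z
      exact D2_apply Φ n z
    rw [e]
    exact (h.mp n).prod (h.mp n)

/-- the energy `∫ (E[f ⊗ f | invariant sets])²` for the product measure on the square -/
def EnP {X : Type} [MeasurableSpace X] (μ : Measure X) (Φ : ℤ → Equiv.Perm X) (f : X → ℝ) : ℝ :=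
  ∫ z, ((μ.prod μ)[fun z : X × X => f z.1 * f z.2 | inv (D2 Φ) 1]) z ^ 2 ∂(μ.prod μ)

/-- LEMI. If `Φ 1` is ergodic and commutes with `Ψ 1`, the functions invariant under `Φ 1 × Φ 1` are invariant under `Ψ 1 × Ψ 1`.
Proof: let `A = Φ 1`, `T = Ψ 1`, `B(f, g) = ∫ k(x,y) f(x) g(y) d(μ × μ)` for bounded `f, g : X → ℂ`. Invariance: `B(f∘A, g∘A) = B(f, g)`, so
`|B(f,g)|² = |∫ k · (1/N)∑_{n<N} f(A^n x) g(A^n y)|² ≤ C² ∫|(1/N)∑ …|² = C² N⁻² ∑_{n,m<N} ⟨f∘A^n, f∘A^m⟩⟨g∘A^n, g∘A^m⟩`, and this is `≤ C² ‖f‖₂² N⁻² ∑_{n,m} |⟨g∘A^n, g∘A^m⟩|`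
`≤ 2 C² ‖f‖₂² N⁻¹ ∑_{d<N} |⟨g∘A^d, g⟩|` (`sum_dist_le`) (*); the same with `f, g` exchanged.
For eigenfunctions `χ, χ' ∈ EB μ A` (`WM3.lean`) with eigenvalues `θ, θ'`: `B(χ, χ') = θθ' B(χ, χ')`, so it is `0` unless `θθ' = 1`; in this case `χχ'` is
`A`-invariant, so constant `= c`; `χ∘T` is an eigenfunction of `A` for `θ`, so `χ∘T · χ'` is also constant `= c₁`, `χ∘T · χ'∘T = c` (measure preserving);
if `c ≠ 0` then `χ∘T = (c₁/c) χ` and `χ'∘T = (c/c₁) χ'`, so `B(χ∘T, χ'∘T) = B(χ, χ')`; if `c = 0`, then `χ = 0` or `χ' = 0` a.e. (`|χ|`, `|χ'|` are constant)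
and both sides vanish. In the case `θθ' ≠ 1` both sides vanish (`χ∘T` has the eigenvalue `θ` too). By linearity `B(P∘T, P'∘T) = B(P, P')` for `P, P'` in the span of `EB μ A`.
General bounded `f, g`: `eig_dec` gives `f = P + w`, then (with a smaller `ε`, depending on `P`) `g = P' + w'` with small `N⁻¹ ∑_{d<N} |⟨w∘A^d, w⟩|`, the same for `w∘T`
(`T` commutes with `A` and preserves `μ`); `B(f, g) = B(P, P') + B(P, w') + B(w, g)`, and (*) bounds the last two, also with `∘T`. So `B(f∘T, g∘T) = B(f, g)` for all bounded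
`f, g`. With `f, g` replaced by `f∘T⁻¹`, `g∘T⁻¹` and `z ↦ D2 Ψ 1 z` measure preserving: `∫ k(Tx, Ty) f(x) g(y) = ∫ k(x,y) f(x) g(y)`; take indicator functions; the sets of the
product σ-algebra on which the two integrals of `k` agree contain the rectangles, so `k∘(T×T) = k` a.e. (π-λ: `ae_eq_of_forall_setIntegral_eq…`,
`MeasurableSpace.induction_on_inter` with `generateFrom_prod`). -/
def LEMI : Prop := ∀ (X : Type) [MeasurableSpace X] (μ : Measure X) [IsProbabilityMeasure μ]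
  (Φ Ψ : ℤ → Equiv.Perm X), Act μ Φ → Act μ Ψ → Com Φ Ψ → Ergodic (Φ 1) μ →
  ∀ k : X × X → ℝ, BMr k → (∀ z, k (D2 Φ 1 z) = k z) → (fun z => k (D2 Ψ 1 z)) =ᵐ[μ.prod μ] k

/-- ENP. Energies on the base and on the extension. Proof (from LEMI): let `ψ y = ∫ F (y, κ) dρ`, `k` = the conditional expectation
`(μ × μ)[ψ ⊗ ψ | inv (D2 Φ) 1]`, clipped (a.e. unchanged, as in `condExp_version`, `Y311/CX/Ker.lean`), so bounded and exactly `D2 Φ 1`-invariant; `EnP μ Φ ψ = ∫ k² = ∫ ψ⊗ψ · k`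
`= ∫ F(x) F(x') k(x.1, x'.1) d((μ×ρ)×(μ×ρ))` (Fubini). By LEMI `k ∘ D2 Θ 1 = k` a.e., so `G = k(x.1, x'.1)` satisfies `G ∘ D2 Ψ 1 = G` a.e. (`(Ψ 1 z).1 = Θ 1 z.1`), and so
`∫ (F⊗F) G = ∫ (F⊗F)∘(D2 Ψ n) · G` for all `n`, hence `= ∫ E[F⊗F | inv (D2 Ψ) 1] · G` (`Act.birkhoff` for `act_prod` and dominated convergence)
`≤ √(EnP (μ×ρ) Ψ F) · √(∫ G²)` (Cauchy–Schwarz) and `∫ G² = ∫ k² = EnP μ Φ ψ`. So `E ≤ √E' √E`, i.e. `E ≤ E'`. -/
def ENP : Prop := ∀ (Y K : Type) [MeasurableSpace Y] [MeasurableSpace K] (μ : Measure Y) [IsProbabilityMeasure μ]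
  (ρ : Measure K) [IsProbabilityMeasure ρ] (Φ Θ : ℤ → Equiv.Perm Y) (Ψ : ℤ → Equiv.Perm (Y × K)),
  Act μ Φ → Act μ Θ → Act (μ.prod ρ) Ψ → Com Φ Θ → Ergodic (Φ 1) μ → (∀ z, (Ψ 1 z).1 = Θ 1 z.1) →
  ∀ F : Y × K → ℝ, BMr F → EnP μ Φ (fun y => ∫ κ, F (y, κ) ∂ρ) ≤ EnP (μ.prod ρ) Ψ F

/-- B3. The correlation bound. Here `Θ₁ = A Θ₀`, `Θ₂ = B Θ₀`. Proof: with `y = Θ₁ (-(n+1)) y'` the integral is `∫ ψ (A (-(n+1)) y) P₁ y P₂ (C (n+1) y)` with `C n = B n * A (-n)`.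
By Cauchy–Schwarz (`norm_int_sq_le`, `Box.lean`) the square of the norm of its average is at most `∫ ‖av N (u n y)‖² dμ` for `u n y = ψ (A (-(n+1)) y) P₂ (C (n+1) y)`. Apply `vdc_cor` (`Vdc.lean`, `D = 1`):
`∫ u (n+d) y conj (u n y) = ∫ ψ(A(-d) z) ψ(z) · Q_d (B (n+1) z) dμ(z)` with `Q_d = P₂∘C_d · conj P₂` (substitute `y = A (n+1) z`, `C (n+1) (A (n+1) z) = B (n+1) z`). By the ergodic theorem for
`B 1` (`erg_complex`, dominated convergence) the averages over `n` of this converge to `∫ ψ∘A(-d) ψ · ∫ Q_d`, of modulus at most `a d = |∫ ψ (A d z) ψ z dμ|`. So for every `H` eventually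
`‖av‖² ≤ H⁻² ∑_{h,h'<H} a(|h-h'|) + ε/2 ≤ 2 H⁻¹ ∑_{d<H} a d + ε/2` (`sum_dist_le`) `≤ 2 √(H⁻¹ ∑_{d<H} (a d)²) + ε/2`, and `(a d)² = ∫ W(D2 A d z) W z d(μ×μ)` for `W z = ψ z.1 * ψ z.2`, so
`H⁻¹ ∑ (a d)² → EnP μ A ψ` by `COR.t` on the square (`act_prod`). Choose `H`. -/
def B3 : Prop := ∀ (Y : Type) [MeasurableSpace Y] [StandardBorelSpace Y] (μ : Measure Y) [IsProbabilityMeasure μ]
  (Θ₀ Θ₁ Θ₂ A B : ℤ → Equiv.Perm Y), Act μ Θ₀ → Act μ Θ₁ → Act μ Θ₂ → Act μ A → Act μ B →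
  (∀ n, Θ₁ n = A n * Θ₀ n) → (∀ n, Θ₂ n = B n * Θ₀ n) → Com A B → Com A Θ₀ → Com B Θ₀ → Ergodic (B 1) μ →
  ∀ ψ : Y → ℝ, Measurable ψ → (∀ y, |ψ y| ≤ 1) → ∀ P₁ P₂ : Y → ℂ, Measurable P₁ → Measurable P₂ →
  (∀ y, ‖P₁ y‖ ≤ 1) → (∀ y, ‖P₂ y‖ ≤ 1) → ∀ ε : ℝ, 0 < ε → ∀ᶠ N : ℕ in atTop,
    ‖av N (fun n => ∫ y, ((ψ (Θ₀ (n + 1) y) : ℝ) : ℂ) * (P₁ (Θ₁ (n + 1) y) * P₂ (Θ₂ (n + 1) y)) ∂μ)‖ ^ 2 ≤
      2 * Real.sqrt (EnP μ A ψ) + ε

/-- EFAC. The energy and factor maps. Proof: both sides are the limits of `∫ (N⁻¹ ∑_{s<N} F⊗F ∘ D2^s)²` (`Act.mean_sq` with `w = 1` for `act_prod`), and these integrals are equal as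
`Prod.map π π` is measure preserving (`MeasurePreserving.prod`, `integral_map`) and equivariant (`Ψ' s` for natural `s` by `Act.iterate`). -/
def EFAC : Prop := ∀ (X' X : Type) [MeasurableSpace X'] [MeasurableSpace X] (μ' : Measure X') (μ : Measure X)
  [IsProbabilityMeasure μ'] [IsProbabilityMeasure μ] (Ψ' : ℤ → Equiv.Perm X') (Ψ : ℤ → Equiv.Perm X) (π : X' → X),
  Act μ' Ψ' → Act μ Ψ → MeasurePreserving π μ' μ → (∀ x, π (Ψ' 1 x) = Ψ 1 (π x)) → ∀ F : X → ℝ, BMr F →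
  EnP μ' Ψ' (fun x => F (π x)) = EnP μ Ψ F

/-- KAP. Kernel operators. Proof (copy of `H80IE/ZK.lean`, with `Φ` in place of `FAV`): for `u z = k z * w z.2`, `H⁻¹ ∑_{h<H} u (z.1, Φ h z.2) → ∫ u (z.1, y) dμ(y)` in `L¹(μ × μ)`: for every `z.1` the
ergodic theorem `erg_real` (`H80GE/WM1.lean`, `Act.iterate`) gives convergence for a.e. `z.2`; `ae_prod` (the set is measurable) and dominated convergence. Every term is
`k_h z * g_h z.2` with `k_h z = k (z.1, Φ h z.2)` in `APf (μ.prod μ) (D2 Ψ) 1` (`Prod.map id (Φ h)` preserves `μ.prod μ` and commutes with `D2 Ψ n`) and `g_h = w ∘ Φ h`. -/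
def KAP : Prop := ∀ (X : Type) [MeasurableSpace X] (μ : Measure X) [IsProbabilityMeasure μ]
  (Φ Ψ : ℤ → Equiv.Perm X), Act μ Φ → Act μ Ψ → Com Φ Ψ → Ergodic (Φ 1) μ →
  ∀ k : X × X → ℝ, APf (μ.prod μ) (D2 Ψ) 1 k → ∀ w : X → ℝ, BMr w → ZP μ Ψ (fun x => ∫ y, k (x, y) * w y ∂μ)

/-- EOP. Proof (from KAP; copy of `H80IE/EOR.lean`): `energy_zero` for `act_prod : Act (μ.prod μ) (D2 Ψ)`, `w = 1`, `u z = w z.1 * w z.2`; for `k` in `APf (μ.prod μ) (D2 Ψ) 1`: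
`∫ w z.1 * w z.2 * k z d(μ×μ) = ∫ w x * (∫ k (x, y) * w y dμ(y)) dμ(x) = 0` (`integral_prod`, KAP). -/
def EOP : Prop := ∀ (X : Type) [MeasurableSpace X] [StandardBorelSpace X] (μ : Measure X) [IsProbabilityMeasure μ]
  (Φ Ψ : ℤ → Equiv.Perm X), Act μ Φ → Act μ Ψ → Com Φ Ψ → Ergodic (Φ 1) μ → ∀ w : X → ℝ, BMr w →
  (∀ s, ZP μ Ψ s → ∫ x, w x * s x ∂μ = 0) → En (μ.prod μ) (D2 Ψ) (fun z => w z.1 * w z.2) = 0

/-- PRDF. Copy of `H80IE/PRD.lean` for a family of maps: replace `Φ (a j * …)` by `Ψ j …`; `R n ω = fun j => Ψ j n (ω j)`, `G ω = ∏ j, g j (Ψ j 1 (ω j))`; `BAPL` with `a = 1`. -/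
def PRDF : Prop := ∀ (X : Type) [MeasurableSpace X] [StandardBorelSpace X] (μ : Measure X) [IsProbabilityMeasure μ]
  (m : ℕ) (Ψ : Fin m → ℤ → Equiv.Perm X), (∀ j, Act μ (Ψ j)) →
  ∀ (k : Fin m → X × X → ℝ) (g : Fin m → X → ℝ), (∀ j, APf (μ.prod μ) (D2 (Ψ j)) 1 (k j)) → (∀ j, BMr (g j)) →
  ∀ᵐ p ∂(μ.prod (Measure.pi fun _ : Fin m => μ)),
    ∃ L, Tendsto (fun N => AVF (fun j => RR (m := m) (Ψ j)) (FF fun j z => k j z * g j z.2) N p) atTop (𝓝 L)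

/-- SPNF. Copy of `H80IE/SPN.lean` for a family of maps (from PRDF): `AVF (fun j => RR (Ψ j))` in place of `AV (RR Φ) a`. -/
def SPNF : Prop := ∀ (X : Type) [MeasurableSpace X] [StandardBorelSpace X] (μ : Measure X) [IsProbabilityMeasure μ]
  (m : ℕ) (Ψ : Fin m → ℤ → Equiv.Perm X), (∀ j, Act μ (Ψ j)) →
  ∀ F : Fin m → X × X → ℝ, (∀ j, LA (μ.prod μ) (D2 (Ψ j)) (F j)) →
  ∀ᵐ p ∂(μ.prod (Measure.pi fun _ : Fin m => μ)),
    ∃ L, Tendsto (fun N => AVF (fun j => RR (m := m) (Ψ j)) (FF F) N p) atTop (𝓝 L)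

/-- ZPCF. Proof (from SPNF): `F j z = s j z.1`; then `FF F j p = s j p.1`, `(RR (Ψ j))^[n] p = ((Ψ j 1)^[n] p.1, …)`, so the averages depend on `p.1` only; `Measure.ae_ae_of_ae_prod` and
`Eventually.exists` (`Measure.pi` of a probability measure is a probability measure). Compare the end of `H80IE/ZAC.lean`. -/
def ZPCF : Prop := ∀ (X : Type) [MeasurableSpace X] [StandardBorelSpace X] (μ : Measure X) [IsProbabilityMeasure μ]
  (m : ℕ) (Ψ : Fin m → ℤ → Equiv.Perm X), (∀ j, Act μ (Ψ j)) →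
  ∀ s : Fin m → X → ℝ, (∀ j, ZP μ (Ψ j) (s j)) →
  ∀ᵐ x ∂μ, ∃ L, Tendsto (fun N => AVF (fun j => (Ψ j 1 : X → X)) (fun j x => ((s j x : ℝ) : ℂ)) N x) atTop (𝓝 L)

end Pool.Agent.H80E
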