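import Pool.Agent.H80C.QBase

/-!
Project E3, the bases: families of maps which are mixing with a polynomial rate along an algebra of sets. Statements of the stubs.
-/

set_option autoImplicit false

open Filter Topology MeasureTheory ProbabilityTheory
open scoped ENNReal ComplexConjugate

noncomputable section

namespace Pool.Agent.H80E

open Pool.Agent.Y311.UB Pool.Agent.Y311.CX Pool.Agent.H80GE Pool.Agent.H80IE Pool.Agent.H80C

/-- LLN. A law of large numbers. Proof: with `δ' = min δ (1/2)` (and `C ≥ 0` as `n = k = 0` shows) the bound holds for `δ'`, as `n + 1 ≥ 1`. `∑_{k<N} (k+1)^(-δ') ≤ 2 N^(1-δ')` by induction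
(`N^(1-δ') = (N+1)^(1-δ') (1 - 1/(N+1))^(1-δ') ≤ (N+1)^(1-δ') (1 - (1-δ')/(N+1))`, `Real.rpow_one_add_le_one_add_mul_self` or concavity). So
`∫ ((1/N) ∑_{n<N} a n)² ≤ 2 N⁻² ∑_{n<N} ∑_{k<N} |∫ a n * a (n+k)| ≤ 8 C N^(-δ')`. Let `p : ℕ` with `p * δ' ≥ 2`. Along `N = i^p` the integrals are summable (`≤ 8 C i^(-2)`), so a.e. the squares are summable
and the averages along `i^p` tend to `0` (e.g. `lintegral_tsum` or `integrable_of_summable_norm…`, `ae_tendsto…`). For `i^p ≤ N < (i+1)^p`: `|A_N| ≤ |A_{i^p}| + ((i+1)^p - i^p)/i^p`, and `((i+1)/i)^p → 1`. -/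
def LLN : Prop := ∀ (X : Type) [MeasurableSpace X] (μ : Measure X) [IsProbabilityMeasure μ] (a : ℕ → X → ℝ),
  (∀ n, Measurable (a n)) → (∀ n x, |a n x| ≤ 1) → ∀ C δ : ℝ, 0 < δ →
  (∀ n k : ℕ, |∫ x, a n x * a (n + k) x ∂μ| ≤ C * (((n : ℝ) + 1) ^ (-δ) + ((k : ℝ) + 1) ^ (-δ))) →
  ∀ᵐ x ∂μ, Tendsto (fun N : ℕ => (N : ℝ)⁻¹ * ∑ n ∈ Finset.range N, a n x) atTop (𝓝 0)

/-- mixing with a polynomial rate along the family `𝒢` -/
def Mix {X : Type} {_ : MeasurableSpace X} (μ : Measure X) {m : ℕ} (T : Fin m → X → X) (𝒢 : Set (Set X)) : Prop :=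
  ∀ A B : Fin m → Set X, (∀ j, A j ∈ 𝒢) → (∀ j, B j ∈ 𝒢) → ∃ C δ : ℝ, 0 < δ ∧ ∀ n k : ℕ,
    |μ.real {x | (∀ j, (T j)^[n] x ∈ A j) ∧ ∀ j, (T j)^[n + k] x ∈ B j} - (∏ j, μ.real (A j)) * ∏ j, μ.real (B j)| ≤
      C * (((n : ℝ) + 1) ^ (-δ) + ((k : ℝ) + 1) ^ (-δ))

/-- MIXC. Proof (from LLN): `a n x = ∏ j, (A j).indicator 1 ((T j)^[n+1] x) - c`, `c = ∏ j, μ.real (A j)`, so `|a n x| ≤ 1` and `∫ a n * a (n+k) = I - c J_n - c J_{n+k} + c²` with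
`I = μ.real {x | (∀ j, (T j)^[n+1] x ∈ A j) ∧ ∀ j, (T j)^[n+1+k] x ∈ A j}`, `J_n = μ.real {x | ∀ j, (T j)^[n+1] x ∈ A j}`; `Mix` for `A, A` gives `|I - c²| ≤ C (…)`, `Mix` for `A, univ` gives
`|J_n - c| ≤ C' ((n+2)^(-δ') + (k+1)^(-δ'))` for all `k`; `rpow` is monotone, take the minimum of the exponents. -/
def MIXC : Prop := ∀ (X : Type) [MeasurableSpace X] (μ : Measure X) [IsProbabilityMeasure μ] (m : ℕ)
  (T : Fin m → X → X), (∀ j, Measurable (T j)) → ∀ 𝒢 : Set (Set X), Set.univ ∈ 𝒢 → (∀ A ∈ 𝒢, MeasurableSet A) →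
  Mix μ T 𝒢 → ∀ A : Fin m → Set X, (∀ j, A j ∈ 𝒢) →
    ∀ᵐ x ∂μ, ∃ L, Tendsto (fun N => AVF T (fun j x => (((A j).indicator (fun _ => (1 : ℝ)) x : ℝ) : ℂ)) N x) atTop (𝓝 L)

/-- ALGS. Proof: as `qbase` in `H80C/QBase.lean` (`cvf_of_alg` with `At_alg`, the second part is the same); for the first part, with `f j x = F j (kap U x)` for a common finite `U ⊆ 𝒢`,
`f j x = ∑ t ∈ U.powerset, F j t * indicator {x | kap U x = t} 1 x`, `Finset.prod_univ_sum`, and the sets `{x | kap U x = t}` are in `𝒢` (finite intersections of sets of `𝒢` and complements). -/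
def ALGS : Prop := ∀ (X : Type) [MeasurableSpace X] (μ : Measure X) [IsProbabilityMeasure μ] (m : ℕ)
  (T : Fin m → X → X), (∀ j, MeasurePreserving (T j) μ μ) → ∀ 𝒢 : Set (Set X), IsSetAlgebra 𝒢 →
  (∀ A ∈ 𝒢, MeasurableSet A) →
  (∀ A : Fin m → Set X, (∀ j, A j ∈ 𝒢) →
    ∀ᵐ x ∂μ, ∃ L, Tendsto (fun N => AVF T (fun j x => (((A j).indicator (fun _ => (1 : ℝ)) x : ℝ) : ℂ)) N x) atTop (𝓝 L)) →
  CvF μ T (MeasurableSpace.generateFrom 𝒢)

end Pool.Agent.H80E
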