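import Pool.Agent.H80E.Tow3

/-!
Averages over `[1, N]`, `[-N, -1]` and `[-N, N]` for three invertible maps.
-/

set_option autoImplicit false
set_option linter.unusedSectionVars false

open Filter Topology MeasureTheory ProbabilityTheory
open scoped ENNReal ProbabilityTheory ComplexConjugate

noncomputable section

namespace Pool.Agent.H80E

open Pool.Agent.Y311.UB Pool.Agent.Y311.CX Pool.Agent.H80GE Pool.Agent.H80IE Pool.Agent.H80C

/-- averages over `[a, b]` -/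
def avz {X : Type} [MeasurableSpace X] {m : ℕ} (T : Fin m → X ≃ᵐ X) (f : Fin m → X → ℂ) (a b : ℤ) (x : X) : ℂ :=
  (1 / ((b - a + 1 : ℤ) : ℂ)) * ∑ n ∈ Finset.Icc a b, ∏ j, f j ((((T j).toEquiv : Equiv.Perm X) ^ n) x)

theorem sum_pos (F : ℤ → ℂ) (N : ℕ) : ∑ n ∈ Finset.Icc (1 : ℤ) N, F n = ∑ n ∈ Finset.range N, F ((n : ℤ) + 1) := by
  induction N with
  | zero => simp
  | succ N ih =>
    rw [Finset.sum_range_succ, ← ih]
    have e : Finset.Icc (1 : ℤ) ((N + 1 : ℕ) : ℤ) = insert ((N : ℤ) + 1) (Finset.Icc (1 : ℤ) N) := by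
      ext x
      simp only [Finset.mem_insert, Finset.mem_Icc]
      push_cast
      omega
    rw [e, Finset.sum_insert, add_comm]
    simp only [Finset.mem_Icc]
    omega

theorem sum_neg (F : ℤ → ℂ) (N : ℕ) : ∑ n ∈ Finset.Icc (-N : ℤ) (-1), F n = ∑ n ∈ Finset.range N, F (-((n : ℤ) + 1)) := by
  induction N with
  | zero => simp
  | succ N ih =>
    rw [Finset.sum_range_succ, ← ih]
    have e : Finset.Icc (-((N + 1 : ℕ) : ℤ)) (-1) = insert (-((N : ℤ) + 1)) (Finset.Icc (-(N : ℤ)) (-1)) := by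
      ext x
      simp only [Finset.mem_insert, Finset.mem_Icc]
      push_cast
      omega
    rw [e, Finset.sum_insert, add_comm]
    simp only [Finset.mem_Icc]
    omega

theorem sum_two (F : ℤ → ℂ) (N : ℕ) : ∑ n ∈ Finset.Icc (-N : ℤ) N, F n =
    F 0 + ∑ n ∈ Finset.Icc (1 : ℤ) N, F n + ∑ n ∈ Finset.Icc (-N : ℤ) (-1), F n := by
  induction N with
  | zero => simp
  | succ N ih =>
    have e : Finset.Icc (-((N + 1 : ℕ) : ℤ)) ((N + 1 : ℕ) : ℤ) =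
        insert (-((N : ℤ) + 1)) (insert ((N : ℤ) + 1) (Finset.Icc (-(N : ℤ)) N)) := by
      ext x
      simp only [Finset.mem_insert, Finset.mem_Icc]
      push_cast
      omega
    rw [e, Finset.sum_insert, Finset.sum_insert, ih, sum_pos, sum_neg, sum_pos, sum_neg, Finset.sum_range_succ,
      Finset.sum_range_succ]
    · ring
    · simp only [Finset.mem_Icc]
      omega
    · simp only [Finset.mem_insert, Finset.mem_Icc]
      omega

section

variable {X : Type} [MeasurableSpace X] {m : ℕ} (T : Fin m → X ≃ᵐ X) (f : Fin m → X → ℂ)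

theorem pow_pos' (e : X ≃ᵐ X) (n : ℕ) (x : X) : ((e.toEquiv : Equiv.Perm X) ^ ((n : ℤ) + 1)) x = e^[n + 1] x := by
  have h : ((n : ℤ) + 1) = ((n + 1 : ℕ) : ℤ) := by push_cast; rfl
  rw [h, zpow_natCast]
  exact congrFun (Equiv.Perm.iterate_eq_pow (e.toEquiv : Equiv.Perm X) (n + 1)).symm x

theorem pow_neg' (e : X ≃ᵐ X) (n : ℕ) (x : X) :
    ((e.toEquiv : Equiv.Perm X) ^ (-((n : ℤ) + 1))) x = e.symm^[n + 1] x := by
  have h : ((n : ℤ) + 1) = ((n + 1 : ℕ) : ℤ) := by push_cast; rfl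
  rw [h, zpow_neg, zpow_natCast, ← inv_pow]
  exact congrFun (Equiv.Perm.iterate_eq_pow ((e.toEquiv : Equiv.Perm X)⁻¹) (n + 1)).symm x

theorem avz_pos (N : ℕ) (x : X) : avz T f 1 N x = AVF (fun j => (T j : X → X)) f N x := by
  unfold avz AVF av
  rw [sum_pos]
  have h : (((N : ℤ) - 1 + 1 : ℤ) : ℂ) = (N : ℂ) := by push_cast; ring
  rw [h, one_div]
  simp only [pow_pos']

theorem avz_neg (N : ℕ) (x : X) : avz T f (-N) (-1) x = AVF (fun j => ((T j).symm : X → X)) f N x := by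
  unfold avz AVF av
  rw [sum_neg]
  have h : (((-1 : ℤ) - (-(N : ℤ)) + 1 : ℤ) : ℂ) = (N : ℂ) := by push_cast; ring
  rw [h, one_div]
  simp only [pow_neg']

/-- the averages over `[-N, N]` converge if the averages over `[1, N]` and over `[-N, -1]` do -/
theorem avz_two {x : X} {L M : ℂ} (h1 : Tendsto (fun N : ℕ => avz T f 1 N x) atTop (𝓝 L))
    (h2 : Tendsto (fun N : ℕ => avz T f (-N) (-1) x) atTop (𝓝 M)) :
    Tendsto (fun N : ℕ => avz T f (-N) N x) atTop (𝓝 ((1 / 2) * L + (1 / 2) * M)) := by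
  have e : ∀ N : ℕ, avz T f (-N) N x = (1 / (2 * (N : ℂ) + 1)) * (∏ j, f j ((((T j).toEquiv : Equiv.Perm X) ^ (0 : ℤ)) x)) +
      ((N : ℂ) / (2 * (N : ℂ) + 1)) * avz T f 1 N x + ((N : ℂ) / (2 * (N : ℂ) + 1)) * avz T f (-N) (-1) x := by
    intro N
    rcases Nat.eq_zero_or_pos N with rfl | hN
    · unfold avz
      simp
    · have hN0 : (N : ℂ) ≠ 0 := by exact_mod_cast hN.ne'
      unfold avz
      rw [sum_two (fun n => ∏ j, f j ((((T j).toEquiv : Equiv.Perm X) ^ n) x)) N]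
      have e1 : (((N : ℤ) - (-(N : ℤ)) + 1 : ℤ) : ℂ) = 2 * (N : ℂ) + 1 := by push_cast; ring
      have e2 : (((N : ℤ) - 1 + 1 : ℤ) : ℂ) = (N : ℂ) := by push_cast; ring
      have e3 : (((-1 : ℤ) - (-(N : ℤ)) + 1 : ℤ) : ℂ) = (N : ℂ) := by push_cast; ring
      rw [e1, e2, e3]
      have h2N : (2 * (N : ℂ) + 1) ≠ 0 := by exact_mod_cast (by omega : 2 * N + 1 ≠ 0)
      field_simp
  have hinv : Tendsto (fun N : ℕ => 1 / (2 * (N : ℂ) + 1)) atTop (𝓝 0) := by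
    have h3 : Tendsto (fun N : ℕ => ((2 * (N : ℝ) + 1)⁻¹ : ℝ)) atTop (𝓝 0) := by
      refine tendsto_inv_atTop_zero.comp ?_
      exact tendsto_atTop_add_const_right _ _ (tendsto_natCast_atTop_atTop.const_mul_atTop (by norm_num))
    have h4 := (Complex.continuous_ofReal.tendsto 0).comp h3
    rw [Complex.ofReal_zero] at h4
    refine h4.congr fun N => ?_
    simp only [Function.comp_apply]
    push_cast
    rw [one_div]
  have hhalf : Tendsto (fun N : ℕ => (N : ℂ) / (2 * (N : ℂ) + 1)) atTop (𝓝 (1 / 2)) := by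
    have e4 : ∀ N : ℕ, (N : ℂ) / (2 * (N : ℂ) + 1) = 1 / 2 - (1 / 2) * (1 / (2 * (N : ℂ) + 1)) := by
      intro N
      have h2N : (2 * (N : ℂ) + 1) ≠ 0 := by exact_mod_cast (by omega : 2 * N + 1 ≠ 0)
      have h3 : 1 / (2 * (N : ℂ) + 1) * (2 * (N : ℂ) + 1) = 1 := one_div_mul_cancel h2N
      rw [div_eq_iff h2N, sub_mul, mul_assoc, h3]
      ring
    simp_rw [e4]
    have h5 := (hinv.const_mul (1 / 2 : ℂ)).const_sub (1 / 2 : ℂ)
    rwa [mul_zero, sub_zero] at h5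
  simp_rw [e]
  have h6 := ((hinv.mul_const (∏ j, f j ((((T j).toEquiv : Equiv.Perm X) ^ (0 : ℤ)) x))).add (hhalf.mul h1)).add
    (hhalf.mul h2)
  rwa [zero_mul, zero_add] at h6

end

/-- both directions -/
theorem cvz_iff {X : Type} (𝓐 : MeasurableSpace X) [mX : MeasurableSpace X] (μ : Measure X) {m : ℕ} (T : Fin m → X ≃ᵐ X) :
    (∀ f : Fin m → X → ℂ, (∀ j, Measurable[𝓐] (f j)) → (∃ C, ∀ j x, ‖f j x‖ ≤ C) → ∀ᵐ x ∂μ,
      (∃ L, Tendsto (fun N : ℕ => avz T f 1 N x) atTop (𝓝 L)) ∧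
      (∃ L, Tendsto (fun N : ℕ => avz T f (-N) (-1) x) atTop (𝓝 L)) ∧
      ∃ L, Tendsto (fun N : ℕ => avz T f (-N) N x) atTop (𝓝 L)) ↔
    CvF μ (fun j => (T j : X → X)) 𝓐 ∧ CvF μ (fun j => ((T j).symm : X → X)) 𝓐 := by
  constructor
  · intro h
    refine ⟨fun f hf hfb => ?_, fun f hf hfb => ?_⟩
    · filter_upwards [h f hf hfb] with x hx
      obtain ⟨⟨L, hL⟩, -, -⟩ := hx
      exact ⟨L, hL.congr fun N => avz_pos T f N x⟩
    · filter_upwards [h f hf hfb] with x hx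
      obtain ⟨-, ⟨L, hL⟩, -⟩ := hx
      exact ⟨L, hL.congr fun N => avz_neg T f N x⟩
  · rintro ⟨h1, h2⟩ f hf hfb
    filter_upwards [h1 f hf hfb, h2 f hf hfb] with x hx1 hx2
    obtain ⟨L, hL⟩ := hx1
    obtain ⟨M, hM⟩ := hx2
    have h3 : Tendsto (fun N : ℕ => avz T f 1 N x) atTop (𝓝 L) := hL.congr fun N => (avz_pos T f N x).symm
    have h4 : Tendsto (fun N : ℕ => avz T f (-N) (-1) x) atTop (𝓝 M) := hM.congr fun N => (avz_neg T f N x).symm
    exact ⟨⟨L, h3⟩, ⟨M, h4⟩, _, avz_two T f h3 h4⟩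

theorem mp_symm {X : Type} [MeasurableSpace X] {μ : Measure X} {T : X ≃ᵐ X} (h : MeasurePreserving T μ μ) :
    MeasurePreserving T.symm μ μ := h.symm T

theorem diff_symm {X : Type} [MeasurableSpace X] {μ : Measure X} {m : ℕ} {T : Fin m → X ≃ᵐ X}
    (hT : ∀ j, MeasurePreserving (T j) μ μ) (hd : ErgDiff μ fun j => (T j : X → X)) :
    ErgDiff μ fun j => ((T j).symm : X → X) := by
  intro i j hij A hA h
  have h1 := hd i j hij ((T i).symm ⁻¹' A) ((T i).symm.measurable hA) (by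
    have h2 : (T j : X → X) ⁻¹' ((T i).symm ⁻¹' A) =ᵐ[μ] (T j : X → X) ⁻¹' ((T j).symm ⁻¹' A) :=
      (hT j).quasiMeasurePreserving.preimage_ae_eq h
    have e1 : (T j : X → X) ⁻¹' ((T j).symm ⁻¹' A) = A := by
      ext x
      simp
    have e2 : (T i : X → X) ⁻¹' ((T i).symm ⁻¹' A) = A := by
      ext x
      simp
    rw [e1] at h2
    show (T i : X → X) ⁻¹' ((T i).symm ⁻¹' A) =ᵐ[μ] (T j : X → X) ⁻¹' ((T i).symm ⁻¹' A)
    rw [e2]
    exact h2.symm)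
  have h3 : μ ((T i).symm ⁻¹' A) = μ A := (mp_symm (hT i)).measure_preimage hA.nullMeasurableSet
  rwa [h3] at h1

/-- the isometric step, both directions -/
theorem two_iso {X : Type} (𝓑 𝓐 : MeasurableSpace X) [mX : MeasurableSpace X] {μ : Measure X} [IsProbabilityMeasure μ]
    {Y K W : Type} [MeasurableSpace Y] [StandardBorelSpace Y] [Group K] [TopologicalSpace K]
    [IsTopologicalGroup K] [CompactSpace K] [T2Space K] [SecondCountableTopology K] [MeasurableSpace K] [BorelSpace K]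
    [MeasurableSpace W] [StandardBorelSpace W] [MulAction K W] [MeasurableSMul₂ K W]
    (hB3 : B3) (hN : ENP) (hFc : EFAC) (hE : EOP) (hZ : ZPCF)
    {ρ : Measure K} [ρ.IsHaarMeasure] [IsProbabilityMeasure ρ] (w₀ : W) (S : Fin 3 → Y ≃ᵐ Y)
    {σ : Fin 3 → Y → K} (hσ : ∀ j, Measurable (σ j)) (hS01 : ∀ i j y, S i (S j y) = S j (S i y))
    (hcoc : ∀ i j y, σ i (S j y) * σ j y = σ j (S i y) * σ i y)
    {π : X → Y} (hπ : Measurable π) {τ : X → W} (hτ : Measurable τ)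
    {T : Fin 3 → X ≃ᵐ X} (hT : ∀ j, MeasurePreserving (T j) μ μ) (hd : ErgDiff μ fun j => (T j : X → X))
    (h1 : ∀ j, ∀ᵐ x ∂μ, π (T j x) = S j (π x))
    (h2 : ∀ j, ∀ᵐ x ∂μ, τ (T j x) = σ j (π x) • τ x)
    (h3 : μ.map (fun x => (π x, τ x)) = (μ.map π).prod (ρ.map fun k => k • w₀)) (hle : 𝓐 ≤ mX)
    (h4 : ∀ B, MeasurableSet B → ∃ A, MeasurableSet[𝓐] A ∧ π ⁻¹' B =ᵐ[μ] A)
    (h5 : ∀ B, MeasurableSet[𝓑] B → MeasurableSet B ∧
      ∃ C : Set (Y × W), MeasurableSet C ∧ B =ᵐ[μ] (fun x => (π x, τ x)) ⁻¹' C)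
    (hc : CvF μ (fun j => (T j : X → X)) 𝓐 ∧ CvF μ (fun j => ((T j).symm : X → X)) 𝓐) :
    CvF μ (fun j => (T j : X → X)) 𝓑 ∧ CvF μ (fun j => ((T j).symm : X → X)) 𝓑 := by
  have h1' : ∀ j, ∀ᵐ x ∂μ, π ((T j).symm x) = (S j).symm (π x) := by
    intro j
    filter_upwards [(mp_symm (hT j)).quasiMeasurePreserving.ae (h1 j)] with x hx
    rw [MeasurableEquiv.apply_symm_apply] at hx
    rw [hx, MeasurableEquiv.symm_apply_apply]
  have hSs : ∀ i j y, (S i).symm ((S j).symm y) = (S j).symm ((S i).symm y) := by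
    intro i j y
    have h6 : S i (S j ((S i).symm ((S j).symm y))) = y := by
      rw [hS01, MeasurableEquiv.apply_symm_apply, MeasurableEquiv.apply_symm_apply]
    have h7 := congrArg (fun t => (S j).symm ((S i).symm t)) h6
    simp only [MeasurableEquiv.symm_apply_apply] at h7
    exact h7
  refine ⟨cvf_iso3 (ρ := ρ) 𝓑 𝓐 hB3 hN hFc hE hZ w₀ S hσ hS01 hcoc hπ hτ hT hd h1 h2 h3 hle h4 h5 hc.1,
    cvf_iso3 (ρ := ρ) 𝓑 𝓐 hB3 hN hFc hE hZ w₀ (fun j => (S j).symm) (σ := fun j y => (σ j ((S j).symm y))⁻¹)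
      (fun j => ((hσ j).comp (S j).symm.measurable).inv) (fun i j y => ?_) (fun i j y => ?_) hπ hτ
      (fun j => mp_symm (hT j)) (diff_symm hT hd) h1' (fun j => ?_) h3 hle h4 h5 hc.2⟩
  · exact hSs i j y
  · -- `σ' i (S j⁻¹ y) * σ' j y = (σ j (S j⁻¹ y) * σ i (S i⁻¹ (S j⁻¹ y)))⁻¹`
    have h6 := hcoc i j ((S i).symm ((S j).symm y))
    have e1 : S i ((S i).symm ((S j).symm y)) = (S j).symm y := MeasurableEquiv.apply_symm_apply _ _
    have e2 : S j ((S i).symm ((S j).symm y)) = (S i).symm y := by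
      rw [hSs i j y, MeasurableEquiv.apply_symm_apply]
    rw [e1, e2] at h6
    show (σ i ((S i).symm ((S j).symm y)))⁻¹ * (σ j ((S j).symm y))⁻¹ =
      (σ j ((S j).symm ((S i).symm y)))⁻¹ * (σ i ((S i).symm y))⁻¹
    rw [← mul_inv_rev, ← mul_inv_rev, ← hSs i j y, h6]
  · filter_upwards [(mp_symm (hT j)).quasiMeasurePreserving.ae (h2 j), h1' j] with x hx1 hx2
    rw [MeasurableEquiv.apply_symm_apply] at hx1
    rw [← hx2, hx1, inv_smul_smul]

/-- the maps -/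
def fw {X : Type} [MeasurableSpace X] {m : ℕ} (T : Fin m → X ≃ᵐ X) : Fin m → X → X := fun j => T j

/-- the inverse maps -/
def bw {X : Type} [MeasurableSpace X] {m : ℕ} (T : Fin m → X ≃ᵐ X) : Fin m → X → X := fun j => (T j).symm

/-- convergence in both directions -/
def Cv2 {X : Type} [mX : MeasurableSpace X] (μ : Measure X) {m : ℕ} (T : Fin m → X ≃ᵐ X) (𝓐 : MeasurableSpace X) : Prop :=
  @CvF X mX μ m (@fw X mX m T) 𝓐 ∧ @CvF X mX μ m (@bw X mX m T) 𝓐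

theorem cv2_sup {X : Type} [mX : MeasurableSpace X] {μ : Measure X} [IsProbabilityMeasure μ]
    {F : Set (MeasurableSpace X)} (hne : F.Nonempty) (hdir : DirectedOn (· ≤ ·) F)
    (hle : ∀ 𝓒 ∈ F, 𝓒 ≤ mX) {m : ℕ} {T : Fin m → X ≃ᵐ X} (hT : ∀ j, MeasurePreserving (T j) μ μ)
    (hc : ∀ 𝓒 ∈ F, Cv2 μ T 𝓒) : Cv2 μ T (sSup F) :=
  ⟨cvf_sup hne hdir hle hT fun 𝓒 h => (hc 𝓒 h).1,
    cvf_sup hne hdir hle (T := fun j => (T j).symm) (fun j => mp_symm (hT j)) fun 𝓒 h => (hc 𝓒 h).2⟩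

theorem cv2_def {X : Type} (𝓐 : MeasurableSpace X) [mX : MeasurableSpace X] (μ : Measure X) {m : ℕ} (T : Fin m → X ≃ᵐ X) :
    Cv2 μ T 𝓐 ↔ CvF μ (fun j => (T j : X → X)) 𝓐 ∧ CvF μ (fun j => ((T j).symm : X → X)) 𝓐 := Iff.rfl

theorem cv2_iff {X : Type} (𝓐 : MeasurableSpace X) [mX : MeasurableSpace X] (μ : Measure X) {m : ℕ} (T : Fin m → X ≃ᵐ X) :
    (∀ f : Fin m → X → ℂ, (∀ j, Measurable[𝓐] (f j)) → (∃ C, ∀ j x, ‖f j x‖ ≤ C) → ∀ᵐ x ∂μ,
      (∃ L, Tendsto (fun N : ℕ => avz T f 1 N x) atTop (𝓝 L)) ∧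
      (∃ L, Tendsto (fun N : ℕ => avz T f (-N) (-1) x) atTop (𝓝 L)) ∧
      ∃ L, Tendsto (fun N : ℕ => avz T f (-N) N x) atTop (𝓝 L)) ↔ Cv2 μ T 𝓐 :=
  (cvz_iff 𝓐 μ T).trans (cv2_def 𝓐 μ T).symm

end Pool.Agent.H80E
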